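import Pool.Agent.STP.Fml

/-! # The ground model: a custom constructible hierarchy (definitions)

(problem MP_ba5606_gt, ARH Part II, block A = ground model; architect helper69)

Language `LF`: membership, equality, a binary relation `lt` and relations `tp r` between natural numbers. A structure is
given by `E lt : S → S → Prop` and the parameter `Φ : ℕ → ℕ → ℕ → ℕ → Prop` (`Φ r a b c`: a countable family of native ternary relations on the natural
numbers; `isNum E n x` says that `x` is the natural number `n` of the structure). `lsat Φ E lt D φ v`: satisfaction, quantifiers over `D`.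

* `Key S`: a formula with parameters `a, l` (nonempty list `a :: l`). `Key.ext`: the definable subset of `D`. `Key.dfs k x`: the set `x` is the subset of `D`
  defined by `k`. `klt`: the order of keys (number of the formula, then shortlex order of the parameters). `less`: some key of `x` is less than all keys of `y`.
* `Coh Φ E lt J lev`: coherent structures with levels (indices `I` ordered by `J`, `lev i x`: `x` is in the level `i`): the lowest level is `{∅}`, the next level
  consists of all definable subsets of the previous level, limit levels are unions; new elements of a successor level are ordered by their keys, after the old ones.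
* `U Φ α`, `Rl Φ α`: the native hierarchy; `Lc Φ` the union of all levels, `Lt Φ` the union of the orders.
* `Eb, Lb, Jb, Vb`: the structure on `ℕ` coded by `b : ℕ → Bool`; `Ph t`: the parameter coded by `t : ℕ → Bool`;
  `Tb b t`: the structure coded by `b` is coherent for the parameter `Ph t`. -/

universe u v

namespace LGr

open STP

/-- formulas of the language of levels (de Bruijn) -/
inductive LF : Type
  | mem (i j : ℕ) : LF
  | eq (i j : ℕ) : LF
  | lt (i j : ℕ) : LF
  | tp (r i j k : ℕ) : LF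
  | bot : LF
  | imp (φ ψ : LF) : LF
  | all (φ : LF) : LF

/-- the number of a formula -/
def enc : LF → ℕ
  | .mem i j => 7 * Nat.pair i j
  | .eq i j => 7 * Nat.pair i j + 1
  | .lt i j => 7 * Nat.pair i j + 2
  | .tp r i j k => 7 * Nat.pair (Nat.pair r i) (Nat.pair j k) + 3
  | .bot => 4
  | .imp φ ψ => 7 * Nat.pair (enc φ) (enc ψ) + 5
  | .all φ => 7 * enc φ + 6

/-- `x` is the natural number `n` of the structure -/
def isNum {S : Type u} (E : S → S → Prop) : ℕ → S → Prop
  | 0, x => ∀ z, ¬ E z x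
  | n + 1, x => ∃ y, isNum E n y ∧ ∀ z, E z x ↔ E z y ∨ z = y

section

variable (Φ : ℕ → ℕ → ℕ → ℕ → Prop) {S : Type u} (E lt : S → S → Prop) (D : S → Prop)

/-- satisfaction, quantifiers over `D` -/
def lsat : LF → (ℕ → S) → Prop
  | .mem i j, v => E (v i) (v j)
  | .eq i j, v => v i = v j
  | .lt i j, v => lt (v i) (v j)
  | .tp r i j k, v => ∃ a b c, isNum E a (v i) ∧ isNum E b (v j) ∧ isNum E c (v k) ∧ Φ r a b c
  | .bot, _ => False
  | .imp φ ψ, v => lsat φ v → lsat ψ v
  | .all φ, v => ∀ x, D x → lsat φ (cns x v)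

/-- a formula with parameters -/
@[ext] structure Key (S : Type u) where
  /-- the formula -/
  φ : LF
  /-- the first parameter -/
  a : S
  /-- the other parameters -/
  l : List S

/-- the parameters are in `D` -/
def Key.ok {S : Type u} (D : S → Prop) (k : Key S) : Prop := D k.a ∧ ∀ y ∈ k.l, D y

/-- the assignment given by the parameters -/
def Key.env {S : Type u} (k : Key S) : ℕ → S := fun i => (k.a :: k.l).getD i k.a

/-- the subset of `D` defined by the key -/
def Key.ext' (k : Key S) (z : S) : Prop := D z ∧ lsat Φ E lt D k.φ (cns z k.env)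

/-- `x` is the subset of `D` defined by the key -/
def Key.dfs (k : Key S) (x : S) : Prop := ∀ z, E z x ↔ k.ext' Φ E lt D z

/-- the order of keys -/
def klt {S : Type u} (lt : S → S → Prop) (k k' : Key S) : Prop :=
  enc k.φ < enc k'.φ ∨ (k.φ = k'.φ ∧ List.Shortlex lt (k.a :: k.l) (k'.a :: k'.l))

/-- `x` is a definable subset of `D` -/
def Df (x : S) : Prop := ∃ k : Key S, k.ok D ∧ k.dfs Φ E lt D x

/-- some key of `x` is less than all keys of `y` -/
def less (x y : S) : Prop :=
  ∃ k : Key S, k.ok D ∧ k.dfs Φ E lt D x ∧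
    ∀ k' : Key S, k'.ok D → k'.dfs Φ E lt D y → klt lt k k'

end

/-- `i` is the immediate successor of `j` -/
def Suc {I : Type v} (J : I → I → Prop) (j i : I) : Prop := J j i ∧ ∀ k, J k i → k = j ∨ J k j

/-- coherent structures with levels -/
structure Coh (Φ : ℕ → ℕ → ℕ → ℕ → Prop) {S : Type u} {I : Type v} (E lt : S → S → Prop)
    (J : I → I → Prop) (lev : I → S → Prop) : Prop where
  ext : ∀ x y, (∀ z, E z x ↔ E z y) → x = y
  Jtr : ∀ i j k, J i j → J j k → J i k
  Jirr : ∀ i, ¬ J i i
  Jlin : ∀ i j, J i j ∨ i = j ∨ J j i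
  emp : ∃ x, ∀ z, ¬ E z x
  tot : ∀ x, ∃ i, lev i x
  low : ∀ i, (∀ j, ¬ J j i) → ∀ x, lev i x ↔ ∀ z, ¬ E z x
  suc : ∀ j i, Suc J j i → ∀ x, lev i x ↔ Df Φ E lt (lev j) x
  sucex : ∀ j i, Suc J j i → ∀ k : Key S, k.ok (lev j) → ∃ x, k.dfs Φ E lt (lev j) x
  lim : ∀ i, (∃ j, J j i) → (∀ j, ¬ Suc J j i) → ∀ x, lev i x ↔ ∃ j, J j i ∧ lev j x
  ltlow : ∀ i, (∀ j, ¬ J j i) → ∀ x y, lev i x → lev i y → ¬ lt x y
  ltsuc : ∀ j i, Suc J j i → ∀ x y, lev i x → lev i y →
    (lt x y ↔ (lev j x ∧ lev j y ∧ lt x y) ∨ (lev j x ∧ ¬ lev j y) ∨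
      (¬ lev j x ∧ ¬ lev j y ∧ less Φ E lt (lev j) x y))

/-! ## The native hierarchy -/

section

variable (Φ : ℕ → ℕ → ℕ → ℕ → Prop)

/-- one step of the recursion: level and order at `α` from the levels and orders below `α` -/
noncomputable def stp (α : Ordinal.{0})
    (IH : ∀ β : Ordinal.{0}, β < α → (ZFSet.{0} → Prop) × (ZFSet.{0} → ZFSet.{0} → Prop)) :
    (ZFSet.{0} → Prop) × (ZFSet.{0} → ZFSet.{0} → Prop) :=
  (fun x => x = ∅ ∨ ∃ β, ∃ h : β < α, Df Φ (· ∈ ·) (IH β h).2 (IH β h).1 x,
   fun x y => ∃ β, ∃ h : β < α, (IH β h).2 x y ∨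
    (Df Φ (· ∈ ·) (IH β h).2 (IH β h).1 y ∧ ¬ (IH β h).1 y ∧ ((IH β h).1 x ∨
      (Df Φ (· ∈ ·) (IH β h).2 (IH β h).1 x ∧ ¬ (IH β h).1 x ∧
        less Φ (· ∈ ·) (IH β h).2 (IH β h).1 x y))))

/-- level and order at `α` -/
noncomputable def UR (α : Ordinal.{0}) : (ZFSet.{0} → Prop) × (ZFSet.{0} → ZFSet.{0} → Prop) :=
  Ordinal.lt_wf.fix (stp Φ) α

/-- the level `α` -/
def U (α : Ordinal.{0}) : Set ZFSet.{0} := {x | (UR Φ α).1 x}

/-- the order of the level `α` -/
def Rl (α : Ordinal.{0}) : ZFSet.{0} → ZFSet.{0} → Prop := (UR Φ α).2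

/-- the union of all levels -/
def Lc : Set ZFSet.{0} := {x | ∃ α, x ∈ U Φ α}

/-- the union of the orders -/
def Lt (x y : ZFSet.{0}) : Prop := ∃ α, Rl Φ α x y

end

/-! ## Codes -/

/-- the membership relation coded by `b` -/
def Eb (b : ℕ → Bool) (x y : ℕ) : Prop := b (4 * Nat.pair x y) = true
/-- the order coded by `b` -/
def Lb (b : ℕ → Bool) (x y : ℕ) : Prop := b (4 * Nat.pair x y + 1) = true
/-- the order of the indices coded by `b` -/
def Jb (b : ℕ → Bool) (x y : ℕ) : Prop := b (4 * Nat.pair x y + 2) = true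
/-- the levels coded by `b` -/
def Vb (b : ℕ → Bool) (i x : ℕ) : Prop := b (4 * Nat.pair i x + 3) = true

/-- the parameter coded by `t` -/
def Ph (t : ℕ → Bool) (r a b c : ℕ) : Prop := t (Nat.pair (Nat.pair r a) (Nat.pair b c)) = true

/-- the structure coded by `b` is coherent -/
def Tb (b t : ℕ → Bool) : Prop := Coh (Ph t) (Eb b) (Lb b) (Jb b) (Vb b)

end LGr
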