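import Pool.Agent.LGr.Rows

/-! # The parameter and the rational arithmetic are internal in the ground model

(problem MP_ba5606_gt, ARH Part II, block A; architect helper69)

`M = U (Ph t) δ` with `Ph t = FF T` (`LGr/Par.lean`).

PROOFS. `ip_row` for `r = 0`: `IP M (fun p : ℕ × ℕ × ℕ => FF T 0 p.1 p.2.1 p.2.2)`, and `FF T 0 a b c ↔ RR T (unpair a).1 (unpair a).2 b c`.
* `ipR`: compose with the internal function `(i, a, b, c) ↦ (Nat.pair i a, b, c)` (`IF.npair`; automation `WCal/Simp.lean`: `simp (maxDischargeDepth := 99)`).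
* `ift`: `t n = true` iff `Ph t` holds for the four components of `n` (`Nat.pair_unpair`), iff (`FF`) the first component is `0` and `RR T …`; all components are internal functions of `n` (`IF.unpair1`, `IF.unpair2`). From
  `IP M (fun n => t n = true)` to `IF M t`: two values.
* `std`: the codes of the rational numbers are the codes of the natural numbers `qe q` (`FinA.lean`; `IF` of `qe : ℚ → ℕ` and of `qe.symm` is immediate: the code of `q` is the code of `qe q`, so the graph of `qe` is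
  `{(x, x)}`; see how `ReA.lean`/`FinB.lean` treat it). Then `p.1 < p.2` iff `RR T 0 (qe p.1) (qe p.2) 0`, etc.
* `ipT`: `T i l l' l'' ↔ RR T (i + 5) (encode l) (encode l') (encode l'')` (`Encodable.encode` is injective), `IF.encodeList`. -/

namespace LGr

open STP WCal

variable {T : ℕ → List ℕ → List ℕ → List ℕ → Prop} {t : ℕ → Bool} {δ : Ordinal.{0}}

private theorem if_bool {N : Type*} [WM N] {α : Type*} [WTy N α] {y : α → Bool}
    (h : IP N (fun a => y a = true)) : IF N y := by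
  refine IF.congr (fun a => ?_) (IF.ite h (IF.const true) (IF.const false))
  cases h1 : y a <;> simp

theorem ipR (hδ : Order.IsSuccLimit δ) (ht : Ph t = FF T) [Fact (CPY.Mod (U (Ph t) δ))] :
    IP (U (Ph t) δ) (fun p : ℕ × ℕ × ℕ × ℕ => RR T p.1 p.2.1 p.2.2.1 p.2.2.2) := by
  refine IP.congr (fun p => ?_) (IP.comp (ip_row hδ 0)
    (f := fun p : ℕ × ℕ × ℕ × ℕ => (Nat.pair p.1 p.2.1, p.2.2.1, p.2.2.2))
    (IF.pair (IF.npair IF.fst (IF.comp IF.fst IF.snd)) (IF.comp IF.snd IF.snd)))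
  show Ph t 0 (Nat.pair p.1 p.2.1) p.2.2.1 p.2.2.2 ↔ _
  rw [ht, FF, Nat.unpair_pair]
  exact ⟨fun h => h.2, fun h => ⟨rfl, h⟩⟩

/-- the parameter is an element of the model -/
theorem ift (hδ : Order.IsSuccLimit δ) (ht : Ph t = FF T) [Fact (CPY.Mod (U (Ph t) δ))] :
    IF (U (Ph t) δ) t := by
  refine if_bool (IP.congr (fun n => ?_) (IP.and (IP.eq
    (f := fun n : ℕ => (Nat.unpair (Nat.unpair n).1).1) (g := fun _ => 0)
    (IF.unpair1 (IF.unpair1 IF.id)) (IF.const 0)) (IP.comp (ipR hδ ht)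
    (f := fun n : ℕ => ((Nat.unpair (Nat.unpair (Nat.unpair n).1).2).1,
      (Nat.unpair (Nat.unpair (Nat.unpair n).1).2).2, (Nat.unpair (Nat.unpair n).2).1,
      (Nat.unpair (Nat.unpair n).2).2))
    (IF.pair (IF.unpair1 (IF.unpair2 (IF.unpair1 IF.id)))
      (IF.pair (IF.unpair2 (IF.unpair2 (IF.unpair1 IF.id)))
        (IF.pair (IF.unpair1 (IF.unpair2 IF.id)) (IF.unpair2 (IF.unpair2 IF.id))))))))
  have h1 : t n = true ↔ Ph t (Nat.unpair (Nat.unpair n).1).1 (Nat.unpair (Nat.unpair n).1).2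
      (Nat.unpair (Nat.unpair n).2).1 (Nat.unpair (Nat.unpair n).2).2 := by
    rw [Ph, Nat.pair_unpair, Nat.pair_unpair, Nat.pair_unpair]
  rw [h1, ht, FF]

private theorem if_qe {N : Type*} [WM N] {α : Type*} [WTy N α] {f : α → ℚ} (hf : IF N f) :
    IF N (fun a => qe (f a)) :=
  IF.comp (g := fun q : ℚ => qe q) (IF.of_df (F := fun x => x) (ZU.df_var 0) fun _ => rfl) hf

/-- rational arithmetic -/
theorem std (hδ : Order.IsSuccLimit δ) (ht : Ph t = FF T) [Fact (CPY.Mod (U (Ph t) δ))] :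
    Std (U (Ph t) δ) where
  lt := by
    refine IP.congr (fun p => ?_) (IP.comp (ipR hδ ht)
      (f := fun p : ℚ × ℚ => (0, qe p.1, qe p.2, 0))
      (IF.pair (IF.const 0) (IF.pair (if_qe IF.fst) (IF.pair (if_qe IF.snd) (IF.const 0)))))
    show RR T 0 (qe p.1) (qe p.2) 0 ↔ _
    rw [RR, Equiv.symm_apply_apply, Equiv.symm_apply_apply]
  add := by
    refine IP.congr (fun p => ?_) (IP.comp (ipR hδ ht)
      (f := fun p : (ℚ × ℚ) × ℚ => (1, qe p.1.1, qe p.1.2, qe p.2))
      (IF.pair (IF.const 1) (IF.pair (if_qe (IF.comp IF.fst IF.fst))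
        (IF.pair (if_qe (IF.comp IF.snd IF.fst)) (if_qe IF.snd)))))
    show RR T 1 (qe p.1.1) (qe p.1.2) (qe p.2) ↔ _
    rw [RR, Equiv.symm_apply_apply, Equiv.symm_apply_apply, Equiv.symm_apply_apply]
  mul := by
    refine IP.congr (fun p => ?_) (IP.comp (ipR hδ ht)
      (f := fun p : (ℚ × ℚ) × ℚ => (2, qe p.1.1, qe p.1.2, qe p.2))
      (IF.pair (IF.const 2) (IF.pair (if_qe (IF.comp IF.fst IF.fst))
        (IF.pair (if_qe (IF.comp IF.snd IF.fst)) (if_qe IF.snd)))))
    show RR T 2 (qe p.1.1) (qe p.1.2) (qe p.2) ↔ _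
    rw [RR, Equiv.symm_apply_apply, Equiv.symm_apply_apply, Equiv.symm_apply_apply]
  neg := by
    refine IP.congr (fun p => ?_) (IP.comp (ipR hδ ht)
      (f := fun p : ℚ × ℚ => (3, qe p.1, qe p.2, 0))
      (IF.pair (IF.const 3) (IF.pair (if_qe IF.fst) (IF.pair (if_qe IF.snd) (IF.const 0)))))
    show RR T 3 (qe p.1) (qe p.2) 0 ↔ _
    rw [RR, Equiv.symm_apply_apply, Equiv.symm_apply_apply]
  nat := by
    refine IP.congr (fun p => ?_) (IP.comp (ipR hδ ht)
      (f := fun p : ℕ × ℚ => (4, p.1, qe p.2, 0))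
      (IF.pair (IF.const 4) (IF.pair IF.fst (IF.pair (if_qe IF.snd) (IF.const 0)))))
    show RR T 4 p.1 (qe p.2) 0 ↔ _
    rw [RR, Equiv.symm_apply_apply]

/-- the trees are internal -/
theorem ipT (hδ : Order.IsSuccLimit δ) (ht : Ph t = FF T) [Fact (CPY.Mod (U (Ph t) δ))] (i : ℕ) :
    IP (U (Ph t) δ) (fun p : List ℕ × List ℕ × List ℕ => T i p.1 p.2.1 p.2.2) := by
  refine IP.congr (fun p => ?_) (IP.comp (ipR hδ ht)
    (f := fun p : List ℕ × List ℕ × List ℕ =>
      (i + 5, Encodable.encode p.1, Encodable.encode p.2.1, Encodable.encode p.2.2))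
    (IF.pair (IF.const _) (IF.pair (IF.encodeList IF.fst)
      (IF.pair (IF.encodeList (IF.comp IF.fst IF.snd)) (IF.encodeList (IF.comp IF.snd IF.snd))))))
  show RR T (i + 5) (Encodable.encode p.1) (Encodable.encode p.2.1) (Encodable.encode p.2.2) ↔ _
  rw [RR]
  constructor
  · rintro ⟨l, l', l'', h1, h2, h3, h⟩
    rw [Encodable.encode_injective h1, Encodable.encode_injective h2,
      Encodable.encode_injective h3] at h
    exact h
  · intro h
    exact ⟨_, _, _, rfl, rfl, rfl, h⟩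

end LGr
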