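import Pool.Agent.LGr.Tht
import Pool.Agent.WCal.Wo

/-! # Well-orders of type `ω₁` of a model

(problem MP_ba5606_gt, ARH Part II, block A; architect helper69)

PROOF of `om1_iso`. `exists_mos` (`WCal/Rec.lean`) for `r` (minimal elements of internal sets exist as `r` is well-founded) gives `c : α → W` with `E z (c a) ↔ ∃ b, r b a ∧ z = c b`, and its graph `g`. By induction along `r`: `(c a).1 = (ρ a).toZFSet` for an ordinal `ρ a` (a transitive set of
transitive sets: `isOrd_iff`; `r` is transitive). `c a` is countable in `W`: its elements are the `c b`, `r b a`, and `{b | r b a}` is countable (`hseg`; `Cnt` gives an enumeration `ℕ → α`; compose with `c`; `ctb_of_enum` / `ZU.ctb_of_om` for the set `c a`; if `{b | r b a}` is empty then `c a` is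
empty), so `ρ a < θ` (`lt_of_ctb`). Every `β < θ` is `ρ a` for some `a`: otherwise (the values of `ρ` form an initial segment) all `ρ a < β`, so `c` is an injective (`r` linear, no cycles) internal function from `α` to `El β.toZFSet`, which is countable, so `α` would be countable (`Cnt.image` of the inverse, or:
choose for each element of the range its preimage; `Cnt` of the domain of an injective internal function into a countable type). So `a ↦ ⟨c a, _⟩ : El θ.toZFSet` is an internal bijection (the graph is given by `g`), take the inverse (`IF.inv`). -/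

universe v

namespace LGr

open STP WCal

variable {W : Set ZFSet.{0}} [hW : Fact (CPY.Mod W)]

private theorem nt_eqZ {N : Type*} [WM N] (n : ℕ) : WCal.nt N n = ZU.nt n := by
  induction n with
  | zero => exact emp_eq
  | succ n ih =>
    refine ZU.ext fun z => ?_
    rw [ZU.nt_succ, ZU.mem_sc, ← ih]
    exact E_sc

theorem om1_iso {θ : Ordinal.{0}} (hθ : IsTht W θ) {α : Type v} [WTy W α] {r : α → α → Prop}
    (hr : IP W (fun p : α × α => r p.1 p.2)) (hwo : SWO r)
    (hseg : ∀ (a : α) (I : St W α), (∀ b ∈ I, r b a) → Cnt I) (hu : ∀ S : St W α, (∀ a, a ∈ S) → ¬ Cnt S) :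
    ∃ c : El (⟨θ.toZFSet, hθ.mem⟩ : W) → α, IF W c ∧ Function.Bijective c := by
  classical
  obtain ⟨c, hc, g, hg⟩ := exists_mos hr (fun S hS => by
    obtain ⟨a, ha, hmin⟩ := hwo.wf.has_min {a | a ∈ S} hS
    exact ⟨a, ha, fun b hb => hmin b hb⟩)
  -- the graph of the collapse
  have hgc : ∀ x y : W, ZU.op x y ∈ g ↔ ∃ a : α, x = cd W a ∧ y = c a := by
    intro x y
    refine (hg (ZU.op x y)).trans (exists_congr fun a => ?_)
    rw [op_eq, ZU.op_inj]
  have hinj : ∀ a b, c a = c b → a = b := by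
    intro a b hab
    rcases hwo.lin a b with h1 | h1 | h1
    · exact absurd ((hc b (c a)).2 ⟨a, h1, rfl⟩) (by rw [hab]; exact E_irrefl _)
    · exact h1
    · exact absurd ((hc a (c b)).2 ⟨b, h1, rfl⟩) (by rw [hab]; exact E_irrefl _)
  have htr : ∀ a, ZU.Tr (c a) := by
    intro a y hy z hz
    obtain ⟨b, hb, rfl⟩ := (hc a y).1 hy
    obtain ⟨d, hd, rfl⟩ := (hc b z).1 hz
    exact (hc a _).2 ⟨d, hwo.tr _ _ _ hd hb, rfl⟩
  have hord : ∀ a, ∃ ρ : Ordinal.{0}, (c a).1 = ρ.toZFSet := by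
    intro a
    refine isOrd_iff.1 ⟨htr a, fun y hy => ?_⟩
    obtain ⟨b, -, rfl⟩ := (hc a y).1 hy
    exact htr b
  choose ρ hρ using hord
  have hap : ∀ a, ZU.ap g (cd W a) = c a := by
    intro a
    refine ZU.the_eq ((hgc _ _).2 ⟨a, rfl, rfl⟩) fun z hz => ?_
    obtain ⟨b, h1, h2⟩ := (hgc _ _).1 hz
    rw [h2, cd_inj.1 h1]
  have hctb : ∀ a, ZU.Ctb (c a) := by
    intro a
    have hI : IP W (fun b => b ∈ {b | r b a}) := hr.sec' a
    rcases hseg a ⟨{b | r b a}, hI⟩ fun b hb => hb with h | ⟨e, he⟩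
    · refine ZU.ctb_em.sub fun z hz => ?_
      obtain ⟨b, hb, -⟩ := (hc a z).1 hz
      exact absurd hb (h b)
    · obtain ⟨F, hF, h1⟩ := df_if e.int
      refine ZU.ctb_of_om (F := fun n => ZU.ap g (F n)) (ZU.df_ap (ZU.df_const g) hF) fun z hz => ?_
      obtain ⟨b, hb, rfl⟩ := (hc a z).1 hz
      obtain ⟨n, rfl⟩ := he b hb
      refine ⟨n, ?_⟩
      have h2 : F (ZU.nt n) = cd W (e n) := by
        rw [← h1 n]
        exact congrArg F (nt_eqZ n).symm
      rw [h2, hap]
  have hlt : ∀ a, ρ a < θ := by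
    intro a
    have h1 : (ρ a).toZFSet ∈ W := by
      rw [← hρ a]
      exact (c a).2
    refine hθ.lt_of_ctb h1 ?_
    have h2 : (⟨(ρ a).toZFSet, h1⟩ : W) = c a := Subtype.ext (hρ a).symm
    rw [h2]
    exact hctb a
  have hdown : ∀ a β, β < ρ a → ∃ b, ρ b = β := by
    intro a β hβ
    have h1 : β.toZFSet ∈ (c a).1 := by
      rw [hρ a]
      exact Ordinal.toZFSet_mem_toZFSet_iff.2 hβ
    have h2 : β.toZFSet ∈ W := hW.out.trans _ (c a).2 _ h1
    obtain ⟨b, -, hb⟩ := (hc a ⟨β.toZFSet, h2⟩).1 h1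
    refine ⟨b, ?_⟩
    have h3 : β.toZFSet = (ρ b).toZFSet := by
      rw [← hρ b, ← hb]
    exact (Ordinal.toZFSet_injective h3).symm
  have hne : Nonempty α := by
    by_contra hne
    rw [not_nonempty_iff] at hne
    exact hu ⟨Set.univ, IP.const True⟩ (fun a => trivial) (Or.inl fun a => hne.elim a)
  obtain ⟨a0⟩ := hne
  have hsurj : ∀ β, β < θ → ∃ a, ρ a = β := by
    intro β hβ
    by_contra hcon
    push Not at hcon
    have h1 : ∀ a, ρ a < β := by
      intro a
      rcases lt_trichotomy (ρ a) β with h | h | h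
      · exact h
      · exact absurd h (hcon a)
      · obtain ⟨b, hb⟩ := hdown a β h
        exact absurd hb (hcon b)
    have hB := hθ.cnt hβ
    obtain ⟨f, hf, hBf⟩ := hB
    -- an enumeration of `α`
    let e : ℕ → α := fun n => if h : ∃ a : α, c a = ZU.ap f (ZU.nt n) then h.choose else a0
    have he : ∀ n a, e n = a ↔ ZU.op (cd W a) (ZU.ap f (cd W n)) ∈ g ∨
        ((¬ ∃ y, ZU.op y (ZU.ap f (cd W n)) ∈ g) ∧ cd W a = cd W a0) := by
      intro n a
      have hn : cd W n = ZU.nt n := nt_eqZ n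
      rw [hn]
      by_cases h : ∃ a : α, c a = ZU.ap f (ZU.nt n)
      · have h1 : e n = h.choose := dif_pos h
        rw [h1]
        constructor
        · rintro rfl
          exact Or.inl ((hgc _ _).2 ⟨_, rfl, h.choose_spec.symm⟩)
        · rintro (h2 | ⟨h2, -⟩)
          · obtain ⟨b, h3, h4⟩ := (hgc _ _).1 h2
            rw [cd_inj.1 h3]
            exact hinj _ _ (h.choose_spec.trans h4)
          · exact absurd ⟨_, (hgc _ _).2 ⟨_, rfl, h.choose_spec.symm⟩⟩ h2
      · have h1 : e n = a0 := dif_neg h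
        rw [h1]
        constructor
        · rintro rfl
          refine Or.inr ⟨?_, rfl⟩
          rintro ⟨y, hy⟩
          obtain ⟨b, -, h4⟩ := (hgc _ _).1 hy
          exact h ⟨b, h4.symm⟩
        · rintro (h2 | ⟨-, h2⟩)
          · obtain ⟨b, -, h4⟩ := (hgc _ _).1 h2
            exact absurd ⟨b, h4.symm⟩ h
          · exact (cd_inj.1 h2).symm
    have hei : IF W e := by
      refine IP.of_dfn2 (Q := fun n y => ZU.op y (ZU.ap f n) ∈ g ∨
        ((¬ ∃ z, ZU.op z (ZU.ap f n) ∈ g) ∧ y = cd W a0)) ?_ fun n a => he n a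
      simp (maxDischargeDepth := 99) [-Subtype.forall, -Subtype.exists]
    refine hu ⟨Set.univ, IP.const True⟩ (fun a => trivial) (Cnt.range hei fun a _ => ?_)
    have h2 : c a ∈ (⟨β.toZFSet, hθ.lt_mem hβ⟩ : W) := by
      show (c a).1 ∈ β.toZFSet
      rw [hρ a]
      exact Ordinal.toZFSet_mem_toZFSet_iff.2 (h1 a)
    obtain ⟨m, hm, h3⟩ := hf.mem_rg.1 (hBf _ h2)
    obtain ⟨n, rfl⟩ := ZU.mem_om.1 hm
    refine ⟨n, (he n a).2 (Or.inl ?_)⟩
    have hn : cd W n = ZU.nt n := nt_eqZ n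
    rw [hn, ← h3]
    exact (hgc _ _).2 ⟨a, rfl, rfl⟩
  -- the inverse of the collapse
  have hz : ∀ z : El (⟨θ.toZFSet, hθ.mem⟩ : W), ∃ a, c a = z.v := by
    intro z
    have h1 : z.v.1 ∈ θ.toZFSet := z.h
    obtain ⟨β, hβ, h2⟩ := Ordinal.mem_toZFSet_iff.1 h1
    obtain ⟨a, rfl⟩ := hsurj β hβ
    exact ⟨a, Subtype.ext ((hρ a).trans h2)⟩
  choose d hd using hz
  refine ⟨d, ?_, ?_, ?_⟩
  · refine IP.of_dfn2 (Q := fun z y => ZU.op y z ∈ g) ?_ fun z a => ?_
    · simp (maxDischargeDepth := 99) [-Subtype.forall, -Subtype.exists]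
    · show d z = a ↔ ZU.op (cd W a) z.v ∈ g
      rw [hgc]
      constructor
      · rintro rfl
        exact ⟨_, rfl, (hd z).symm⟩
      · rintro ⟨b, h1, h2⟩
        rw [cd_inj.1 h1]
        exact hinj _ _ ((hd z).trans h2)
  · intro z w hzw
    refine El.ext ?_
    rw [← hd z, ← hd w, hzw]
  · intro a
    have h1 : (c a).1 ∈ θ.toZFSet := by
      rw [hρ a]
      exact Ordinal.toZFSet_mem_toZFSet_iff.2 (hlt a)
    refine ⟨⟨c a, h1⟩, hinj _ _ ?_⟩
    rw [hd]

end LGr
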