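import Pool.Agent.LGr.Nw
import Pool.Agent.LGr.Om1

/-! # The reals of `U θ` have an enumeration of length `θ` in the ground model

(problem MP_ba5606_gt, ARH Part II, block A; architect helper69)

PROOF of `exists_c`. Internal subsets of `ℕ` (type `St M ℕ`): the code of `S` is the set `{zn n | n ∈ S}` (`cd_st`, `nt_val`), i.e. `rz` of the indicator function. Let `A : St M (St M ℕ)` be the set of all `S` with code in `U (Ph t) θ` (internal: the set `uz (Ph t) θ`, `uz_mem'`; `θ < δ` by `ord_mem`), type `Sb A`.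
Order: `r S S'` iff `Lt (Ph t) (code S) (code S')`: internal by `ip_Lt` for `u = v = uz θ` (the code of an element of `Sb A` is the code of the element of `El u`, so the map `Sb A → El u` is internal); `SWO r`: `Wol.lean` (the canonical order is a well-order on `Lc`).
Initial segments: let `a : Sb A`, its code is in `U (Ph t) β` for some `β < θ` (`U_lim`, `IsTht.lim`). If `r b a` then the code of `b` is in `U (Ph t) β` (`Lt_iff`, `Rl_mem`). `uz β` is countable (`level_ctb`), hence every internal `I` with `r b a` for all `b ∈ I` is countable (`ctb_iff`, `Cnt.image` / injectivity; or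
`Cnt` via an enumeration of `uz β` composed with a function `El (uz β) → Sb A`, `z ↦ {n | zn n ∈ z}`).
`Sb A` is not countable: an internal enumeration gives an internal `x : ℕ → ℕ → Bool` which enumerates all reals `y` with `rz y ∈ U (Ph t) θ` (every such `y` is internal: `rz_mem`); `exists_new` gives `b`, `y` with `Rb b y`, `y ≠ x n` for all `n`; but `rz y ∈ U (Ph t) θ` by `A1_real`. Contradiction.
`om1_iso` gives `c0 : El θ → Sb A`; `c a n := decide (n ∈ (c0 a).v)` (`IF.ite`, `IP.mem`). -/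

namespace LGr

open STP WCal

variable {T : ℕ → List ℕ → List ℕ → List ℕ → Prop} {t : ℕ → Bool} {δ : Ordinal.{0}}
  [hM : Fact (CPY.Mod (U (Ph t) δ))]

private theorem cc_eq {N : Type*} [WM N] {α : Type*} {β : Type*} [WTy N α] [WTy N β] :
    IP N (fun p : α × β => cd N p.1 = cd N p.2) := by
  refine IP.of_sat (Fml.ex (fOP 1 0 0)) (fun _ => rg N α) fun p => ?_
  simp only [sat_ex, sat_fOP, cns_zero, cns_one, isOP_iff]
  change cd N p.1 = cd N p.2 ↔ ∃ x, op (cd N p.1) (cd N p.2) = op x x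
  constructor
  · intro h
    exact ⟨cd N p.2, by rw [h]⟩
  · rintro ⟨x, hx⟩
    obtain ⟨h1, h2⟩ := op_inj.1 hx
    exact h1.trans h2.symm

private theorem cc_mem {N : Type*} [WM N] {α : Type*} {β : Type*} [WTy N α] [WTy N β] :
    IP N (fun p : α × β => WM.E (cd N p.1) (cd N p.2)) := by
  refine IP.of_sat (Fml.ex (Fml.ex (Fml.an (fOP 2 1 0) (.mem 1 0)))) (fun _ => rg N α) fun p => ?_
  simp only [sat_ex, sat_an, sat_mem, sat_fOP, cns_zero, cns_one, cns_two, isOP_iff]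
  change WM.E (cd N p.1) (cd N p.2) ↔ ∃ x y, op (cd N p.1) (cd N p.2) = op x y ∧ WM.E x y
  constructor
  · intro h
    exact ⟨cd N p.1, cd N p.2, rfl, h⟩
  · rintro ⟨x, y, hx, h⟩
    obtain ⟨h1, h2⟩ := op_inj.1 hx
    rw [h1, h2]
    exact h

private theorem cc_sub {N : Type*} [WM N] {α : Type*} [WTy N α] :
    IP N (fun p : α => ∀ w, WM.E w (cd N p) → WM.E w (om N)) := by
  refine IP.of_sat (Fml.all (Fml.imp (.mem 0 1) (.mem 0 2))) (fun _ => om N) fun p => ?_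
  simp only [sat_all, sat_imp, sat_mem]
  exact Iff.rfl

/-- the real of a set of natural numbers -/
private noncomputable def cr (z : ZFSet.{0}) (n : ℕ) : Bool := by
  classical exact decide (zn n ∈ z)

private theorem cr_iff {z : ZFSet.{0}} {n : ℕ} : cr z n = true ↔ zn n ∈ z := by
  classical
  unfold cr
  exact decide_eq_true_iff

private theorem cr_rz (y : ℕ → Bool) : cr (rz y) = y := by
  funext n
  rw [Bool.eq_iff_iff, cr_iff, mem_rz]
  constructor
  · rintro ⟨m, hm, h⟩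
    rwa [zn_inj h]
  · intro h
    exact ⟨n, h, rfl⟩

private theorem rz_cr {z : ZFSet.{0}} (h : ∀ w ∈ z, ∃ n, w = zn n) : rz (cr z) = z := by
  apply ZFSet.ext
  intro w
  rw [mem_rz]
  constructor
  · rintro ⟨n, hn, rfl⟩
    exact cr_iff.1 hn
  · intro hw
    obtain ⟨n, rfl⟩ := h w hw
    exact ⟨n, cr_iff.2 hw, rfl⟩

private theorem cr_int {W : Set ZFSet.{0}} [hW : Fact (CPY.Mod W)] {α : Type*} [WTy W α] {f : α → ZFSet.{0}}
    (hf : IP W (fun p : α × ℕ => zn p.2 ∈ f p.1)) : IF W (fun p : α × ℕ => cr (f p.1) p.2) := by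
  have h := IF.ite (N := W) hf (IF.const true) (IF.const false)
  refine IF.congr (fun p => ?_) h
  by_cases hp : zn p.2 ∈ f p.1
  · simp only [hp, if_true]
    exact (cr_iff.2 hp).symm
  · simp only [hp, if_false]
    cases h0 : cr (f p.1) p.2
    · rfl
    · exact absurd (cr_iff.1 h0) hp

theorem exists_c (hG : GMod T t δ) {θ : Ordinal.{0}} (hθ : IsTht (U (Ph t) δ) θ) :
    ∃ c : El (⟨θ.toZFSet, hθ.mem⟩ : U (Ph t) δ) → ℕ → Bool,
      IF (U (Ph t) δ) (fun p : El (⟨θ.toZFSet, hθ.mem⟩ : U (Ph t) δ) × ℕ => c p.1 p.2) ∧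
      Function.Injective c ∧ ∀ y, (∃ a, c a = y) ↔ rz y ∈ U (Ph t) θ := by
  have hθδ : θ < δ := (ord_mem hG.lim).1 hθ.mem
  let u : (U (Ph t) δ : Set ZFSet.{0}) := ⟨uz (Ph t) θ, uz_mem' hG.lim hθδ⟩
  let A : St (U (Ph t) δ) (El u) := ⟨{z | ∀ w, WM.E w z.v → WM.E w (om (U (Ph t) δ))}, cc_sub⟩
  have hAz : ∀ (a : Sb A), ∀ w ∈ a.v.v.1, ∃ n, w = zn n := by
    intro a w hw
    have hwM : w ∈ U (Ph t) δ := hM.out.trans _ a.v.v.2 _ hw
    have h1 : WM.E (⟨w, hwM⟩ : U (Ph t) δ) (om (U (Ph t) δ)) := a.h ⟨w, hwM⟩ hw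
    exact (om_val (W := U (Ph t) δ) w).1 h1
  have hAU : ∀ (a : Sb A), a.v.v.1 ∈ U (Ph t) θ := fun a => (mem_uz (Ph t)).1 a.v.h
  have hext : ∀ a b : Sb A, a.v.v.1 = b.v.v.1 → a = b := fun a b h => Sb.ext (El.ext (Subtype.ext h))
  have hmk : ∀ y, rz y ∈ U (Ph t) θ → ∃ a : Sb A, a.v.v.1 = rz y := by
    intro y hy
    refine ⟨⟨⟨⟨rz y, U_mono (Ph t) hθδ.le hy⟩, (mem_uz (Ph t)).2 hy⟩, ?_⟩, rfl⟩
    intro w hw
    obtain ⟨n, -, hn⟩ := mem_rz.1 (show w.1 ∈ rz y from hw)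
    exact (om_val (W := U (Ph t) δ) w.1).2 ⟨n, hn⟩
  have hmem : IP (U (Ph t) δ) (fun p : Sb A × ℕ => zn p.2 ∈ p.1.v.v.1) := by
    refine IP.congr (fun p => ?_) (IP.sw (cc_mem (N := U (Ph t) δ) (α := ℕ) (β := Sb A)))
    show (nt (U (Ph t) δ) p.2).1 ∈ p.1.v.v.1 ↔ _
    rw [nt_val]
  -- the order
  let r : Sb A → Sb A → Prop := fun a b => Lt (Ph t) a.v.v.1 b.v.v.1
  have hr : IP (U (Ph t) δ) (fun p : Sb A × Sb A => r p.1 p.2) :=
    IP.comp (P := fun p : El u × El u => Lt (Ph t) p.1.v.1 p.2.v.1)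
      (f := fun p : Sb A × Sb A => (p.1.v, p.2.v)) (ip_Lt hG.lim u u)
      (IF.pair (IF.val' IF.fst) (IF.val' IF.snd))
  have hwo : SWO r :=
    ⟨fun a b c h h' => Lt_tr (Ph t) h h',
      fun a b => by
        rcases Lt_lin (Ph t) (x := a.v.v.1) (y := b.v.v.1) ⟨θ, hAU a⟩ ⟨θ, hAU b⟩ with h | h | h
        · exact Or.inl h
        · exact Or.inr (Or.inl (hext a b h))
        · exact Or.inr (Or.inr h),
      InvImage.wf (fun a : Sb A => a.v.v.1) (Lt_wf (Ph t))⟩
  have hseg : ∀ (a : Sb A) (I : St (U (Ph t) δ) (Sb A)), (∀ b ∈ I, r b a) → Cnt I := by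
    intro a I hI
    by_cases hne : ∃ b, b ∈ I
    swap
    · exact Or.inl fun b hb => hne ⟨b, hb⟩
    obtain ⟨b0, hb0⟩ := hne
    obtain ⟨β, hβ, haβ⟩ := (U_lim (Ph t) hθ.lim).1 (hAU a)
    have hu' : uz (Ph t) β ∈ U (Ph t) δ := uz_mem' hG.lim (hβ.trans hθδ)
    have hc := ctb_iff.1 (level_ctb hG hθ hβ hu')
    obtain ⟨f, hf, hf'⟩ := choice' (N := U (Ph t) δ)
      (P := fun (a : El (⟨uz (Ph t) β, hu'⟩ : U (Ph t) δ)) (b : Sb A) =>
        cd (U (Ph t) δ) a = cd (U (Ph t) δ) b) cc_eq b0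
    refine Cnt.image hf (hc ⟨Set.univ, IP.const True⟩) fun b hb => ?_
    have hbβ : b.v.v.1 ∈ U (Ph t) β := (Rl_mem (Ph t) ((Lt_iff (Ph t) haβ).1 (hI b hb))).1
    refine ⟨⟨b.v.v, (mem_uz (Ph t)).2 hbβ⟩, trivial, ?_⟩
    have h1 := hf' ⟨b.v.v, (mem_uz (Ph t)).2 hbβ⟩ ⟨b, rfl⟩
    exact hext _ _ (congrArg Subtype.val h1).symm
  have hun : ∀ S : St (U (Ph t) δ) (Sb A), (∀ a, a ∈ S) → ¬ Cnt S := by
    rintro S hS (h | ⟨e, he⟩)
    · obtain ⟨a, -⟩ := hmk (fun _ => false) (by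
        have h0 : rz (fun _ => false) = ∅ := by
          apply ZFSet.ext
          intro w
          rw [mem_rz]
          constructor
          · rintro ⟨n, hn, -⟩
            exact absurd hn Bool.false_ne_true
          · intro hw
            exact absurd hw (ZFSet.notMem_empty _)
        rw [h0]
        exact empty_mem_U (Ph t) θ)
      exact h a (hS a)
    · have hx : IF (U (Ph t) δ) (fun p : ℕ × ℕ => cr (e p.1).v.v.1 p.2) := by
        refine cr_int (f := fun n : ℕ => (e n).v.v.1) ?_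
        exact IP.comp hmem (IF.pair (IF.comp e.int IF.fst) IF.snd)
      obtain ⟨b, y, hb, hT, hw, hy, hne⟩ := exists_new hG (x := fun n k => cr (e n).v.v.1 k) hx
      have hyU := A1_real hθ hb hT hw hy
      obtain ⟨a, ha⟩ := hmk y hyU
      obtain ⟨n, rfl⟩ := he a (hS a)
      refine hne n ?_
      show cr (e n).v.v.1 = y
      rw [ha, cr_rz]
  obtain ⟨c0, hc0, hbij⟩ := om1_iso hθ hr hwo hseg hun
  refine ⟨fun a => cr (c0 a).v.v.1, ?_, ?_, ?_⟩
  · refine cr_int (f := fun a => (c0 a).v.v.1) ?_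
    exact IP.comp hmem (IF.pair (IF.comp hc0 IF.fst) IF.snd)
  · intro a b h
    apply hbij.1
    apply hext
    have h1 : rz (cr (c0 a).v.v.1) = rz (cr (c0 b).v.v.1) := congrArg rz h
    rwa [rz_cr (hAz (c0 a)), rz_cr (hAz (c0 b))] at h1
  · intro y
    constructor
    · rintro ⟨a, rfl⟩
      rw [rz_cr (hAz (c0 a))]
      exact hAU (c0 a)
    · intro hy
      obtain ⟨a, ha⟩ := hmk y hy
      obtain ⟨d, rfl⟩ := hbij.2 a
      refine ⟨d, ?_⟩
      show cr (c0 d).v.v.1 = y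
      rw [ha, cr_rz]

end LGr
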