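import Pool.Agent.LGr.Par
import Pool.Agent.CPY.D.Mtb

/-! # Borel conditions on codes

(problem MP_ba5606_gt, ARH Part II, block A; helper79; no sorry in this file)

The sets `B1`, `B2` of `LGr/Par.lean` and the relation `RbM` are Borel. -/

set_option autoImplicit false

namespace LGr

open WCal

variable {X : Type*} [MeasurableSpace X]

/-- a coordinate of a code -/
theorem mea_app {f : X → ℕ → Bool} (hf : Measurable f) (n : ℕ) :
    Measurable fun x => f x n = true := by
  have h : Measurable fun c : Bool => c = true := measurable_of_countable _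
  exact h.comp ((measurable_pi_apply n).comp hf)

theorem mea_Eb {f : X → ℕ → Bool} (hf : Measurable f) (x y : ℕ) :
    Measurable fun p => Eb (f p) x y := mea_app hf _

theorem mea_Jb {f : X → ℕ → Bool} (hf : Measurable f) (x y : ℕ) :
    Measurable fun p => Jb (f p) x y := mea_app hf _

theorem mea_num {f : X → ℕ → Bool} (hf : Measurable f) (n z : ℕ) :
    Measurable fun p => isNum (Eb (f p)) n z := (CPYD.mea_isNum n z).comp hf

theorem mea_T {f g : X → ℕ → Bool} (hf : Measurable f) (hg : Measurable g) :
    Measurable fun p => Tb (f p) (g p) :=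
  (measurableSet_setOfPred.1 CPYD.mea_Tb).comp (hf.prodMk hg)

theorem mea_RbM' {f g : X → ℕ → Bool} (hf : Measurable f) (hg : Measurable g) (m : ℕ) :
    Measurable fun p => RbM (f p) m (g p) := by
  unfold RbM
  refine Measurable.and (Measurable.forall fun z => (mea_Eb hf z m).imp
    (Measurable.exists fun n => mea_num hf n z)) (Measurable.forall fun n => (mea_app hg n).iff
    (Measurable.exists fun z => (mea_Eb hf z m).and (mea_num hf n z)))

theorem mea_Rb {f g : X → ℕ → Bool} (hf : Measurable f) (hg : Measurable g) :
    Measurable fun p => Rb (f p) (g p) :=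
  Measurable.exists fun m => mea_RbM' hf hg m

theorem mea_dc {f : X → ℕ → ℕ} (hf : Measurable f) (k : ℕ) : Measurable fun p => dc k (f p) := by
  rw [measurable_pi_iff]
  intro n
  have h : Measurable fun c : ℕ => decide (c = 1) := measurable_of_countable _
  exact h.comp ((measurable_pi_apply _).comp hf)

theorem mea_ne {f g : X → ℕ → Bool} (hf : Measurable f) (hg : Measurable g) :
    Measurable fun p => f p ≠ g p := by
  have h : (fun p => f p ≠ g p) = fun p => ∃ n, ¬ (f p n = true ↔ g p n = true) := by
    funext p
    simp only [ne_eq, funext_iff, not_forall, Bool.coe_iff_coe]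
  rw [h]
  exact Measurable.exists fun n => ((mea_app hf n).iff (mea_app hg n)).not

theorem meas_Tb : MeasurableSet {p : (ℕ → Bool) × (ℕ → Bool) | Tb p.1 p.2} := CPYD.mea_Tb

theorem meas_RbM :
    MeasurableSet {p : (ℕ → Bool) × ℕ × (ℕ → Bool) | RbM p.1 p.2.1 p.2.2} := by
  have h : {p : (ℕ → Bool) × ℕ × (ℕ → Bool) | RbM p.1 p.2.1 p.2.2} =
      {p | ∃ m, p.2.1 = m ∧ RbM p.1 m p.2.2} := by
    ext p
    simp
  rw [h]
  refine measurableSet_setOfPred.2 (Measurable.exists fun m => Measurable.and ?_
    (mea_RbM' measurable_fst (measurable_snd.comp measurable_snd) m))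
  have h : Measurable fun c : ℕ => c = m := measurable_of_countable _
  exact h.comp (measurable_fst.comp measurable_snd)

theorem meas_B1 : MeasurableSet B1 := by
  refine measurableSet_setOfPred.2 (Measurable.and (mea_T (mea_dc measurable_fst 0)
    (mea_dc measurable_snd 0)) (Measurable.forall fun i => Measurable.forall fun k =>
    (mea_Jb (mea_dc measurable_fst 0) i k).iff (mea_app (mea_dc measurable_snd 1) _)))

theorem meas_B2 : MeasurableSet B2 := by
  refine measurableSet_setOfPred.2 (Measurable.and (mea_T (mea_dc measurable_fst 0)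
    (mea_dc measurable_snd 0)) (Measurable.and (mea_Rb (mea_dc measurable_fst 0)
    (mea_dc measurable_fst 1)) (Measurable.forall fun n =>
    mea_ne (mea_dc measurable_fst 1) (mea_dc measurable_snd (n + 1)))))

end LGr
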