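import Pool.Agent.LGr.Hier

/-! # The order `Lt` is a well-order

(problem MP_ba5606_gt, ARH Part II, block A; architect helper69)

PROOFS.
* `enc_inj`: by cases and induction (values modulo 7, `Nat.pair` injective).
* `klt_wf`, `klt_lin`, `klt_tr`: for a strict well-order `lt` on `D` the order `klt` is a strict
  linear well-founded order on the keys with parameters in `D`
  (`List.Shortlex.wf` for the restricted relation `fun x y => D x ∧ D y ∧ lt x y`,
  `Prod.Lex`/`enc` first; transitivity and trichotomy of `List.Lex` for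
  lists of the same length).
* `less` is then a strict linear order on the definable subsets (compare the least keys): `less x
  y` iff the least key of `x` is less than the least key of `y`
  (different definable sets have different keys: a key determines the set it defines, by
  extensionality).
* `Lt_tr`, `Lt_irr`, `Lt_lin` on every level `U Φ α`, and well-foundedness: induction on `α` with
  `Lt_succ` (old elements before new elements; new elements
  by least keys), unions at limits (`Rl_end`: end extension). For well-foundedness of `Lt` (all of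
  `Lc`): a nonempty set of elements: take the least stage, there the least key.-/

universe u

namespace LGr

open STP

private theorem lex_mono {S : Type u} {lt : S → S → Prop} {D : S → Prop} {l l' : List S}
    (h : List.Lex lt l l') : (∀ y ∈ l, D y) → (∀ y ∈ l', D y) →
      List.Lex (fun x y => D x ∧ D y ∧ lt x y) l l' := by
  induction h with
  | nil => exact fun _ _ => .nil
  | cons h ih =>
    exact fun h1 h2 => .cons (ih (fun y hy => h1 y (List.mem_cons_of_mem _ hy))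
      fun y hy => h2 y (List.mem_cons_of_mem _ hy))
  | rel h =>
    exact fun h1 h2 => .rel ⟨h1 _ List.mem_cons_self, h2 _ List.mem_cons_self, h⟩

private theorem lex_tr {S : Type u} {lt : S → S → Prop} {D : S → Prop}
    (h : ∀ x y z, D x → D y → D z → lt x y → lt y z → lt x z) {l l' : List S}
    (h1 : List.Lex lt l l') : ∀ l'' : List S, (∀ y ∈ l, D y) → (∀ y ∈ l', D y) →
      (∀ y ∈ l'', D y) → List.Lex lt l' l'' → List.Lex lt l l'' := by
  induction h1 with
  | nil =>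
    intro l'' _ _ _ h2
    cases h2 with
    | cons _ => exact .nil
    | rel _ => exact .nil
  | cons h1 ih =>
    intro l'' d1 d2 d3 h2
    cases h2 with
    | cons h2 =>
      exact .cons (ih _ (fun y hy => d1 y (List.mem_cons_of_mem _ hy))
        (fun y hy => d2 y (List.mem_cons_of_mem _ hy))
        (fun y hy => d3 y (List.mem_cons_of_mem _ hy)) h2)
    | rel h2 => exact .rel h2
  | rel h1 =>
    intro l'' d1 d2 d3 h2
    cases h2 with
    | cons _ => exact .rel h1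
    | rel h2 =>
      exact .rel (h _ _ _ (d1 _ List.mem_cons_self) (d2 _ List.mem_cons_self)
        (d3 _ List.mem_cons_self) h1 h2)

private theorem lex_irr {S : Type u} {lt : S → S → Prop} {D : S → Prop}
    (h : ∀ x, D x → ¬ lt x x) (l : List S) : (∀ y ∈ l, D y) → ¬ List.Lex lt l l := by
  induction l with
  | nil =>
    intro _ h1
    cases h1
  | cons a l ih =>
    intro d h1
    cases h1 with
    | cons h1 => exact ih (fun y hy => d y (List.mem_cons_of_mem _ hy)) h1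
    | rel h1 => exact h a (d a List.mem_cons_self) h1

private theorem lex_lin {S : Type u} {lt : S → S → Prop} {D : S → Prop}
    (h : ∀ x y, D x → D y → lt x y ∨ x = y ∨ lt y x) (l : List S) : ∀ l' : List S,
      l.length = l'.length → (∀ y ∈ l, D y) → (∀ y ∈ l', D y) →
      List.Lex lt l l' ∨ l = l' ∨ List.Lex lt l' l := by
  induction l with
  | nil =>
    intro l' hl _ _
    have h1 : l' = [] := List.length_eq_zero_iff.1 hl.symm
    exact Or.inr (Or.inl h1.symm)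
  | cons a l ih =>
    intro l' hl d1 d2
    cases l' with
    | nil => simp at hl
    | cons b l' =>
      rcases h a b (d1 a List.mem_cons_self) (d2 b List.mem_cons_self) with h1 | rfl | h1
      · exact Or.inl (.rel h1)
      · have hl' : l.length = l'.length := by simpa using hl
        rcases ih l' hl' (fun y hy => d1 y (List.mem_cons_of_mem _ hy))
          (fun y hy => d2 y (List.mem_cons_of_mem _ hy)) with h2 | rfl | h2
        · exact Or.inl (.cons h2)
        · exact Or.inr (Or.inl rfl)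
        · exact Or.inr (Or.inr (.cons h2))
      · exact Or.inr (Or.inr (.rel h1))

private theorem ok_list {S : Type u} {D : S → Prop} {k : Key S} (h : k.ok D) :
    ∀ y ∈ k.a :: k.l, D y := by
  intro y hy
  rcases List.mem_cons.1 hy with rfl | hy
  · exact h.1
  · exact h.2 y hy

theorem enc_inj : Function.Injective enc := by
  have h7 : ∀ {a b : ℕ} (c : ℕ), 7 * a + c = 7 * b + c → a = b := by
    intro a b c h
    omega
  have key : ∀ φ ψ : LF, enc φ = enc ψ → φ = ψ := by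
    intro φ
    induction φ with
    | mem i j =>
      intro ψ h
      cases ψ <;> simp only [enc] at h <;> try omega
      have h1 := Nat.pair_eq_pair.1 (h7 0 h)
      rw [h1.1, h1.2]
    | eq i j =>
      intro ψ h
      cases ψ <;> simp only [enc] at h <;> try omega
      have h1 := Nat.pair_eq_pair.1 (h7 1 h)
      rw [h1.1, h1.2]
    | lt i j =>
      intro ψ h
      cases ψ <;> simp only [enc] at h <;> try omega
      have h1 := Nat.pair_eq_pair.1 (h7 2 h)
      rw [h1.1, h1.2]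
    | tp r i j k =>
      intro ψ h
      cases ψ <;> simp only [enc] at h <;> try omega
      have h1 := Nat.pair_eq_pair.1 (h7 3 h)
      have h2 := Nat.pair_eq_pair.1 h1.1
      have h3 := Nat.pair_eq_pair.1 h1.2
      rw [h2.1, h2.2, h3.1, h3.2]
    | bot =>
      intro ψ h
      cases ψ <;> simp only [enc] at h <;> first | rfl | omega
    | imp φ ψ h1 h2 =>
      intro χ h
      cases χ <;> simp only [enc] at h <;> try omega
      have h3 := Nat.pair_eq_pair.1 (h7 5 h)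
      rw [h1 _ h3.1, h2 _ h3.2]
    | all φ h1 =>
      intro χ h
      cases χ <;> simp only [enc] at h <;> try omega
      rw [h1 _ (h7 6 h)]
  exact fun φ ψ h => key φ ψ h

section

variable {S : Type u} {lt : S → S → Prop} {D : S → Prop}

theorem klt_wf (h : WellFounded fun x y => D x ∧ D y ∧ lt x y) :
    WellFounded fun k k' : Key S => k.ok D ∧ k'.ok D ∧ klt lt k k' := by
  refine Subrelation.wf (r := InvImage (Prod.Lex (· < ·)
    (List.Shortlex fun x y => D x ∧ D y ∧ lt x y)) fun k : Key S => (enc k.φ, k.a :: k.l)) ?_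
    (InvImage.wf _ (WellFounded.prod_lex Nat.lt_wfRel.wf (List.Shortlex.wf h)))
  rintro k k' ⟨h0, h1, h2⟩
  rcases h2 with h2 | ⟨h2, h3⟩
  · exact Prod.Lex.left _ _ h2
  · change Prod.Lex (· < ·) (List.Shortlex fun x y => D x ∧ D y ∧ lt x y)
      (enc k.φ, k.a :: k.l) (enc k'.φ, k'.a :: k'.l)
    rw [h2]
    refine Prod.Lex.right _ ?_
    rw [List.shortlex_def] at h3 ⊢
    rcases h3 with h3 | ⟨h3, h4⟩
    · exact Or.inl h3
    · exact Or.inr ⟨h3, lex_mono h4 (ok_list h0) (ok_list h1)⟩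

theorem klt_tr (h : ∀ x y z, D x → D y → D z → lt x y → lt y z → lt x z) (k k' k'' : Key S)
    (h0 : k.ok D) (h1 : k'.ok D) (h2 : k''.ok D)
    (ha : klt lt k k') (hb : klt lt k' k'') : klt lt k k'' := by
  rcases ha with ha | ⟨ha, ha'⟩
  · rcases hb with hb | ⟨hb, -⟩
    · exact Or.inl (ha.trans hb)
    · exact Or.inl (hb ▸ ha)
  · rcases hb with hb | ⟨hb, hb'⟩
    · exact Or.inl (ha ▸ hb)
    · refine Or.inr ⟨ha.trans hb, ?_⟩
      rw [List.shortlex_def] at ha' hb' ⊢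
      rcases ha' with ha' | ⟨ha', ha''⟩
      · rcases hb' with hb' | ⟨hb', -⟩
        · exact Or.inl (ha'.trans hb')
        · exact Or.inl (hb' ▸ ha')
      · rcases hb' with hb' | ⟨hb', hb''⟩
        · exact Or.inl (ha' ▸ hb')
        · exact Or.inr ⟨ha'.trans hb', lex_tr h ha'' _ (ok_list h0) (ok_list h1) (ok_list h2) hb''⟩

theorem klt_irr (h : ∀ x, D x → ¬ lt x x) (k : Key S) (h0 : k.ok D) : ¬ klt lt k k := by
  rintro (h1 | ⟨-, h1⟩)
  · exact lt_irrefl _ h1
  · rw [List.shortlex_def] at h1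
    rcases h1 with h1 | ⟨-, h1⟩
    · exact lt_irrefl _ h1
    · exact lex_irr h _ (ok_list h0) h1

theorem klt_lin (h : ∀ x y, D x → D y → lt x y ∨ x = y ∨ lt y x) (k k' : Key S) (h0 : k.ok D)
    (h1 : k'.ok D) : klt lt k k' ∨ k = k' ∨ klt lt k' k := by
  rcases lt_trichotomy (enc k.φ) (enc k'.φ) with h2 | h2 | h2
  · exact Or.inl (Or.inl h2)
  · have h3 := enc_inj h2
    rcases lt_trichotomy (k.a :: k.l).length (k'.a :: k'.l).length with h4 | h4 | h4
    · exact Or.inl (Or.inr ⟨h3, List.shortlex_def.2 (Or.inl h4)⟩)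
    · rcases lex_lin h _ _ h4 (ok_list h0) (ok_list h1) with h5 | h5 | h5
      · exact Or.inl (Or.inr ⟨h3, List.shortlex_def.2 (Or.inr ⟨h4, h5⟩)⟩)
      · obtain ⟨h6, h7⟩ := List.cons.inj h5
        exact Or.inr (Or.inl (Key.ext h3 h6 h7))
      · exact Or.inr (Or.inr (Or.inr ⟨h3.symm, List.shortlex_def.2 (Or.inr ⟨h4.symm, h5⟩)⟩))
    · exact Or.inr (Or.inr (Or.inr ⟨h3.symm, List.shortlex_def.2 (Or.inl h4)⟩))
  · exact Or.inr (Or.inr (Or.inl h2))

end

private theorem wol_least {Φ : ℕ → ℕ → ℕ → ℕ → Prop} {S : Type u} {E lt : S → S → Prop}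
    {D : S → Prop} (hwf : WellFounded fun x y => D x ∧ D y ∧ lt x y)
    (hlin : ∀ x y, D x → D y → lt x y ∨ x = y ∨ lt y x) {x : S} (hx : Df Φ E lt D x) :
    ∃ k : Key S, k.ok D ∧ k.dfs Φ E lt D x ∧
      ∀ k' : Key S, k'.ok D → k'.dfs Φ E lt D x → k = k' ∨ klt lt k k' := by
  obtain ⟨k, ⟨hk1, hk2⟩, hk3⟩ := (klt_wf hwf).has_min {k : Key S | k.ok D ∧ k.dfs Φ E lt D x} hx
  refine ⟨k, hk1, hk2, fun k' h1 h2 => ?_⟩
  rcases klt_lin hlin k k' hk1 h1 with h3 | h3 | h3
  · exact Or.inr h3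
  · exact Or.inl h3
  · exact absurd ⟨h1, hk1, h3⟩ (hk3 k' ⟨h1, h2⟩)

private theorem wol_less {Φ : ℕ → ℕ → ℕ → ℕ → Prop} {S : Type u} {E lt : S → S → Prop}
    {D : S → Prop} (htr : ∀ x y z, D x → D y → D z → lt x y → lt y z → lt x z) {x y : S}
    {k l : Key S} (hk : k.ok D) (hkx : k.dfs Φ E lt D x)
    (hk' : ∀ k' : Key S, k'.ok D → k'.dfs Φ E lt D x → k = k' ∨ klt lt k k')
    (hl : l.ok D) (hly : l.dfs Φ E lt D y)
    (hl' : ∀ k' : Key S, k'.ok D → k'.dfs Φ E lt D y → l = k' ∨ klt lt l k') :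
    less Φ E lt D x y ↔ klt lt k l := by
  constructor
  · rintro ⟨m, hm, hmx, h⟩
    have h1 := h l hl hly
    rcases hk' m hm hmx with rfl | h2
    · exact h1
    · exact klt_tr htr k m l hk hm hl h2 h1
  · intro h
    refine ⟨k, hk, hkx, fun m hm hmy => ?_⟩
    rcases hl' m hm hmy with rfl | h2
    · exact h
    · exact klt_tr htr k l m hk hl hm h h2

variable (Φ : ℕ → ℕ → ℕ → ℕ → Prop)

/-- the order is a strict well-order of the level `α` -/
private structure WO (α : Ordinal.{0}) : Prop where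
  tr : ∀ x y z, x ∈ U Φ α → y ∈ U Φ α → z ∈ U Φ α → Lt Φ x y → Lt Φ y z → Lt Φ x z
  irr : ∀ x, x ∈ U Φ α → ¬ Lt Φ x x
  lin : ∀ x y, x ∈ U Φ α → y ∈ U Φ α → Lt Φ x y ∨ x = y ∨ Lt Φ y x
  acc : ∀ x, x ∈ U Φ α → Acc (Lt Φ) x

private theorem wol_mem {x y : ZFSet.{0}} (h : Lt Φ x y) : x ∈ Lc Φ ∧ y ∈ Lc Φ := by
  obtain ⟨α, h⟩ := h
  obtain ⟨h1, h2⟩ := Rl_mem Φ h
  exact ⟨⟨α, h1⟩, ⟨α, h2⟩⟩

private theorem wol_three {x y z : ZFSet.{0}} (hx : x ∈ Lc Φ) (hy : y ∈ Lc Φ) (hz : z ∈ Lc Φ) :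
    ∃ α, x ∈ U Φ α ∧ y ∈ U Φ α ∧ z ∈ U Φ α := by
  obtain ⟨α, hα⟩ := hx
  obtain ⟨β, hβ⟩ := hy
  obtain ⟨γ, hγ⟩ := hz
  exact ⟨max α (max β γ), U_mono Φ (le_max_left _ _) hα,
    U_mono Φ ((le_max_left _ _).trans (le_max_right _ _)) hβ,
    U_mono Φ ((le_max_right _ _).trans (le_max_right _ _)) hγ⟩

private theorem WO.wf {Φ : ℕ → ℕ → ℕ → ℕ → Prop} {α : Ordinal.{0}} (h : WO Φ α) :
    WellFounded fun x y => x ∈ U Φ α ∧ y ∈ U Φ α ∧ Lt Φ x y := by
  refine ⟨fun x => ?_⟩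
  by_cases hx : x ∈ U Φ α
  · exact Subrelation.accessible (r := Lt Φ) (fun h1 => h1.2.2) (h.acc x hx)
  · exact ⟨x, fun y hy => absurd hy.2.1 hx⟩

/-- the order `lessU` is a strict well-order of the definable subsets of the level `β` -/
private structure WL (β : Ordinal.{0}) : Prop where
  tr : ∀ x y z, DfU Φ β x → DfU Φ β y → DfU Φ β z → lessU Φ β x y → lessU Φ β y z → lessU Φ β x z
  irr : ∀ x, DfU Φ β x → ¬ lessU Φ β x x
  lin : ∀ x y, DfU Φ β x → DfU Φ β y → lessU Φ β x y ∨ x = y ∨ lessU Φ β y x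
  wf : WellFounded fun x y => DfU Φ β x ∧ DfU Φ β y ∧ lessU Φ β x y

private theorem WO.wl {Φ : ℕ → ℕ → ℕ → ℕ → Prop} {β : Ordinal.{0}} (h : WO Φ β) : WL Φ β := by
  have hK : ∀ x, DfU Φ β x → ∃ k : Key ZFSet.{0}, k.ok (· ∈ U Φ β) ∧
      k.dfs Φ (· ∈ ·) (Lt Φ) (· ∈ U Φ β) x ∧ ∀ k' : Key ZFSet.{0}, k'.ok (· ∈ U Φ β) →
        k'.dfs Φ (· ∈ ·) (Lt Φ) (· ∈ U Φ β) x → k = k' ∨ klt (Lt Φ) k k' :=
    fun x hx => wol_least h.wf h.lin ((DfU_iff Φ).1 hx)
  choose K K1 K2 K3 using hK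
  have hl : ∀ x y (hx : DfU Φ β x) (hy : DfU Φ β y),
      lessU Φ β x y ↔ klt (Lt Φ) (K x hx) (K y hy) := fun x y hx hy => by
    rw [lessU_iff]
    exact wol_less h.tr (K1 x hx) (K2 x hx) (K3 x hx) (K1 y hy) (K2 y hy) (K3 y hy)
  refine ⟨fun x y z hx hy hz h1 h2 => ?_, fun x hx h1 => ?_, fun x y hx hy => ?_, ?_⟩
  · rw [hl x y hx hy] at h1
    rw [hl y z hy hz] at h2
    rw [hl x z hx hz]
    exact klt_tr h.tr _ _ _ (K1 x hx) (K1 y hy) (K1 z hz) h1 h2
  · rw [hl x x hx hx] at h1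
    exact klt_irr h.irr _ (K1 x hx) h1
  · rw [hl x y hx hy, hl y x hy hx]
    rcases klt_lin h.lin _ _ (K1 x hx) (K1 y hy) with h1 | h1 | h1
    · exact Or.inl h1
    · refine Or.inr (Or.inl (ZFSet.ext fun z => ?_))
      have h2 := K2 x hx z
      rw [h1] at h2
      exact h2.trans (K2 y hy z).symm
    · exact Or.inr (Or.inr h1)
  · have key : ∀ k : Key ZFSet.{0}, ∀ x (hx : DfU Φ β x), K x hx = k →
        Acc (fun x y => DfU Φ β x ∧ DfU Φ β y ∧ lessU Φ β x y) x := by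
      intro k
      induction k using (klt_wf h.wf).induction with
      | h k ih =>
        intro x hx hk
        refine ⟨x, fun y hy => ?_⟩
        obtain ⟨hy, -, h1⟩ := hy
        rw [hl y x hy hx] at h1
        refine ih (K y hy) ⟨K1 y hy, hk ▸ K1 x hx, hk ▸ h1⟩ y hy rfl
    refine ⟨fun x => ?_⟩
    by_cases hx : DfU Φ β x
    · exact key _ x hx rfl
    · exact ⟨x, fun y hy => absurd hy.2.1 hx⟩

/-- the stage of `y` is `β + 1` -/
private def St (β : Ordinal.{0}) (y : ZFSet.{0}) : Prop := y ∈ U Φ (β + 1) ∧ y ∉ U Φ β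

private theorem wol_st {α : Ordinal.{0}} {y : ZFSet.{0}} (hy : y ∈ U Φ α) :
    y = ∅ ∨ ∃ β < α, St Φ β y := by
  rcases exists_stage Φ ⟨α, hy⟩ with h | ⟨β, h1, h2⟩
  · exact Or.inl h
  · refine Or.inr ⟨β, ?_, h1, h2⟩
    by_contra h3
    exact h2 (U_mono Φ (not_lt.1 h3) hy)

private theorem wol_zero {x : ZFSet.{0}} : ¬ Lt Φ x ∅ := by
  intro h
  rw [Lt_iff Φ (empty_mem_U Φ 0), Rl_iff] at h
  obtain ⟨β, hβ, -⟩ := h
  exact not_lt_bot hβ

private theorem wol_lt {β : Ordinal.{0}} {x y : ZFSet.{0}} (hy : St Φ β y) :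
    Lt Φ x y ↔ x ∈ U Φ β ∨ (St Φ β x ∧ lessU Φ β x y) := by
  constructor
  · intro h
    have hx : x ∈ U Φ (β + 1) := (Rl_mem Φ ((Lt_iff Φ hy.1).1 h)).1
    rcases (Lt_succ Φ hx hy.1).1 h with h1 | h1 | h1
    · exact Or.inl h1.1
    · exact Or.inl h1.1
    · exact Or.inr ⟨⟨hx, h1.1⟩, h1.2.2⟩
  · rintro (h | ⟨h1, h2⟩)
    · exact (Lt_succ Φ (U_mono Φ (le_self_add) h) hy.1).2 (Or.inr (Or.inl ⟨h, hy.2⟩))
    · exact (Lt_succ Φ h1.1 hy.1).2 (Or.inr (Or.inr ⟨h1.2, hy.2, h2⟩))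

private theorem wol_st_lt {β γ : Ordinal.{0}} {x y : ZFSet.{0}} (hx : St Φ β x) (hy : St Φ γ y)
    (h : β < γ) : Lt Φ x y :=
  (wol_lt Φ hy).2 (Or.inl (U_mono Φ (Order.add_one_le_of_lt h) hx.1))

private theorem wol_main (α : Ordinal.{0}) : WO Φ α := by
  induction α using Ordinal.lt_wf.induction with
  | h α ih =>
    have hdf : ∀ {β : Ordinal.{0}} {x : ZFSet.{0}}, St Φ β x → DfU Φ β x :=
      fun h => (U_succ Φ).1 h.1
    refine ⟨fun x y z hx hy hz h1 h2 => ?_, fun x hx h => ?_, fun x y hx hy => ?_, fun x hx => ?_⟩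
    · rcases wol_st Φ hz with rfl | ⟨γ, hγ, hz'⟩
      · exact absurd h2 (wol_zero Φ)
      rcases wol_st Φ hy with rfl | ⟨β, hβ, hy'⟩
      · exact absurd h1 (wol_zero Φ)
      rw [wol_lt Φ hz'] at h2 ⊢
      rcases h2 with h2 | ⟨h2, h3⟩
      · refine Or.inl (Rl_mem Φ ((Lt_iff Φ h2).1 h1)).1
      · rw [wol_lt Φ h2] at h1
        rcases h1 with h1 | ⟨h1, h4⟩
        · exact Or.inl h1
        · exact Or.inr ⟨h1, (ih γ hγ).wl.tr x y z (hdf h1) (hdf h2) (hdf hz') h4 h3⟩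
    · rcases wol_st Φ hx with rfl | ⟨β, hβ, hx'⟩
      · exact wol_zero Φ h
      · rcases (wol_lt Φ hx').1 h with h1 | ⟨-, h1⟩
        · exact hx'.2 h1
        · exact (ih β hβ).wl.irr x (hdf hx') h1
    · rcases wol_st Φ hx with rfl | ⟨β, hβ, hx'⟩
      · rcases wol_st Φ hy with rfl | ⟨γ, hγ, hy'⟩
        · exact Or.inr (Or.inl rfl)
        · exact Or.inl ((wol_lt Φ hy').2 (Or.inl (empty_mem_U Φ γ)))
      · rcases wol_st Φ hy with rfl | ⟨γ, hγ, hy'⟩
        · exact Or.inr (Or.inr ((wol_lt Φ hx').2 (Or.inl (empty_mem_U Φ β))))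
        · rcases lt_trichotomy β γ with h1 | rfl | h1
          · exact Or.inl (wol_st_lt Φ hx' hy' h1)
          · rcases (ih β hβ).wl.lin x y (hdf hx') (hdf hy') with h1 | h1 | h1
            · exact Or.inl ((wol_lt Φ hy').2 (Or.inr ⟨hx', h1⟩))
            · exact Or.inr (Or.inl h1)
            · exact Or.inr (Or.inr ((wol_lt Φ hx').2 (Or.inr ⟨hy', h1⟩)))
          · exact Or.inr (Or.inr (wol_st_lt Φ hy' hx' h1))
    · rcases wol_st Φ hx with rfl | ⟨β, hβ, hx'⟩
      · exact ⟨_, fun y hy => absurd hy (wol_zero Φ)⟩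
      · have key : ∀ x, St Φ β x → Acc (Lt Φ) x := by
          intro x
          induction x using (ih β hβ).wl.wf.induction with
          | h x ih' =>
            intro hx
            refine ⟨x, fun y hy => ?_⟩
            rcases (wol_lt Φ hx).1 hy with h1 | ⟨h1, h2⟩
            · exact (ih β hβ).acc y h1
            · exact ih' y ⟨hdf h1, hdf hx, h2⟩ h1
        exact key x hx'

theorem Lt_tr {x y z : ZFSet.{0}} (h : Lt Φ x y) (h' : Lt Φ y z) : Lt Φ x z := by
  obtain ⟨hx, hy⟩ := wol_mem Φ h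
  obtain ⟨-, hz⟩ := wol_mem Φ h'
  obtain ⟨α, h1, h2, h3⟩ := wol_three Φ hx hy hz
  exact (wol_main Φ α).tr x y z h1 h2 h3 h h'

theorem Lt_irr (x : ZFSet.{0}) : ¬ Lt Φ x x := by
  intro h
  obtain ⟨α, hα⟩ := (wol_mem Φ h).1
  exact (wol_main Φ α).irr x hα h

theorem Lt_lin {x y : ZFSet.{0}} (hx : x ∈ Lc Φ) (hy : y ∈ Lc Φ) : Lt Φ x y ∨ x = y ∨ Lt Φ y x := by
  obtain ⟨α, h1, h2, -⟩ := wol_three Φ hx hy hy
  exact (wol_main Φ α).lin x y h1 h2

theorem Lt_wf : WellFounded (Lt Φ) := by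
  refine ⟨fun x => ?_⟩
  by_cases hx : x ∈ Lc Φ
  · obtain ⟨α, hα⟩ := hx
    exact (wol_main Φ α).acc x hα
  · exact ⟨x, fun y hy => absurd (wol_mem Φ hy).2 hx⟩

/-- the least key of a definable subset of a level -/
theorem exists_least_key {β : Ordinal.{0}} {x : ZFSet.{0}} (hx : DfU Φ β x) :
    ∃ k : Key ZFSet.{0}, k.ok (· ∈ U Φ β) ∧ k.dfs Φ (· ∈ ·) (Lt Φ) (· ∈ U Φ β) x ∧
      ∀ k' : Key ZFSet.{0}, k'.ok (· ∈ U Φ β) → k'.dfs Φ (· ∈ ·) (Lt Φ) (· ∈ U Φ β) x →
        k = k' ∨ klt (Lt Φ) k k' := by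
  exact wol_least ((wol_main Φ β).wf) (wol_main Φ β).lin ((DfU_iff Φ).1 hx)

end LGr
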