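import Pool.Agent.LGr.CollA
import Pool.Agent.LGr.Wol

/-! # Coherent well-founded structures are the native levels

(problem MP_ba5606_gt, ARH Part II, block A; architect helper69)

`Cl Φ E lt J lev ρ π`: `ρ` is an isomorphism of the indices onto an initial segment of the ordinals, `π` is an isomorphism of the levels `lev i` onto `U Φ (ρ i)`.

PROOF of `coll`. `ρ`, `π` from `exists_rho`, `exists_pi` (`CollA.lean`). By induction on `i` (along `J`): (a) `lev i x → π x ∈ U Φ (ρ i)`, (b) every `z ∈ U Φ (ρ i)` is `π x` for some `x` with `lev i x`, (c) `lt x y ↔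
Lt Φ (π x) (π y)` for `x, y` in `lev i`. Cases: `i` lowest: `ρ i = 0`, `low`, `U_zero`, `ltlow`, `Lt_irr`. `Suc j i`: `ρ i = ρ j + 1` (the range of `ρ` is an initial segment); (a) `suc`, `Df_pi` for `D = lev j`, `D' = U Φ (ρ j)`,
`lt' = Lt Φ`, and `U_succ`, `DfU_iff`; (b) `z ∈ U (ρ j + 1)` is defined by a key with parameters in `U (ρ j)`; `key_pi`, `sucex` give `x` with the pulled back key, and `π x`, `z` are both defined by the key, so equal
(extensionality); (c) `ltsuc`, `Lt_succ`, `less_pi`, with `π x ∈ U (ρ j) ↔ lev j x` (from (a), (b) for `j` and injectivity). `i` limit: `ρ i` is a limit, `lim`, `U_lim`; (c): the levels are increasing (prove first: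
`lev j x → J j i → lev i x`: from (a), (b) and injectivity, or directly), so two elements of `lev i` are in one lower level. `lev_iff`: `lev i x ↔ π x ∈ U Φ (ρ i)` from (a), (b), injectivity. -/

universe u v

namespace LGr

open STP

/-- the collapse of a coherent structure -/
structure Cl (Φ : ℕ → ℕ → ℕ → ℕ → Prop) {S : Type u} {I : Type v} (E lt : S → S → Prop)
    (J : I → I → Prop) (lev : I → S → Prop) (ρ : I → Ordinal.{0}) (π : S → ZFSet.{0}) : Prop where
  J_iff : ∀ i j, J i j ↔ ρ i < ρ j
  seg : ∀ i α, α < ρ i → ∃ j, ρ j = α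
  inj : Function.Injective π
  mem : ∀ x z, z ∈ π x ↔ ∃ y, E y x ∧ π y = z
  lev_iff : ∀ i x, lev i x ↔ π x ∈ U Φ (ρ i)
  onto : ∀ i, ∀ z ∈ U Φ (ρ i), ∃ x, π x = z
  lt_iff : ∀ x y, lt x y ↔ Lt Φ (π x) (π y)

theorem coll {Φ : ℕ → ℕ → ℕ → ℕ → Prop} {S : Type u} {I : Type v} [Small.{0} S] [Small.{0} I]
    {E lt : S → S → Prop} {J : I → I → Prop} {lev : I → S → Prop} (h : Coh Φ E lt J lev)
    (hw : WellFounded J) : ∃ ρ π, Cl Φ E lt J lev ρ π := by
  obtain ⟨ρ, hρ, hseg⟩ := exists_rho hw h.Jtr h.Jlin
  obtain ⟨π, hi, hp⟩ := exists_pi (h.E_wf hw) h.ext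
  have hemp : ∀ x, (∀ z, ¬ E z x) → π x = ∅ := by
    intro x hx
    refine (ZFSet.eq_empty _).2 fun z hz => ?_
    obtain ⟨y, hy, -⟩ := (hp x z).1 hz
    exact hx y hy
  have key : ∀ i, (∀ x, lev i x → π x ∈ U Φ (ρ i)) ∧
      (∀ z ∈ U Φ (ρ i), ∃ x, lev i x ∧ π x = z) ∧
      (∀ x y, lev i x → lev i y → (lt x y ↔ Lt Φ (π x) (π y))) := by
    intro i
    induction i using hw.induction with
    | h i ih =>
      by_cases h0 : ∃ j, J j i
      · by_cases h1 : ∃ j, Suc J j i
        · obtain ⟨j, hj⟩ := h1
          obtain ⟨a1, a2, a3⟩ := ih j hj.1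
          have hlev : ∀ x, lev j x ↔ π x ∈ U Φ (ρ j) := fun x => ⟨a1 x, fun hx => by
            obtain ⟨x', hx', he⟩ := a2 _ hx
            rwa [hi he] at hx'⟩
          have hs : ρ i = ρ j + 1 := by
            refine le_antisymm (not_lt.1 fun hlt => ?_) (Order.add_one_le_of_lt ((hρ j i).1 hj.1))
            obtain ⟨k, hk⟩ := hseg i _ hlt
            have hki : J k i := (hρ k i).2 (hk ▸ hlt)
            have hjk : ρ j < ρ k := by
              rw [hk]
              exact Order.lt_add_one_iff.2 le_rfl
            rcases hj.2 k hki with h2 | h2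
            · rw [h2] at hjk
              exact lt_irrefl _ hjk
            · exact lt_asymm hjk ((hρ k j).1 h2)
          have hdf : ∀ x, lev i x ↔ DfU Φ (ρ j) (π x) := by
            intro x
            rw [h.suc j i hj x, DfU_iff]
            exact Df_pi hi hp a1 a2 a3 x
          have ha : ∀ x, lev i x → π x ∈ U Φ (ρ i) := by
            intro x hx
            rw [hs]
            exact (U_succ Φ).2 ((hdf x).1 hx)
          refine ⟨ha, ?_, ?_⟩
          · intro z hz
            rw [hs] at hz
            obtain ⟨k, hk, hkz⟩ := (DfU_iff Φ).1 ((U_succ Φ).1 hz)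
            obtain ⟨k', hk', hk''⟩ := key_pi (E := E) (lt := lt) (Φ := Φ) hi hp a1 a2 a3 k hk
            obtain ⟨x, hx⟩ := h.sucex j i hj k' hk'
            refine ⟨x, (h.suc j i hj x).2 ⟨k', hk', hx⟩, ZFSet.ext fun w => ?_⟩
            exact ((hk'' x).1 hx w).trans (hkz w).symm
          · intro x y hx hy
            have hx' : π x ∈ U Φ (ρ j + 1) := hs ▸ ha x hx
            have hy' : π y ∈ U Φ (ρ j + 1) := hs ▸ ha y hy
            rw [h.ltsuc j i hj x y hx hy, Lt_succ Φ hx' hy']
            refine or_congr ?_ (or_congr ?_ ?_)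
            · constructor
              · rintro ⟨b1, b2, b3⟩
                exact ⟨a1 x b1, a1 y b2, (a3 x y b1 b2).1 b3⟩
              · rintro ⟨b1, b2, b3⟩
                exact ⟨(hlev x).2 b1, (hlev y).2 b2, (a3 x y ((hlev x).2 b1) ((hlev y).2 b2)).2 b3⟩
            · exact and_congr (hlev x) (not_congr (hlev y))
            · refine and_congr (not_congr (hlev x)) (and_congr (not_congr (hlev y)) ?_)
              rw [lessU_iff]
              exact less_pi hi hp a1 a2 a3 x y
        · push Not at h1
          have hlev : ∀ j, J j i → ∀ x, lev j x ↔ π x ∈ U Φ (ρ j) := fun j hj x =>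
            ⟨(ih j hj).1 x, fun hx => by
            obtain ⟨x', hx', he⟩ := (ih j hj).2.1 _ hx
            rwa [hi he] at hx'⟩
          have hlim : Order.IsSuccLimit (ρ i) := by
            rcases Ordinal.zero_or_succ_or_isSuccLimit (ρ i) with h2 | ⟨α, h2⟩ | h2
            · obtain ⟨j, hj⟩ := h0
              have h3 := (hρ j i).1 hj
              rw [h2] at h3
              exact absurd h3 (not_lt.2 zero_le)
            · exfalso
              have h3 : α < ρ i := by
                rw [← h2]
                exact Order.lt_succ α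
              obtain ⟨j, hj⟩ := hseg i α h3
              have hji : J j i := (hρ j i).2 (hj ▸ h3)
              refine h1 j ⟨hji, fun k hk => ?_⟩
              rcases h.Jlin k j with h4 | h4 | h4
              · exact Or.inr h4
              · exact Or.inl h4
              · exfalso
                have h5 := (hρ j k).1 h4
                have h6 := (hρ k i).1 hk
                rw [hj] at h5
                rw [← h2] at h6
                exact absurd h5 (not_lt.2 (Order.lt_succ_iff.1 h6))
            · exact h2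
          have hup : ∀ j k, J k i → ρ j ≤ ρ k → J j i → ∀ x, lev j x → lev k x := by
            intro j k hk hjk hj x hx
            exact (hlev k hk x).2 (U_mono Φ hjk ((ih j hj).1 x hx))
          refine ⟨?_, ?_, ?_⟩
          · intro x hx
            obtain ⟨j, hj, hx'⟩ := (h.lim i h0 h1 x).1 hx
            exact U_mono Φ ((hρ j i).1 hj).le ((ih j hj).1 x hx')
          · intro z hz
            obtain ⟨β, hβ, hz'⟩ := (U_lim Φ hlim).1 hz
            obtain ⟨j, rfl⟩ := hseg i β hβ
            have hj : J j i := (hρ j i).2 hβ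
            obtain ⟨x, hx, hxz⟩ := (ih j hj).2.1 z hz'
            exact ⟨x, (h.lim i h0 h1 x).2 ⟨j, hj, hx⟩, hxz⟩
          · intro x y hx hy
            obtain ⟨j, hj, hx'⟩ := (h.lim i h0 h1 x).1 hx
            obtain ⟨k, hk, hy'⟩ := (h.lim i h0 h1 y).1 hy
            rcases le_total (ρ j) (ρ k) with h2 | h2
            · exact (ih k hk).2.2 x y (hup j k hk h2 hj x hx') hy'
            · exact (ih j hj).2.2 x y hx' (hup k j hj h2 hk y hy')
      · push Not at h0
        have hz : ρ i = 0 := by
          by_contra hne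
          obtain ⟨j, hj⟩ := hseg i 0 (pos_iff_ne_zero.2 hne)
          exact h0 j ((hρ j i).2 (hj ▸ pos_iff_ne_zero.2 hne))
        rw [hz]
        refine ⟨?_, ?_, ?_⟩
        · intro x hx
          exact (U_zero Φ).2 (hemp x ((h.low i h0 x).1 hx))
        · intro z hz'
          obtain ⟨x, hx⟩ := h.emp
          exact ⟨x, (h.low i h0 x).2 hx, (hemp x hx).trans ((U_zero Φ).1 hz').symm⟩
        · intro x y hx hy
          refine iff_of_false (h.ltlow i h0 x y hx hy) fun h2 => ?_
          rw [hemp x ((h.low i h0 x).1 hx), hemp y ((h.low i h0 y).1 hy)] at h2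
          exact Lt_irr Φ _ h2
  have hlev : ∀ i x, lev i x ↔ π x ∈ U Φ (ρ i) := fun i x => ⟨(key i).1 x, fun hx => by
    obtain ⟨x', hx', he⟩ := (key i).2.1 _ hx
    rwa [hi he] at hx'⟩
  refine ⟨ρ, π, hρ, hseg, hi, hp, hlev, ?_, ?_⟩
  · intro i z hz
    obtain ⟨x, -, hx⟩ := (key i).2.1 z hz
    exact ⟨x, hx⟩
  · intro x y
    obtain ⟨i, hx⟩ := h.tot x
    obtain ⟨j, hy⟩ := h.tot y
    rcases le_total (ρ i) (ρ j) with h2 | h2
    · exact (key j).2.2 x y ((hlev j x).2 (U_mono Φ h2 ((hlev i x).1 hx))) hy
    · exact (key i).2.2 x y hx ((hlev i y).2 (U_mono Φ h2 ((hlev j y).1 hy)))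

end LGr
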