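import Pool.Agent.STP.FLang

/-! # ZFC in elementary substructures

(problem MP_ba5606_gt, ARH Part II, block A; architect helper69; independent of the other files of the block)

PROOF of `zfc_elem`. Each axiom (for given parameters) is written as a formula (`sat` of a formula built with the formulas of `STP/FLang.lean` or directly with de Bruijn indices), the
hypothesis `he` moves it between `(X, E)` and `(Y, F)`. For example `pair`: `∃ z, ∀ w, w ∈ z ↔ w = x ∨ w = y` for `x y : X` is `sat E (ex (all (iff (mem 0 1) (or (eq 0 2) (eq 0 3))))) (cns x (cns y _))`.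
`separation φ v x`: the formula `∃ y ∀ z (z ∈ y ↔ z ∈ x ∧ φ'(z, v))`, where `φ'` is `φ` with renamed variables (`CPI.ren`/`sat_ren` in `Pool/Agent/CPI/ADefs.lean` or `ATool.lean`; or give an own
renaming function). `replacement`: the hypothesis is moved from `X` to `Y` (as a formula), then the conclusion back. `ext`: `he` for the formula
`∀ z (z ∈ x ↔ z ∈ y)`, then `x = y` in `Y`, and `i` is injective by `he` for `eq`. `found`, `choice`: the same. -/

universe u v

namespace LGr

open STP

private def el_lft (r : ℕ → ℕ) : ℕ → ℕ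
  | 0 => 0
  | n + 1 => r n + 1

private def el_ren : (ℕ → ℕ) → Fml → Fml
  | r, .mem i j => .mem (r i) (r j)
  | r, .eq i j => .eq (r i) (r j)
  | _, .bot => .bot
  | r, .imp φ ψ => .imp (el_ren r φ) (el_ren r ψ)
  | r, .all φ => .all (el_ren (el_lft r) φ)

private theorem el_sat_ren {N : Type u} {E : N → N → Prop} (φ : Fml) :
    ∀ (r : ℕ → ℕ) (v : ℕ → N), sat E (el_ren r φ) v ↔ sat E φ (fun n => v (r n)) := by
  induction φ with
  | mem i j => intro r v; rfl
  | eq i j => intro r v; rfl
  | bot => intro r v; rfl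
  | imp φ ψ h1 h2 =>
    intro r v
    change (sat E (el_ren r φ) v → sat E (el_ren r ψ) v) ↔ (sat E φ _ → sat E ψ _)
    rw [h1, h2]
  | all φ h =>
    intro r v
    refine forall_congr' fun x => ?_
    rw [h]
    have h1 : (fun n => cns x v (el_lft r n)) = cns x fun n => v (r n) := by
      funext n
      cases n with
      | zero => rfl
      | succ n => rfl
    rw [h1]

private def el_r0 : ℕ → ℕ
  | 0 => 0
  | n + 1 => n + 3

private def el_r1 : ℕ → ℕ
  | 0 => 0
  | 1 => 2
  | n + 2 => n + 4

private def el_r2 : ℕ → ℕ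
  | 0 => 1
  | 1 => 0
  | n + 2 => n + 4

private theorem el_s0 {N : Type u} {E : N → N → Prop} (φ : Fml) (z y x : N) (v : ℕ → N) :
    sat E (el_ren el_r0 φ) (cns z (cns y (cns x v))) ↔ sat E φ (cns z v) := by
  have h : (fun n => cns z (cns y (cns x v)) (el_r0 n)) = cns z v := by
    funext n
    cases n with
    | zero => rfl
    | succ n => rfl
  rw [el_sat_ren, h]

private theorem el_s1 {N : Type u} {E : N → N → Prop} (φ : Fml) (w w0 z x : N) (v : ℕ → N) :
    sat E (el_ren el_r1 φ) (cns w (cns w0 (cns z (cns x v)))) ↔ sat E φ (cns w (cns z v)) := by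
  have h : (fun n => cns w (cns w0 (cns z (cns x v))) (el_r1 n)) = cns w (cns z v) := by
    funext n
    rcases n with _ | _ | n <;> rfl
  rw [el_sat_ren, h]

private theorem el_s2 {N : Type u} {E : N → N → Prop} (φ : Fml) (z w y x : N) (v : ℕ → N) :
    sat E (el_ren el_r2 φ) (cns z (cns w (cns y (cns x v)))) ↔ sat E φ (cns w (cns z v)) := by
  have h : (fun n => cns z (cns w (cns y (cns x v))) (el_r2 n)) = cns w (cns z v) := by
    funext n
    rcases n with _ | _ | n <;> rfl
  rw [el_sat_ren, h]

private theorem el_eu {N : Type u} {P : N → Prop} : (∃! w, P w) ↔ ∃ w0, ∀ w, P w ↔ w = w0 := by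
  constructor
  · rintro ⟨w0, h1, h2⟩
    exact ⟨w0, fun w => ⟨fun h => h2 w h, fun h => h ▸ h1⟩⟩
  · rintro ⟨w0, h⟩
    exact ⟨w0, (h w0).2 rfl, fun w hw => (h w).1 hw⟩

theorem zfc_elem {X : Type u} [Nonempty X] {Y : Type v} {E : X → X → Prop} {F : Y → Y → Prop}
    (i : X → Y) (he : ∀ (φ : Fml) (v : ℕ → X), sat E φ v ↔ sat F φ (fun n => i (v n)))
    (h : ZFC F) : ZFC E := by
  have hc : ∀ (x : X) (v : ℕ → X), (fun n => i (cns x v n)) = cns (i x) (fun n => i (v n)) := by
    intro x v
    funext n
    cases n with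
    | zero => rfl
    | succ n => rfl
  obtain ⟨x0⟩ := ‹Nonempty X›
  let v0 : ℕ → X := fun _ => x0
  refine ⟨?_, ?_, ?_, ?_, ?_, ?_, ?_, ?_, ?_⟩
  · intro x y
    have h1 := (he (.imp (.all (.iff (.mem 0 1) (.mem 0 2))) (.eq 0 1)) (cns x (cns y v0))).2 (by
      rw [hc, hc]
      simp only [sat_imp, sat_all, sat_iff, sat_mem, sat_eq, cns_zero, cns_one, cns_two]
      exact h.ext _ _)
    simpa only [sat_imp, sat_all, sat_iff, sat_mem, sat_eq, cns_zero, cns_one, cns_two] using h1
  · intro x
    have h1 := (he (.imp (.ex (.mem 0 1)) (.ex (.an (.mem 0 1) (.all (.imp (.mem 0 2)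
      (.no (.mem 0 1))))))) (cns x v0)).2 (by
      rw [hc]
      simp only [sat_imp, sat_ex, sat_an, sat_all, sat_no, sat_mem, cns_zero, cns_one, cns_two]
      exact h.found _)
    simpa only [sat_imp, sat_ex, sat_an, sat_all, sat_no, sat_mem, cns_zero, cns_one,
      cns_two] using h1
  · intro x y
    have h1 := (he (.ex (.all (.iff (.mem 0 1) (.or (.eq 0 2) (.eq 0 3)))))
      (cns x (cns y v0))).2 (by
      rw [hc, hc]
      simp only [sat_ex, sat_all, sat_iff, sat_or, sat_eq, sat_mem, cns_zero, cns_one, cns_two,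
        cns_three]
      exact h.pair _ _)
    simpa only [sat_ex, sat_all, sat_iff, sat_or, sat_eq, sat_mem, cns_zero, cns_one, cns_two,
      cns_three] using h1
  · intro x
    have h1 := (he (.ex (.all (.iff (.mem 0 1) (.ex (.an (.mem 0 3) (.mem 1 0))))))
      (cns x v0)).2 (by
      rw [hc]
      simp only [sat_ex, sat_all, sat_iff, sat_an, sat_mem, cns_zero, cns_one, cns_two,
        cns_three]
      exact h.union _)
    simpa only [sat_ex, sat_all, sat_iff, sat_an, sat_mem, cns_zero, cns_one, cns_two,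
      cns_three] using h1
  · intro x
    have h1 := (he (.ex (.all (.iff (.mem 0 1) (.all (.imp (.mem 0 1) (.mem 0 3))))))
      (cns x v0)).2 (by
      rw [hc]
      simp only [sat_ex, sat_all, sat_iff, sat_imp, sat_mem, cns_zero, cns_one, cns_two,
        cns_three]
      exact h.power _)
    simpa only [sat_ex, sat_all, sat_iff, sat_imp, sat_mem, cns_zero, cns_one, cns_two,
      cns_three] using h1
  · have h1 := (he (.ex (.an (.ex (.an (.mem 0 1) (.all (.no (.mem 0 1)))))
      (.all (.imp (.mem 0 1) (.ex (.an (.mem 0 2) (.all (.iff (.mem 0 1)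
        (.or (.mem 0 2) (.eq 0 2)))))))))) v0).2 (by
      simp only [sat_ex, sat_all, sat_iff, sat_imp, sat_an, sat_or, sat_no, sat_eq, sat_mem,
        cns_zero, cns_one, cns_two]
      exact h.infinity)
    simpa only [sat_ex, sat_all, sat_iff, sat_imp, sat_an, sat_or, sat_no, sat_eq, sat_mem,
        cns_zero, cns_one, cns_two] using h1
  · intro φ v x
    have h1 := (he (.ex (.all (.iff (.mem 0 1) (.an (.mem 0 2) (el_ren el_r0 φ)))))
      (cns x v)).2 (by
      rw [hc]
      simp only [sat_ex, sat_all, sat_iff, sat_an, sat_mem, cns_zero, cns_one, cns_two, el_s0]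
      exact h.separation φ _ _)
    simpa only [sat_ex, sat_all, sat_iff, sat_an, sat_mem, cns_zero, cns_one, cns_two,
      el_s0] using h1
  · intro φ v x
    have h1 := (he (.imp (.all (.imp (.mem 0 1) (.ex (.all (.iff (el_ren el_r1 φ) (.eq 0 1))))))
      (.ex (.all (.iff (.mem 0 1) (.ex (.an (.mem 0 3) (el_ren el_r2 φ))))))) (cns x v)).2 (by
      rw [hc]
      simp only [sat_ex, sat_all, sat_iff, sat_imp, sat_an, sat_eq, sat_mem, cns_zero, cns_one,
        cns_two, cns_three, el_s1, el_s2]
      intro h2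
      exact h.replacement φ _ _ fun z hz => el_eu.2 (h2 z hz))
    simp only [sat_ex, sat_all, sat_iff, sat_imp, sat_an, sat_eq, sat_mem, cns_zero, cns_one,
        cns_two, cns_three, el_s1, el_s2] at h1
    intro h2
    exact h1 fun z hz => el_eu.1 (h2 z hz)
  · intro x
    have h1 := (he (.imp (.all (.imp (.mem 0 1) (.ex (.mem 0 1)))) (.imp (.all (.all
      (.imp (.mem 1 2) (.imp (.mem 0 2) (.imp (.no (.eq 1 0))
        (.no (.ex (.an (.mem 0 2) (.mem 0 1)))))))))
      (.ex (.all (.imp (.mem 0 2) (.ex (.all (.iff (.an (.mem 0 3) (.mem 0 2))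
        (.eq 0 1))))))))) (cns x v0)).2 (by
      rw [hc]
      simp only [sat_ex, sat_all, sat_iff, sat_imp, sat_an, sat_no, sat_eq, sat_mem, cns_zero,
        cns_one, cns_two, cns_three]
      intro h2 h3
      obtain ⟨c, hcc⟩ := h.choice _ h2 h3
      exact ⟨c, fun y hy => el_eu.1 (hcc y hy)⟩)
    simp only [sat_ex, sat_all, sat_iff, sat_imp, sat_an, sat_no, sat_eq, sat_mem, cns_zero,
        cns_one, cns_two, cns_three] at h1
    intro h2 h3
    obtain ⟨c, hcc⟩ := h1 h2 h3
    exact ⟨c, fun y hy => el_eu.2 (hcc y hy)⟩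

/-- isomorphic structures -/
theorem sat_iso {X : Type u} {Y : Type v} {E : X → X → Prop} {F : Y → Y → Prop} (e : X ≃ Y)
    (he : ∀ x y, E x y ↔ F (e x) (e y)) (φ : Fml) (v : ℕ → X) : sat E φ v ↔ sat F φ (fun n => e (v n)) := by
  induction φ generalizing v with
  | mem i j => exact he _ _
  | eq i j => exact e.injective.eq_iff.symm
  | bot => exact Iff.rfl
  | imp φ ψ h1 h2 =>
    change (sat E φ v → sat E ψ v) ↔ (sat F φ _ → sat F ψ _)
    rw [h1, h2]
  | all φ h =>
    have hc : ∀ x : X, (fun n => e (cns x v n)) = cns (e x) (fun n => e (v n)) := by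
      intro x
      funext n
      cases n with
      | zero => rfl
      | succ n => rfl
    constructor
    · intro h1 y
      obtain ⟨x, rfl⟩ := e.surjective y
      have h2 := (h (cns x v)).1 (h1 x)
      rw [hc] at h2
      exact h2
    · intro h1 x
      refine (h (cns x v)).2 ?_
      rw [hc]
      exact h1 (e x)

end LGr
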