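import Pool.Agent.LGr.Defs

/-! # Number of variables; invariance under isomorphisms

(problem MP_ba5606_gt, ARH Part II, block A; architect helper69)

PROOFS.
* `bd φ`: a bound for the free variables; `lsat_bd`: induction on `φ` (for `all φ`: the variables shift).
* invariance under a map `e : S → S'` with `E x y ↔ E' (e x) (e y)`: `isNum_map`: for a bijection `e`. `lsat_map`: for a bijection `e` with `D x ↔ D' (e x)` and
  `lt x y ↔ lt' (e x) (e y)` on `D` (or everywhere), by induction on the formula (`all`: surjectivity). `Key.map`: parameters are mapped. `Df_map`, `less_map`.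
* `Coh.transport`: along bijections `e : S ≃ S'`, `f : I ≃ I'`. -/

universe u v u' v'

namespace LGr

open STP

/-- a bound for the free variables -/
def bd : LF → ℕ
  | .mem i j => max i j + 1
  | .eq i j => max i j + 1
  | .lt i j => max i j + 1
  | .tp _ i j k => max i (max j k) + 1
  | .bot => 0
  | .imp φ ψ => max (bd φ) (bd ψ)
  | .all φ => bd φ

variable {Φ : ℕ → ℕ → ℕ → ℕ → Prop}

theorem lsat_bd {S : Type u} {E lt : S → S → Prop} {D : S → Prop} (φ : LF) {v w : ℕ → S}
    (h : ∀ i < bd φ, v i = w i) : lsat Φ E lt D φ v ↔ lsat Φ E lt D φ w := by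
  induction φ generalizing v w with
  | mem i j =>
    have h1 : v i = w i := h i (by simp [bd])
    have h2 : v j = w j := h j (by simp [bd])
    simp only [lsat, h1, h2]
  | eq i j =>
    have h1 : v i = w i := h i (by simp [bd])
    have h2 : v j = w j := h j (by simp [bd])
    simp only [lsat, h1, h2]
  | lt i j =>
    have h1 : v i = w i := h i (by simp [bd])
    have h2 : v j = w j := h j (by simp [bd])
    simp only [lsat, h1, h2]
  | tp r i j k =>
    have h1 : v i = w i := h i (by simp [bd])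
    have h2 : v j = w j := h j (by simp [bd])
    have h3 : v k = w k := h k (by simp [bd])
    simp only [lsat, h1, h2, h3]
  | bot => exact Iff.rfl
  | imp φ ψ ih1 ih2 =>
    have h1 := ih1 (v := v) (w := w) (fun i hi => h i (lt_of_lt_of_le hi (le_max_left _ _)))
    have h2 := ih2 (v := v) (w := w) (fun i hi => h i (lt_of_lt_of_le hi (le_max_right _ _)))
    simp only [lsat, h1, h2]
  | all φ ih =>
    simp only [lsat]
    refine forall_congr' fun x => imp_congr_right fun _ => ih ?_
    intro i hi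
    cases i with
    | zero => rfl
    | succ i => exact h i (lt_trans (Nat.lt_succ_self i) hi)

section

variable {S : Type u} {S' : Type u'} {E lt : S → S → Prop} {E' lt' : S' → S' → Prop} (e : S ≃ S')

theorem isNum_map (hE : ∀ x y, E x y ↔ E' (e x) (e y)) (n : ℕ) (x : S) :
    isNum E n x ↔ isNum E' n (e x) := by
  induction n generalizing x with
  | zero =>
    simp only [isNum]
    constructor
    · intro h z hz
      apply h (e.symm z)
      rw [hE, e.apply_symm_apply]
      exact hz
    · intro h z hz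
      exact h (e z) ((hE z x).1 hz)
  | succ n ih =>
    simp only [isNum]
    constructor
    · rintro ⟨y, hy, h⟩
      refine ⟨e y, (ih y).1 hy, fun z => ?_⟩
      have h1 := h (e.symm z)
      rw [hE, hE, e.apply_symm_apply, e.symm_apply_eq] at h1
      exact h1
    · rintro ⟨y, hy, h⟩
      refine ⟨e.symm y, (ih _).2 (by rwa [e.apply_symm_apply]), fun z => ?_⟩
      have h1 := h (e z)
      rw [← hE] at h1
      rw [h1, hE z (e.symm y), e.apply_symm_apply, e.eq_symm_apply]

theorem lsat_map (hE : ∀ x y, E x y ↔ E' (e x) (e y)) {D : S → Prop} {D' : S' → Prop}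
    (hD : ∀ x, D x ↔ D' (e x)) (hl : ∀ x y, D x → D y → (lt x y ↔ lt' (e x) (e y))) (φ : LF) (v : ℕ → S)
    (hv : ∀ i, D (v i)) : lsat Φ E lt D φ v ↔ lsat Φ E' lt' D' φ (fun i => e (v i)) := by
  induction φ generalizing v with
  | mem i j => exact hE _ _
  | eq i j =>
    simp only [lsat]
    exact e.injective.eq_iff.symm
  | lt i j => exact hl _ _ (hv i) (hv j)
  | tp r i j k =>
    simp only [lsat]
    refine exists_congr fun a => exists_congr fun b => exists_congr fun c => ?_
    rw [isNum_map e hE a, isNum_map e hE b, isNum_map e hE c]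
  | bot => exact Iff.rfl
  | imp φ ψ ih1 ih2 =>
    simp only [lsat]
    rw [ih1 v hv, ih2 v hv]
  | all φ ih =>
    simp only [lsat]
    have key : ∀ x, (fun i => e (cns x v i)) = cns (e x) (fun i => e (v i)) := by
      intro x
      funext i
      cases i <;> rfl
    constructor
    · intro h x hx
      have hx' : D (e.symm x) := by rw [hD, e.apply_symm_apply]; exact hx
      have h1 := h (e.symm x) hx'
      rw [ih _ (by intro i; cases i with
        | zero => exact hx'
        | succ i => exact hv i), key, e.apply_symm_apply] at h1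
      exact h1
    · intro h x hx
      rw [ih _ (by intro i; cases i with
        | zero => exact hx
        | succ i => exact hv i), key]
      exact h (e x) ((hD x).1 hx)

/-- the image of a key -/
private def Key.mp {S : Type u} {S' : Type u'} (e : S → S') (k : Key S) : Key S' :=
  ⟨k.φ, e k.a, k.l.map e⟩

private theorem Key.mp_env {S : Type u} {S' : Type u'} (e : S → S') (k : Key S) (i : ℕ) :
    (k.mp e).env i = e (k.env i) := by
  have h : (e k.a :: k.l.map e) = (k.a :: k.l).map e := rfl
  simp only [Key.mp, Key.env]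
  rw [h, List.getD_map]

private theorem Key.mp_symm (k : Key S') : (k.mp e.symm).mp e = k := by
  rcases k with ⟨φ, a, l⟩
  simp [Key.mp]

private theorem Key.env_mem {D : S → Prop} {k : Key S} (hk : k.ok D) (i : ℕ) : D (k.env i) := by
  simp only [Key.env]
  by_cases hi : i < (k.a :: k.l).length
  · rw [List.getD_eq_getElem _ _ hi]
    have := List.getElem_mem hi
    rcases List.mem_cons.1 this with h | h
    · rw [h]; exact hk.1
    · exact hk.2 _ h
  · rw [List.getD_eq_default _ _ (not_lt.1 hi)]
    exact hk.1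

private theorem Key.ok_mp {D : S → Prop} {D' : S' → Prop} (hD : ∀ x, D x ↔ D' (e x)) (k : Key S) :
    k.ok D ↔ (k.mp e).ok D' := by
  simp only [Key.ok, Key.mp]
  refine and_congr (hD _) ?_
  constructor
  · intro h y hy
    obtain ⟨x, hx, rfl⟩ := List.mem_map.1 hy
    exact (hD x).1 (h x hx)
  · intro h y hy
    exact (hD y).2 (h _ (List.mem_map.2 ⟨y, hy, rfl⟩))

private theorem Key.ext'_mp (hE : ∀ x y, E x y ↔ E' (e x) (e y)) {D : S → Prop} {D' : S' → Prop}
    (hD : ∀ x, D x ↔ D' (e x)) (hl : ∀ x y, D x → D y → (lt x y ↔ lt' (e x) (e y))) {k : Key S}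
    (hk : k.ok D) (z : S) :
    k.ext' Φ E lt D z ↔ (k.mp e).ext' Φ E' lt' D' (e z) := by
  simp only [Key.ext']
  rw [← hD]
  refine and_congr_right fun hz => ?_
  rw [lsat_map e hE hD hl _ _ (by intro i; cases i with
    | zero => exact hz
    | succ i => exact Key.env_mem hk i)]
  have : (fun i => e (cns z k.env i)) = cns (e z) (k.mp e).env := by
    funext i
    cases i with
    | zero => rfl
    | succ i => exact (Key.mp_env e k i).symm
  rw [this]
  rfl

private theorem Key.dfs_mp (hE : ∀ x y, E x y ↔ E' (e x) (e y)) {D : S → Prop} {D' : S' → Prop}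
    (hD : ∀ x, D x ↔ D' (e x)) (hl : ∀ x y, D x → D y → (lt x y ↔ lt' (e x) (e y))) {k : Key S}
    (hk : k.ok D) (x : S) :
    k.dfs Φ E lt D x ↔ (k.mp e).dfs Φ E' lt' D' (e x) := by
  simp only [Key.dfs]
  constructor
  · intro h z
    have h1 := h (e.symm z)
    rw [hE, Key.ext'_mp e hE hD hl hk, e.apply_symm_apply] at h1
    exact h1
  · intro h z
    rw [hE, Key.ext'_mp e hE hD hl hk]
    exact h (e z)

private theorem lex_mp {D : S → Prop} (hl : ∀ x y, D x → D y → (lt x y ↔ lt' (e x) (e y))) :
    ∀ l l' : List S, (∀ x ∈ l, D x) → (∀ x ∈ l', D x) →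
      (List.Lex lt l l' ↔ List.Lex lt' (l.map e) (l'.map e))
  | [], [], _, _ => by simp
  | [], b :: l', _, _ => by simp
  | a :: l, [], _, _ => by simp
  | a :: l, b :: l', h, h' => by
    have ih := lex_mp hl l l' (fun x hx => h x (List.mem_cons_of_mem _ hx))
      (fun x hx => h' x (List.mem_cons_of_mem _ hx))
    have h1 := hl a b (h a List.mem_cons_self) (h' b List.mem_cons_self)
    simp only [List.map_cons]
    constructor
    · intro hh
      cases hh with
      | cons hh => exact List.Lex.cons (ih.1 hh)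
      | rel hh => exact List.Lex.rel (h1.1 hh)
    · intro hh
      rw [List.cons_lex_cons_iff] at hh
      rcases hh with hh | hh
      · exact List.Lex.rel (h1.2 hh)
      · have := e.injective hh.1
        subst this
        exact List.Lex.cons (ih.2 hh.2)

private theorem shortlex_mp {D : S → Prop} (hl : ∀ x y, D x → D y → (lt x y ↔ lt' (e x) (e y)))
    (l l' : List S) (h : ∀ x ∈ l, D x) (h' : ∀ x ∈ l', D x) :
      (List.Shortlex lt l l' ↔ List.Shortlex lt' (l.map e) (l'.map e)) := by
  rw [List.shortlex_def, List.shortlex_def, List.length_map, List.length_map,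
    lex_mp e hl l l' h h']

private theorem klt_mp {D : S → Prop} (hl : ∀ x y, D x → D y → (lt x y ↔ lt' (e x) (e y)))
    {k k' : Key S} (hk : k.ok D) (hk' : k'.ok D) :
      klt lt k k' ↔ klt lt' (k.mp e) (k'.mp e) := by
  simp only [klt, Key.mp]
  refine or_congr Iff.rfl (and_congr Iff.rfl ?_)
  have := shortlex_mp e hl (k.a :: k.l) (k'.a :: k'.l)
    (by intro x hx; rcases List.mem_cons.1 hx with h | h
        · rw [h]; exact hk.1
        · exact hk.2 x h)
    (by intro x hx; rcases List.mem_cons.1 hx with h | h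
        · rw [h]; exact hk'.1
        · exact hk'.2 x h)
  simpa using this

theorem Df_map (hE : ∀ x y, E x y ↔ E' (e x) (e y)) {D : S → Prop} {D' : S' → Prop}
    (hD : ∀ x, D x ↔ D' (e x)) (hl : ∀ x y, D x → D y → (lt x y ↔ lt' (e x) (e y))) (x : S) :
    Df Φ E lt D x ↔ Df Φ E' lt' D' (e x) := by
  simp only [Df]
  constructor
  · rintro ⟨k, hk, h⟩
    exact ⟨k.mp e, (Key.ok_mp e hD k).1 hk, (Key.dfs_mp e hE hD hl hk x).1 h⟩
  · rintro ⟨k, hk, h⟩
    have hk' : (k.mp e.symm).ok D := by
      rw [Key.ok_mp e hD, Key.mp_symm]; exact hk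
    refine ⟨k.mp e.symm, hk', ?_⟩
    rw [Key.dfs_mp e hE hD hl hk', Key.mp_symm]
    exact h

theorem less_map (hE : ∀ x y, E x y ↔ E' (e x) (e y)) {D : S → Prop} {D' : S' → Prop}
    (hD : ∀ x, D x ↔ D' (e x)) (hl : ∀ x y, D x → D y → (lt x y ↔ lt' (e x) (e y))) (x y : S) :
    less Φ E lt D x y ↔ less Φ E' lt' D' (e x) (e y) := by
  simp only [less]
  constructor
  · rintro ⟨k, hk, h, h2⟩
    refine ⟨k.mp e, (Key.ok_mp e hD k).1 hk, (Key.dfs_mp e hE hD hl hk x).1 h, ?_⟩
    intro k' hk' hy
    have hk2 : (k'.mp e.symm).ok D := by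
      rw [Key.ok_mp e hD, Key.mp_symm]; exact hk'
    have := h2 (k'.mp e.symm) hk2 (by
      rw [Key.dfs_mp e hE hD hl hk2, Key.mp_symm]; exact hy)
    rw [klt_mp e hl hk hk2, Key.mp_symm] at this
    exact this
  · rintro ⟨k, hk, h, h2⟩
    have hk2 : (k.mp e.symm).ok D := by
      rw [Key.ok_mp e hD, Key.mp_symm]; exact hk
    refine ⟨k.mp e.symm, hk2, by rw [Key.dfs_mp e hE hD hl hk2, Key.mp_symm]; exact h, ?_⟩
    intro k' hk' hy
    have := h2 (k'.mp e) ((Key.ok_mp e hD k').1 hk') ((Key.dfs_mp e hE hD hl hk' y).1 hy)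
    rw [klt_mp e hl hk2 hk', Key.mp_symm]
    exact this

end

theorem Coh.transport {S : Type u} {I : Type v} {S' : Type u'} {I' : Type v'} {E lt : S → S → Prop}
    {J : I → I → Prop} {lev : I → S → Prop} (h : Coh Φ E lt J lev) (e : S ≃ S') (f : I ≃ I') :
    Coh Φ (fun x y => E (e.symm x) (e.symm y)) (fun x y => lt (e.symm x) (e.symm y))
      (fun i j => J (f.symm i) (f.symm j)) (fun i x => lev (f.symm i) (e.symm x)) := by
  have hE : ∀ x y, (fun x y => E (e.symm x) (e.symm y)) x y ↔ E (e.symm x) (e.symm y) :=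
    fun _ _ => Iff.rfl
  have hsuc : ∀ j i, Suc (fun i j => J (f.symm i) (f.symm j)) j i → Suc J (f.symm j) (f.symm i) := by
    intro j i hji
    refine ⟨hji.1, fun k hk => ?_⟩
    have := hji.2 (f k) (by simpa using hk)
    rcases this with h1 | h1
    · left; rw [← h1]; simp
    · right; simpa using h1
  have hsuc' : ∀ j i, Suc J (f.symm j) (f.symm i) → Suc (fun i j => J (f.symm i) (f.symm j)) j i := by
    intro j i hji
    refine ⟨hji.1, fun k hk => ?_⟩
    have := hji.2 (f.symm k) hk
    rcases this with h1 | h1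
    · left; exact f.symm.injective h1
    · right; exact h1
  have hD : ∀ j x, (fun x => lev (f.symm j) (e.symm x)) x ↔ lev (f.symm j) (e.symm x) :=
    fun _ _ => Iff.rfl
  have hDf : ∀ j x, Df Φ (fun x y => E (e.symm x) (e.symm y)) (fun x y => lt (e.symm x) (e.symm y))
      (fun x => lev (f.symm j) (e.symm x)) x ↔ Df Φ E lt (lev (f.symm j)) (e.symm x) :=
    fun j x => Df_map e.symm (fun _ _ => Iff.rfl) (fun _ => Iff.rfl) (fun _ _ _ _ => Iff.rfl) x
  have hless : ∀ j x y, less Φ (fun x y => E (e.symm x) (e.symm y))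
      (fun x y => lt (e.symm x) (e.symm y)) (fun x => lev (f.symm j) (e.symm x)) x y ↔
      less Φ E lt (lev (f.symm j)) (e.symm x) (e.symm y) :=
    fun j x y => less_map e.symm (fun _ _ => Iff.rfl) (fun _ => Iff.rfl)
      (fun _ _ _ _ => Iff.rfl) x y
  refine ⟨?_, ?_, ?_, ?_, ?_, ?_, ?_, ?_, ?_, ?_, ?_, ?_⟩
  · intro x y hxy
    apply e.symm.injective
    apply h.ext
    intro z
    have := hxy (e z)
    simpa using this
  · intro i j k h1 h2
    exact h.Jtr _ _ _ h1 h2
  · intro i
    exact h.Jirr _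
  · intro i j
    rcases h.Jlin (f.symm i) (f.symm j) with h1 | h1 | h1
    · exact Or.inl h1
    · exact Or.inr (Or.inl (f.symm.injective h1))
    · exact Or.inr (Or.inr h1)
  · obtain ⟨x, hx⟩ := h.emp
    refine ⟨e x, fun z hz => hx (e.symm z) (by simpa using hz)⟩
  · intro x
    obtain ⟨i, hi⟩ := h.tot (e.symm x)
    exact ⟨f i, by simpa using hi⟩
  · intro i hi x
    have := h.low (f.symm i) (fun j hj => hi (f j) (by simpa using hj)) (e.symm x)
    rw [this]
    constructor
    · intro h1 z hz
      exact h1 _ hz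
    · intro h1 z hz
      exact h1 (e z) (by simpa using hz)
  · intro j i hji x
    have := h.suc _ _ (hsuc j i hji) (e.symm x)
    rw [this]
    exact (hDf j x).symm
  · intro j i hji k hk
    have hk' : (k.mp e.symm).ok (lev (f.symm j)) :=
      (Key.ok_mp e.symm (D := fun x => lev (f.symm j) (e.symm x)) (fun _ => Iff.rfl) k).1 hk
    obtain ⟨x, hx⟩ := h.sucex _ _ (hsuc j i hji) (k.mp e.symm) hk'
    refine ⟨e x, ?_⟩
    rw [Key.dfs_mp e.symm (E' := E) (lt' := lt) (D' := lev (f.symm j)) (fun _ _ => Iff.rfl)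
      (fun _ => Iff.rfl) (fun _ _ _ _ => Iff.rfl) hk]
    simpa using hx
  · intro i hi hlim x
    have h1 : ∃ j, J j (f.symm i) := by
      obtain ⟨j, hj⟩ := hi
      exact ⟨f.symm j, hj⟩
    have h2 : ∀ j, ¬ Suc J j (f.symm i) := by
      intro j hj
      apply hlim (f j)
      apply hsuc'
      simpa using hj
    rw [h.lim _ h1 h2]
    constructor
    · rintro ⟨j, hj, hx⟩
      exact ⟨f j, by simpa using hj, by simpa using hx⟩
    · rintro ⟨j, hj, hx⟩
      exact ⟨f.symm j, hj, hx⟩
  · intro i hi x y hx hy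
    exact h.ltlow (f.symm i) (fun j hj => hi (f j) (by simpa using hj)) _ _ hx hy
  · intro j i hji x y hx hy
    have := h.ltsuc _ _ (hsuc j i hji) (e.symm x) (e.symm y) hx hy
    rw [← hless j x y] at this
    exact this

/-- coding of a structure on `ℕ` by a function -/
theorem exists_b (E lt J V : ℕ → ℕ → Prop) : ∃ b : ℕ → Bool,
    (∀ x y, Eb b x y ↔ E x y) ∧ (∀ x y, Lb b x y ↔ lt x y) ∧ (∀ x y, Jb b x y ↔ J x y) ∧
      ∀ x y, Vb b x y ↔ V x y := by
  classical
  refine ⟨fun n => if n % 4 = 0 then decide (E (Nat.unpair (n / 4)).1 (Nat.unpair (n / 4)).2)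
    else if n % 4 = 1 then decide (lt (Nat.unpair (n / 4)).1 (Nat.unpair (n / 4)).2)
    else if n % 4 = 2 then decide (J (Nat.unpair (n / 4)).1 (Nat.unpair (n / 4)).2)
    else decide (V (Nat.unpair (n / 4)).1 (Nat.unpair (n / 4)).2), ?_, ?_, ?_, ?_⟩
  · intro x y
    have h1 : 4 * Nat.pair x y % 4 = 0 := by omega
    have h2 : 4 * Nat.pair x y / 4 = Nat.pair x y := by omega
    simp only [Eb, h1, h2, Nat.unpair_pair, if_true, decide_eq_true_eq]
  · intro x y
    have h1 : (4 * Nat.pair x y + 1) % 4 = 1 := by omega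
    have h2 : (4 * Nat.pair x y + 1) / 4 = Nat.pair x y := by omega
    simp only [Lb, h1, h2, Nat.unpair_pair]
    simp
  · intro x y
    have h1 : (4 * Nat.pair x y + 2) % 4 = 2 := by omega
    have h2 : (4 * Nat.pair x y + 2) / 4 = Nat.pair x y := by omega
    simp only [Jb, h1, h2, Nat.unpair_pair]
    simp
  · intro x y
    have h1 : (4 * Nat.pair x y + 3) % 4 = 3 := by omega
    have h2 : (4 * Nat.pair x y + 3) / 4 = Nat.pair x y := by omega
    simp only [Vb, h1, h2, Nat.unpair_pair]
    simp

theorem exists_t (Φ : ℕ → ℕ → ℕ → ℕ → Prop) : ∃ t : ℕ → Bool, Ph t = Φ := by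
  classical
  refine ⟨fun n => decide (Φ (Nat.unpair (Nat.unpair n).1).1 (Nat.unpair (Nat.unpair n).1).2
    (Nat.unpair (Nat.unpair n).2).1 (Nat.unpair (Nat.unpair n).2).2), ?_⟩
  funext r a b c
  simp only [Ph, Nat.unpair_pair, decide_eq_true_eq]

/-- coherent structures with countably infinite sets of elements and indices have codes -/
theorem exists_code {S : Type u} {I : Type v} {E lt : S → S → Prop} {J : I → I → Prop}
    {lev : I → S → Prop} {t : ℕ → Bool} (h : Coh (Ph t) E lt J lev) (e : S ≃ ℕ) (f : I ≃ ℕ) :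
    ∃ b : ℕ → Bool, Tb b t ∧ (∀ x y, Eb b (e x) (e y) ↔ E x y) ∧ (∀ x y, Lb b (e x) (e y) ↔ lt x y) ∧
      (∀ i j, Jb b (f i) (f j) ↔ J i j) ∧ ∀ i x, Vb b (f i) (e x) ↔ lev i x := by
  obtain ⟨b, h1, h2, h3, h4⟩ := exists_b (fun x y => E (e.symm x) (e.symm y))
    (fun x y => lt (e.symm x) (e.symm y)) (fun i j => J (f.symm i) (f.symm j))
    (fun i x => lev (f.symm i) (e.symm x))
  have h5 := h.transport e f
  have e1 : Eb b = fun x y => E (e.symm x) (e.symm y) := by
    funext x y; exact propext (h1 x y)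
  have e2 : Lb b = fun x y => lt (e.symm x) (e.symm y) := by
    funext x y; exact propext (h2 x y)
  have e3 : Jb b = fun i j => J (f.symm i) (f.symm j) := by
    funext x y; exact propext (h3 x y)
  have e4 : Vb b = fun i x => lev (f.symm i) (e.symm x) := by
    funext x y; exact propext (h4 x y)
  refine ⟨b, ?_, ?_, ?_, ?_, ?_⟩
  · rw [Tb, e1, e2, e3, e4]
    exact h5
  · intro x y; rw [h1]; simp
  · intro x y; rw [h2]; simp
  · intro x y; rw [h3]; simp
  · intro x y; rw [h4]; simp

end LGr
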