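import Pool.Agent.LGr.Tree
import Pool.Agent.LGr.Bor
import Pool.Agent.LGr.Gm
import Pool.Agent.LGr.Trn

/-! # Existence of the parameter and of the ground model

(problem MP_ba5606_gt, ARH Part II, block A; architect helper69; no sorry in this file) -/

namespace LGr

open STP WCal

/-- the parameter -/
theorem exists_param (T' : ℕ → List ℕ → List ℕ → List ℕ → Prop) :
    ∃ (T : ℕ → List ℕ → List ℕ → List ℕ → Prop) (t : ℕ → Bool), (∀ i, T (i + 2) = T' i) ∧
      ∀ δ : Ordinal.{0}, Order.IsSuccLimit δ → Ordinal.omega0 < δ → (U (Ph t) δ).Countable →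
        CPY.Mod (U (Ph t) δ) → GMod T t δ := by
  obtain ⟨T0, h0⟩ := exists_tree (meas_B1.analyticSet)
  obtain ⟨T1, h1⟩ := exists_tree (meas_B2.analyticSet)
  let T : ℕ → List ℕ → List ℕ → List ℕ → Prop := fun i =>
    match i with
    | 0 => T0
    | 1 => T1
    | i + 2 => T' i
  obtain ⟨t, ht⟩ := exists_t (FF T)
  exact ⟨T, t, fun i => rfl, fun δ h2 h3 h4 h5 => ⟨ht, h2, h3, h4, h5, h0, h1⟩⟩

/-- the ground model -/
theorem exists_gmod (T' : ℕ → List ℕ → List ℕ → List ℕ → Prop) :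
    ∃ (T : ℕ → List ℕ → List ℕ → List ℕ → Prop) (t : ℕ → Bool) (δ : Ordinal.{0}),
      (∀ i, T (i + 2) = T' i) ∧ GMod T t δ := by
  obtain ⟨T, t, hT, h⟩ := exists_param T'
  obtain ⟨δ, h2, h3, h4, h5⟩ := exists_ground (Ph t)
  exact ⟨T, t, δ, hT, h δ h2 h3 h4 h5⟩

end LGr
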