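import Pool.Agent.LGr.Tht

/-! # Transitive models are closed under `α ↦ α + ω`

(problem MP_ba5606_gt, ARH Part II, block A; architect helper69)

PROOFS.
* `add_om_mem`: in `ZU` (`ZU/Nat.lean`): `F n := itr (fun _ y => sc y) a n` is the iteration of the successor, `F` is definable (`df_itr`), so `x := bU om F` (`bU A F = ⋃ {F a | a ∈ A}`, `mem_bU`) is an element of the model. By induction the
  value of `F (nt n)` for `a = α.toZFSet` is `(α + n).toZFSet` (`Ordinal.toZFSet_add_one`, transitivity of `W`). Hence `x.1 = (α + ω).toZFSet`: the elements are the `β.toZFSet` with `β < α + n` for some `n` (`Ordinal.mem_toZFSet_iff` or the like).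
* `IsTht.add_om`: moreover `x` is countable (`ZU.ctb_bU` with `wo_of`; `F (nt n)` is countable by induction: `sc y = cup y (sg y)`, `Ctb.cup`, `ctb_sg`), so `α + ω < θ` by `lt_of_ctb`.
* `exists_lim`: `α + ω` is a limit ordinal `> α`. -/

namespace LGr

open STP WCal

variable {W : Set ZFSet.{0}} [hW : Fact (CPY.Mod W)]

private theorem df_F (a : W) : ZU.DF fun v : ℕ → W => ZU.itr (fun _ y => ZU.sc y) a (v 0) :=
  ZU.df_itr (F := fun _ y _ => ZU.sc y) (a := fun _ => a) (ZU.df_sc (ZU.df_var 1)) (ZU.df_const a)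
    (ZU.df_var 0)

private theorem F_val {α : Ordinal.{0}} (h : α.toZFSet ∈ W) (n : ℕ) :
    (ZU.itr (fun _ y => ZU.sc y) (⟨α.toZFSet, h⟩ : W) (ZU.nt n)).1 = (α + n).toZFSet := by
  have hF : ZU.DF fun v : ℕ → W => (fun _ y => ZU.sc y) (v 0) (v 1) := ZU.df_sc (ZU.df_var 1)
  induction n with
  | zero =>
    rw [ZU.nt_zero, ZU.itr_zero hF, Nat.cast_zero, add_zero]
  | succ n ih =>
    rw [ZU.itr_succ hF, Nat.cast_succ, ← add_assoc, Ordinal.toZFSet_add_one, ← ih]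
    refine ZFSet.ext fun z => ?_
    rw [ZFSet.mem_insert_iff]
    constructor
    · intro hz
      have hzW : z ∈ W := hW.out.trans _ (ZU.sc (ZU.itr (fun _ y => ZU.sc y)
        (⟨α.toZFSet, h⟩ : W) (ZU.nt n))).2 _ hz
      have h1 : (⟨z, hzW⟩ : W) ∈ ZU.sc (ZU.itr (fun _ y => ZU.sc y)
        (⟨α.toZFSet, h⟩ : W) (ZU.nt n)) := hz
      rcases ZU.mem_sc.1 h1 with h2 | h2
      · exact Or.inr h2
      · exact Or.inl (congrArg Subtype.val h2)
    · rintro (rfl | hz)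
      · have h1 : ZU.itr (fun _ y => ZU.sc y) (⟨α.toZFSet, h⟩ : W) (ZU.nt n) ∈
            ZU.sc (ZU.itr (fun _ y => ZU.sc y) (⟨α.toZFSet, h⟩ : W) (ZU.nt n)) :=
          ZU.mem_sc.2 (Or.inr rfl)
        exact h1
      · have hzW : z ∈ W := hW.out.trans _ (ZU.itr (fun _ y => ZU.sc y)
          (⟨α.toZFSet, h⟩ : W) (ZU.nt n)).2 _ hz
        have h1 : (⟨z, hzW⟩ : W) ∈ ZU.sc (ZU.itr (fun _ y => ZU.sc y)
          (⟨α.toZFSet, h⟩ : W) (ZU.nt n)) := ZU.mem_sc.2 (Or.inl hz)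
        exact h1

private theorem bU_val {α : Ordinal.{0}} (h : α.toZFSet ∈ W) :
    (ZU.bU ZU.om fun x => ZU.itr (fun _ y => ZU.sc y) (⟨α.toZFSet, h⟩ : W) x).1 =
      (α + Ordinal.omega0).toZFSet := by
  refine ZFSet.ext fun z => ?_
  constructor
  · intro hz
    have hzW : z ∈ W := hW.out.trans _ (ZU.bU ZU.om fun x => ZU.itr (fun _ y => ZU.sc y)
      (⟨α.toZFSet, h⟩ : W) x).2 _ hz
    have h1 : (⟨z, hzW⟩ : W) ∈ (ZU.bU ZU.om fun x => ZU.itr (fun _ y => ZU.sc y)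
      (⟨α.toZFSet, h⟩ : W) x) := hz
    obtain ⟨x, hx, h2⟩ := (ZU.mem_bU (df_F _)).1 h1
    obtain ⟨n, rfl⟩ := ZU.mem_om.1 hx
    have h3 : z ∈ (α + n).toZFSet := by
      rw [← F_val h n]
      exact h2
    exact Ordinal.toZFSet_subset_toZFSet_iff.2
      (add_le_add_right (Ordinal.nat_lt_omega0 n).le α) h3
  · intro hz
    obtain ⟨β, hβ, rfl⟩ := Ordinal.mem_toZFSet_iff.1 hz
    obtain ⟨γ, hγ, hβγ⟩ := (Ordinal.lt_add_iff Ordinal.omega0_ne_zero).1 hβ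
    obtain ⟨n, rfl⟩ := Ordinal.lt_omega0.1 hγ
    have h3 : β < α + ((n + 1 : ℕ) : Ordinal.{0}) := by
      rw [Nat.cast_succ, ← add_assoc]
      exact Order.lt_add_one_iff.2 hβγ
    have h4 : β.toZFSet ∈ (ZU.itr (fun _ y => ZU.sc y) (⟨α.toZFSet, h⟩ : W) (ZU.nt (n + 1))).1 := by
      rw [F_val h (n + 1)]
      exact Ordinal.toZFSet_mem_toZFSet_iff.2 h3
    have hzW : β.toZFSet ∈ W := hW.out.trans _ (ZU.itr (fun _ y => ZU.sc y)
      (⟨α.toZFSet, h⟩ : W) (ZU.nt (n + 1))).2 _ h4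
    have h5 : (⟨β.toZFSet, hzW⟩ : W) ∈ (ZU.bU ZU.om fun x => ZU.itr (fun _ y => ZU.sc y)
      (⟨α.toZFSet, h⟩ : W) x) := (ZU.mem_bU (df_F _)).2 ⟨ZU.nt (n + 1), ZU.nt_mem_om _, h4⟩
    exact h5

theorem add_om_mem {α : Ordinal.{0}} (h : α.toZFSet ∈ W) : (α + Ordinal.omega0).toZFSet ∈ W := by
  rw [← bU_val h]
  exact (ZU.bU ZU.om fun x => ZU.itr (fun _ y => ZU.sc y) (⟨α.toZFSet, h⟩ : W) x).2

theorem IsTht.add_om {θ : Ordinal.{0}} (h : IsTht W θ) {α : Ordinal.{0}} (hα : α < θ) : α + Ordinal.omega0 < θ := by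
  refine h.lt_of_ctb (add_om_mem (h.lt_mem hα)) ?_
  have h1 : (⟨(α + Ordinal.omega0).toZFSet, add_om_mem (h.lt_mem hα)⟩ : W) =
      ZU.bU ZU.om fun x => ZU.itr (fun _ y => ZU.sc y) (⟨α.toZFSet, h.lt_mem hα⟩ : W) x :=
    Subtype.ext (bU_val (h.lt_mem hα)).symm
  rw [h1]
  have hF : ZU.DF fun v : ℕ → W => (fun _ y => ZU.sc y) (v 0) (v 1) := ZU.df_sc (ZU.df_var 1)
  refine ZU.ctb_bU (wo_of W) (df_F _) ZU.ctb_om fun x hx => ?_
  obtain ⟨n, rfl⟩ := ZU.mem_om.1 hx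
  induction n with
  | zero =>
    rw [ZU.nt_zero, ZU.itr_zero hF]
    exact h.cnt hα
  | succ n ih =>
    rw [ZU.itr_succ hF]
    exact (ih (ZU.nt_mem_om n)).cup (ZU.ctb_sg _)

theorem lim_add_om (α : Ordinal.{0}) : Order.IsSuccLimit (α + Ordinal.omega0) ∧ α < α + Ordinal.omega0 :=
  ⟨Ordinal.isSuccLimit_add α Ordinal.isSuccLimit_omega0, by
    have h := add_lt_add_right Ordinal.omega0_pos α
    simpa using h⟩

/-- in the ground model -/
theorem exists_lim {Φ : ℕ → ℕ → ℕ → ℕ → Prop} {δ : Ordinal.{0}} (hδ : Order.IsSuccLimit δ)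
    [Fact (CPY.Mod (U Φ δ))] {α : Ordinal.{0}} (hα : α < δ) : ∃ β, α < β ∧ β < δ ∧ Order.IsSuccLimit β := by
  refine ⟨α + Ordinal.omega0, (lim_add_om α).2, ?_, (lim_add_om α).1⟩
  exact (ord_mem (Φ := Φ) hδ).1 (add_om_mem ((ord_mem hδ).2 hα))

end LGr
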