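import Pool.Agent.LGr.OrdL
import Pool.Agent.LGr.Trn

/-! # Coherent well-founded structures: collapse

(problem MP_ba5606_gt, ARH Part II, block A; architect helper69)

PROOFS.
* `Coh.E_wf`: every element `x` has a first level (`tot`, `J` well-founded). If `E y x` then the first level of `y` is `J`-below the first level `i` of `x`: `i` is not a limit (`lim`), `i` is not the lowest level
  (`low`: then `x` has no elements), so `Suc j i` for some `j` (linearity) and `x` is a definable subset of `lev j` (`suc`), so `lev j y`. The first level of `y` is `j` or below.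
* `exists_rho`: `ρ i := sup {ρ j + 1 | J j i}` in `Ordinal.{0}` by recursion along `J` (`Small.{0} I`); by linearity the range is an initial segment.
* `exists_pi`: Mostowski collapse: `π x := ZFSet.range (fun y : {y // E y x} => π y)` by recursion along `E` (`Small.{0} S`). Injectivity: `E`-induction and `ext`.
* `pi_num`: `isNum E n x ↔ isNum (∈) n (π x)` by induction on `n` from injectivity and the description of the elements of `π x`. -/

universe u v

namespace LGr

open STP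

variable {Φ : ℕ → ℕ → ℕ → ℕ → Prop} {S : Type u} {I : Type v} {E lt : S → S → Prop} {J : I → I → Prop}
  {lev : I → S → Prop}

theorem Coh.E_wf (h : Coh Φ E lt J lev) (hw : WellFounded J) : WellFounded E := by
  have h1 : ∀ x, ∃ i, lev i x ∧ ∀ k, J k i → ¬ lev k x := by
    intro x
    obtain ⟨i, hi, h2⟩ := hw.has_min {i | lev i x} (h.tot x)
    exact ⟨i, hi, fun k hk hx => h2 k hx hk⟩
  choose g hg hg' using h1
  refine Subrelation.wf (r := InvImage J g) ?_ (InvImage.wf g hw)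
  intro y x hyx
  have h2 : ∃ j, J j (g x) := by
    by_contra hcon
    push Not at hcon
    exact (h.low (g x) hcon x).1 (hg x) y hyx
  have h3 : ∃ j, Suc J j (g x) := by
    by_contra hcon
    push Not at hcon
    obtain ⟨j, hj, hx⟩ := (h.lim (g x) h2 hcon x).1 (hg x)
    exact hg' x j hj hx
  obtain ⟨j, hj⟩ := h3
  obtain ⟨k, -, hk⟩ := (h.suc j (g x) hj x).1 (hg x)
  have h4 : lev j y := ((hk y).1 hyx).1
  change J (g y) (g x)
  rcases h.Jlin (g y) j with h5 | h5 | h5
  · exact h.Jtr _ _ _ h5 hj.1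
  · rw [h5]
    exact hj.1
  · exact absurd h4 (hg' y j h5)

theorem exists_rho [Small.{0} I] (hw : WellFounded J) (htr : ∀ i j k, J i j → J j k → J i k)
    (hlin : ∀ i j, J i j ∨ i = j ∨ J j i) :
    ∃ ρ : I → Ordinal.{0}, (∀ i j, J i j ↔ ρ i < ρ j) ∧ ∀ i α, α < ρ i → ∃ j, ρ j = α := by
  let e : I ≃ Shrink.{0} I := equivShrink I
  let r : Shrink.{0} I → Shrink.{0} I → Prop := fun a b => J (e.symm a) (e.symm b)
  have : IsWellOrder (Shrink.{0} I) r :=
    { wf := InvImage.wf e.symm hw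
      trichotomous := fun a b h1 h2 => by
        rcases hlin (e.symm a) (e.symm b) with h3 | h3 | h3
        · exact absurd h3 h1
        · exact e.symm.injective h3
        · exact absurd h3 h2 }
  refine ⟨fun i => Ordinal.typein r (e i), fun i j => ?_, fun i α hα => ?_⟩
  · rw [Ordinal.typein_lt_typein]
    change J i j ↔ J (e.symm (e i)) (e.symm (e j))
    rw [e.symm_apply_apply, e.symm_apply_apply]
  · obtain ⟨a, ha⟩ := Ordinal.typein_surj r (hα.trans (Ordinal.typein_lt_type r (e i)))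
    refine ⟨e.symm a, ?_⟩
    change Ordinal.typein r (e (e.symm a)) = α
    rw [e.apply_symm_apply]
    exact ha

theorem exists_pi [Small.{0} S] (hw : WellFounded E) (hext : ∀ x y, (∀ z, E z x ↔ E z y) → x = y) :
    ∃ π : S → ZFSet.{0}, Function.Injective π ∧ ∀ x z, z ∈ π x ↔ ∃ y, E y x ∧ π y = z := by
  let π : S → ZFSet.{0} := hw.fix fun x IH => ZFSet.range fun y : {y // E y x} => IH y.1 y.2
  have h1 : ∀ x z, z ∈ π x ↔ ∃ y, E y x ∧ π y = z := by
    intro x z
    have h2 : π x = ZFSet.range fun y : {y // E y x} => π y.1 := hw.fix_eq _ x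
    rw [h2, ZFSet.mem_range]
    constructor
    · rintro ⟨y, hy⟩
      exact ⟨y.1, y.2, hy⟩
    · rintro ⟨y, hy, hz⟩
      exact ⟨⟨y, hy⟩, hz⟩
  refine ⟨π, ?_, h1⟩
  intro x
  induction x using hw.induction with
  | _ x ih =>
    intro y hxy
    refine hext x y fun z => ⟨fun hz => ?_, fun hz => ?_⟩
    · have h2 : π z ∈ π y := by
        rw [← hxy]
        exact (h1 x _).2 ⟨z, hz, rfl⟩
      obtain ⟨z', hz', h3⟩ := (h1 y _).1 h2
      rw [ih z hz h3.symm]
      exact hz'
    · have h2 : π z ∈ π x := by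
        rw [hxy]
        exact (h1 y _).2 ⟨z, hz, rfl⟩
      obtain ⟨z', hz', h3⟩ := (h1 x _).1 h2
      rw [← ih z' hz' h3]
      exact hz'

private theorem mem_pi' {π : S → ZFSet.{0}} (hi : Function.Injective π)
    (hp : ∀ x z, z ∈ π x ↔ ∃ y, E y x ∧ π y = z) (x y : S) : π y ∈ π x ↔ E y x := by
  rw [hp]
  constructor
  · rintro ⟨y', h1, h2⟩
    rw [← hi h2]
    exact h1
  · intro h
    exact ⟨y, h, rfl⟩

theorem pi_num {π : S → ZFSet.{0}} (hi : Function.Injective π) (hp : ∀ x z, z ∈ π x ↔ ∃ y, E y x ∧ π y = z)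
    (n : ℕ) (x : S) : isNum E n x ↔ isNum (S := ZFSet.{0}) (· ∈ ·) n (π x) := by
  induction n generalizing x with
  | zero =>
    simp only [isNum]
    constructor
    · intro h z hz
      obtain ⟨y, hy, -⟩ := (hp x z).1 hz
      exact h y hy
    · intro h z hz
      exact h (π z) ((mem_pi' hi hp x z).2 hz)
  | succ n ih =>
    simp only [isNum]
    constructor
    · rintro ⟨y, hy, h⟩
      refine ⟨π y, (ih y).1 hy, fun z => ?_⟩
      constructor
      · intro hz
        obtain ⟨w, hw, rfl⟩ := (hp x z).1 hz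
        rcases (h w).1 hw with h1 | h1
        · exact Or.inl ((mem_pi' hi hp y w).2 h1)
        · rw [h1]
          exact Or.inr rfl
      · rintro (hz | rfl)
        · obtain ⟨w, hw, rfl⟩ := (hp y z).1 hz
          exact (mem_pi' hi hp x w).2 ((h w).2 (Or.inl hw))
        · exact (mem_pi' hi hp x y).2 ((h y).2 (Or.inr rfl))
    · rintro ⟨y', hy, h⟩
      have h1 : y' ∈ π x := (h y').2 (Or.inr rfl)
      obtain ⟨y, -, rfl⟩ := (hp x y').1 h1
      refine ⟨y, (ih y).2 hy, fun z => ?_⟩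
      rw [← mem_pi' hi hp x z, ← mem_pi' hi hp y z]
      refine (h (π z)).trans (or_congr Iff.rfl ⟨fun h2 => hi h2, fun h2 => ?_⟩)
      rw [h2]

section keys

variable {π : S → ZFSet.{0}} (hi : Function.Injective π)
  (hp : ∀ x z, z ∈ π x ↔ ∃ y, E y x ∧ π y = z)
  {D : S → Prop} {D' : ZFSet.{0} → Prop} {lt' : ZFSet.{0} → ZFSet.{0} → Prop}
  (h1 : ∀ x, D x → D' (π x))
  (h2 : ∀ z, D' z → ∃ x, D x ∧ π x = z) (h3 : ∀ x y, D x → D y → (lt x y ↔ lt' (π x) (π y)))

include hi hp h1 h2 h3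

private theorem lsat_pi (φ : LF) (v : ℕ → S) (hv : ∀ i, D (v i)) :
    lsat Φ E lt D φ v ↔ lsat Φ (· ∈ ·) lt' D' φ (fun i => π (v i)) := by
  induction φ generalizing v with
  | mem i j => exact (mem_pi' hi hp _ _).symm
  | eq i j =>
    simp only [lsat]
    exact hi.eq_iff.symm
  | lt i j => exact h3 _ _ (hv i) (hv j)
  | tp r i j k =>
    simp only [lsat]
    refine exists_congr fun a => exists_congr fun b => exists_congr fun c => ?_
    rw [pi_num hi hp a, pi_num hi hp b, pi_num hi hp c]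
  | bot => exact Iff.rfl
  | imp φ ψ ih1 ih2 =>
    simp only [lsat]
    rw [ih1 v hv, ih2 v hv]
  | all φ ih =>
    simp only [lsat]
    have key : ∀ x, (fun i => π (cns x v i)) = cns (π x) (fun i => π (v i)) := by
      intro x
      funext i
      cases i <;> rfl
    have hc : ∀ x, D x → ∀ i, D (cns x v i) := by
      intro x hx i
      cases i with
      | zero => exact hx
      | succ i => exact hv i
    constructor
    · intro h z hz
      obtain ⟨x, hx, rfl⟩ := h2 z hz
      have h4 := h x hx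
      rw [ih _ (hc x hx), key] at h4
      exact h4
    · intro h x hx
      rw [ih _ (hc x hx), key]
      exact h (π x) (h1 x hx)

omit hi hp h1 h2 h3 in
/-- the image of a key -/
private def kmp (π : S → ZFSet.{0}) (k : Key S) : Key ZFSet.{0} := ⟨k.φ, π k.a, k.l.map π⟩

omit hi hp h1 h2 h3 in
private theorem kmp_env (π : S → ZFSet.{0}) (k : Key S) (i : ℕ) :
    (kmp π k).env i = π (k.env i) := by
  have h : (π k.a :: k.l.map π) = (k.a :: k.l).map π := rfl
  simp only [kmp, Key.env]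
  rw [h, List.getD_map]

omit hi hp h1 h2 h3 in
private theorem env_mem' {k : Key S} (hk : k.ok D) (i : ℕ) : D (k.env i) := by
  simp only [Key.env]
  by_cases hi : i < (k.a :: k.l).length
  · rw [List.getD_eq_getElem _ _ hi]
    have := List.getElem_mem hi
    rcases List.mem_cons.1 this with h | h
    · rw [h]; exact hk.1
    · exact hk.2 _ h
  · rw [List.getD_eq_default _ _ (not_lt.1 hi)]
    exact hk.1

omit hi hp h2 h3 in
private theorem kmp_ok {k : Key S} (hk : k.ok D) : (kmp π k).ok D' := by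
  refine ⟨h1 _ hk.1, fun y hy => ?_⟩
  obtain ⟨x, hx, rfl⟩ := List.mem_map.1 hy
  exact h1 x (hk.2 x hx)

omit hi hp h1 h3 in
private theorem list_pull (l : List ZFSet.{0}) (hl : ∀ y ∈ l, D' y) :
    ∃ l' : List S, (∀ y ∈ l', D y) ∧ l'.map π = l := by
  induction l with
  | nil => exact ⟨[], fun y hy => absurd hy List.not_mem_nil, rfl⟩
  | cons a l ih =>
    obtain ⟨l', h4, h5⟩ := ih fun y hy => hl y (List.mem_cons_of_mem _ hy)
    obtain ⟨x, hx, rfl⟩ := h2 a (hl a List.mem_cons_self)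
    refine ⟨x :: l', fun y hy => ?_, by rw [List.map_cons, h5]⟩
    rcases List.mem_cons.1 hy with h6 | h6
    · rw [h6]
      exact hx
    · exact h4 y h6

omit hi hp h1 h3 in
private theorem kmp_pull (k : Key ZFSet.{0}) (hk : k.ok D') :
    ∃ k' : Key S, k'.ok D ∧ kmp π k' = k := by
  obtain ⟨x, hx, h4⟩ := h2 k.a hk.1
  obtain ⟨l', h5, h6⟩ := list_pull h2 k.l hk.2
  refine ⟨⟨k.φ, x, l'⟩, ⟨hx, h5⟩, ?_⟩
  rcases k with ⟨φ, a, l⟩
  simp only [kmp]
  rw [h4, h6]

omit hp h2 h3 in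
private theorem D_iff (hD : ∀ z, D' z → ∃ x, D x ∧ π x = z) (x : S) : D x ↔ D' (π x) := by
  refine ⟨h1 x, fun h => ?_⟩
  obtain ⟨y, hy, h4⟩ := hD _ h
  rw [← hi h4]
  exact hy

private theorem ext_kmp {k : Key S} (hk : k.ok D) (z : S) :
    k.ext' Φ E lt D z ↔ (kmp π k).ext' Φ (· ∈ ·) lt' D' (π z) := by
  simp only [Key.ext']
  rw [← D_iff hi h1 h2 z]
  refine and_congr_right fun hz => ?_
  have hc : ∀ i, D (cns z k.env i) := by
    intro i
    cases i with
    | zero => exact hz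
    | succ i => exact env_mem' hk i
  rw [lsat_pi hi hp h1 h2 h3 _ _ hc]
  have : (fun i => π (cns z k.env i)) = cns (π z) (kmp π k).env := by
    funext i
    cases i with
    | zero => rfl
    | succ i => exact (kmp_env π k i).symm
  rw [this]
  rfl

private theorem dfs_kmp {k : Key S} (hk : k.ok D) (x : S) :
    k.dfs Φ E lt D x ↔ (kmp π k).dfs Φ (· ∈ ·) lt' D' (π x) := by
  simp only [Key.dfs]
  constructor
  · intro h z
    constructor
    · intro hz
      obtain ⟨y, hy, rfl⟩ := (hp x z).1 hz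
      exact (ext_kmp hi hp h1 h2 h3 hk y).1 ((h y).1 hy)
    · intro hz
      obtain ⟨y, hy, rfl⟩ := h2 z hz.1
      exact (mem_pi' hi hp x y).2 ((h y).2 ((ext_kmp hi hp h1 h2 h3 hk y).2 hz))
  · intro h z
    rw [← mem_pi' hi hp x z, ext_kmp hi hp h1 h2 h3 hk]
    exact h (π z)

omit hp h1 h2 in
private theorem lex_kmp : ∀ l l' : List S, (∀ x ∈ l, D x) → (∀ x ∈ l', D x) →
      (List.Lex lt l l' ↔ List.Lex lt' (l.map π) (l'.map π))
  | [], [], _, _ => by simp
  | [], b :: l', _, _ => by simp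
  | a :: l, [], _, _ => by simp
  | a :: l, b :: l', h, h' => by
    have ih := lex_kmp l l' (fun x hx => h x (List.mem_cons_of_mem _ hx))
      (fun x hx => h' x (List.mem_cons_of_mem _ hx))
    have h4 := h3 a b (h a List.mem_cons_self) (h' b List.mem_cons_self)
    simp only [List.map_cons]
    constructor
    · intro hh
      cases hh with
      | cons hh => exact List.Lex.cons (ih.1 hh)
      | rel hh => exact List.Lex.rel (h4.1 hh)
    · intro hh
      rw [List.cons_lex_cons_iff] at hh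
      rcases hh with hh | hh
      · exact List.Lex.rel (h4.2 hh)
      · have := hi hh.1
        subst this
        exact List.Lex.cons (ih.2 hh.2)

omit hp h1 h2 in
private theorem klt_kmp {k k' : Key S} (hk : k.ok D) (hk' : k'.ok D) :
    klt lt k k' ↔ klt lt' (kmp π k) (kmp π k') := by
  have m : ∀ {k : Key S}, k.ok D → ∀ x ∈ k.a :: k.l, D x := by
    intro k hk x hx
    rcases List.mem_cons.1 hx with h4 | h4
    · rw [h4]
      exact hk.1
    · exact hk.2 x h4
  simp only [klt, kmp]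
  refine or_congr Iff.rfl (and_congr Iff.rfl ?_)
  rw [List.shortlex_def, List.shortlex_def]
  have h5 := lex_kmp hi h3 (k.a :: k.l) (k'.a :: k'.l) (m hk) (m hk')
  rw [List.map_cons, List.map_cons] at h5
  rw [h5]
  simp only [List.length_cons, List.length_map]

end keys

/-- one step: definable subsets of isomorphic levels -/
theorem Df_pi {π : S → ZFSet.{0}} (hi : Function.Injective π) (hp : ∀ x z, z ∈ π x ↔ ∃ y, E y x ∧ π y = z)
    {D : S → Prop} {D' : ZFSet.{0} → Prop} {lt' : ZFSet.{0} → ZFSet.{0} → Prop} (h1 : ∀ x, D x → D' (π x))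
    (h2 : ∀ z, D' z → ∃ x, D x ∧ π x = z) (h3 : ∀ x y, D x → D y → (lt x y ↔ lt' (π x) (π y))) (x : S) :
    Df Φ E lt D x ↔ Df Φ (· ∈ ·) lt' D' (π x) := by
  constructor
  · rintro ⟨k, hk, h⟩
    exact ⟨kmp π k, kmp_ok h1 hk, (dfs_kmp hi hp h1 h2 h3 hk x).1 h⟩
  · rintro ⟨k, hk, h⟩
    obtain ⟨k', hk', rfl⟩ := kmp_pull h2 k hk
    exact ⟨k', hk', (dfs_kmp hi hp h1 h2 h3 hk' x).2 h⟩

theorem less_pi {π : S → ZFSet.{0}} (hi : Function.Injective π) (hp : ∀ x z, z ∈ π x ↔ ∃ y, E y x ∧ π y = z)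
    {D : S → Prop} {D' : ZFSet.{0} → Prop} {lt' : ZFSet.{0} → ZFSet.{0} → Prop} (h1 : ∀ x, D x → D' (π x))
    (h2 : ∀ z, D' z → ∃ x, D x ∧ π x = z) (h3 : ∀ x y, D x → D y → (lt x y ↔ lt' (π x) (π y))) (x y : S) :
    less Φ E lt D x y ↔ less Φ (· ∈ ·) lt' D' (π x) (π y) := by
  constructor
  · rintro ⟨k, hk, h, h4⟩
    refine ⟨kmp π k, kmp_ok h1 hk, (dfs_kmp hi hp h1 h2 h3 hk x).1 h, fun k' hk' hy => ?_⟩
    obtain ⟨k2, hk2, rfl⟩ := kmp_pull h2 k' hk'
    exact (klt_kmp hi h3 hk hk2).1 (h4 k2 hk2 ((dfs_kmp hi hp h1 h2 h3 hk2 y).2 hy))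
  · rintro ⟨k, hk, h, h4⟩
    obtain ⟨k2, hk2, rfl⟩ := kmp_pull h2 k hk
    refine ⟨k2, hk2, (dfs_kmp hi hp h1 h2 h3 hk2 x).2 h, fun k' hk' hy => ?_⟩
    exact (klt_kmp hi h3 hk2 hk').2 (h4 (kmp π k') (kmp_ok h1 hk')
      ((dfs_kmp hi hp h1 h2 h3 hk' y).1 hy))

/-- pull back of keys: a key with parameters in `D'` is the image of a key with parameters in `D` -/
theorem key_pi {π : S → ZFSet.{0}} (hi : Function.Injective π) (hp : ∀ x z, z ∈ π x ↔ ∃ y, E y x ∧ π y = z)
    {D : S → Prop} {D' : ZFSet.{0} → Prop} {lt' : ZFSet.{0} → ZFSet.{0} → Prop} (h1 : ∀ x, D x → D' (π x))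
    (h2 : ∀ z, D' z → ∃ x, D x ∧ π x = z) (h3 : ∀ x y, D x → D y → (lt x y ↔ lt' (π x) (π y)))
    (k : Key ZFSet.{0}) (hk : k.ok D') :
    ∃ k' : Key S, k'.ok D ∧ ∀ x, k'.dfs Φ E lt D x ↔ k.dfs Φ (· ∈ ·) lt' D' (π x) := by
  obtain ⟨k', hk', rfl⟩ := kmp_pull h2 k hk
  exact ⟨k', hk', fun x => dfs_kmp hi hp h1 h2 h3 hk' x⟩

end LGr
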