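import Pool.Agent.LGr.Hier

/-! # Ordinals and natural numbers in the levels

(problem MP_ba5606_gt, ARH Part II, block A; architect helper69)

PROOFS.
* `isNum_iff`: in all sets `isNum (· ∈ ·) n x ↔ x = (n : Ordinal).toZFSet` by induction on `n` (`Ordinal.toZFSet_add_one`, extensionality). `isNum_sub`: for a transitive class `T` the
  notion computed in `T` agrees (`(n : Ordinal).toZFSet ∈ T` implies that the smaller numbers are in `T`).
* `toZFSet_mem_U`: `α.toZFSet ∈ U (α + 1)` by induction on `α`: all `β.toZFSet`, `β < α`, are in `U (β + 1) ⊆ U α`, and `rank_lt` shows that no other ordinal is in `U α`; the formula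
  `z` is transitive and all its elements are transitive (quantifiers restricted to elements of `z`, so absolute for the transitive `U α`; `ZFSet.isOrdinal_iff_forall_mem_isTransitive`)
  defines `{β.toZFSet | β < α} = α.toZFSet` in `U α`.
* `rank_lt`: `x ∈ U α → x.rank < α ∨ x = ∅` by induction (`DfU β x`: all elements of `x` are in `U β`, so have rank `< β` or are `∅`; so `x.rank ≤ β` if `β ≥ 1`; `U 0 = {∅}`, `U 1 = {∅, {∅}}`:
  check the small cases: elements of `U 1` have rank `< 2`; so the correct bound is `x.rank ≤ α` for all `α`, and for ordinals...). We state: `x.rank ≤ α`.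
  (So `α.toZFSet ∈ U α` may happen only for small `α`; for the definition of `α.toZFSet` as a subset of `U α` one must exclude `α.toZFSet` itself: if `α.toZFSet ∈ U α` there is
  nothing to prove. Otherwise the ordinals in `U α` are exactly the `β.toZFSet` with `β < α`.)
* `isNum_set`: in the structure `T` with `T` transitive. -/

universe u

namespace LGr

open STP

private theorem ol_insert {x y : ZFSet.{0}} : (∀ z, z ∈ x ↔ z ∈ y ∨ z = y) ↔ x = insert y y := by
  constructor
  · intro h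
    ext z
    rw [ZFSet.mem_insert_iff, h, or_comm]
  · rintro rfl z
    rw [ZFSet.mem_insert_iff, or_comm]

theorem isNum_iff {n : ℕ} {x : ZFSet.{0}} : isNum (S := ZFSet.{0}) (· ∈ ·) n x ↔ x = (n : Ordinal.{0}).toZFSet := by
  induction n generalizing x with
  | zero =>
    rw [Nat.cast_zero, Ordinal.toZFSet_zero, ZFSet.eq_empty]
    exact Iff.rfl
  | succ n ih =>
    rw [Nat.cast_succ, Ordinal.toZFSet_add_one]
    constructor
    · rintro ⟨y, h1, h2⟩
      rw [ih] at h1
      rw [← h1]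
      exact ol_insert.1 h2
    · rintro rfl
      exact ⟨_, ih.2 rfl, ol_insert.2 rfl⟩

theorem isNum_sub {T : Set ZFSet.{0}} (hT : ∀ x ∈ T, ∀ y ∈ x, y ∈ T) {n : ℕ} {x : T} :
    isNum (S := T) (fun x y => x.1 ∈ y.1) n x ↔ x.1 = (n : Ordinal.{0}).toZFSet := by
  induction n generalizing x with
  | zero =>
    rw [Nat.cast_zero, Ordinal.toZFSet_zero, ZFSet.eq_empty]
    constructor
    · intro h z hz
      exact h ⟨z, hT x.1 x.2 z hz⟩ hz
    · intro h z hz
      exact h z.1 hz
  | succ n ih =>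
    rw [Nat.cast_succ, Ordinal.toZFSet_add_one]
    constructor
    · rintro ⟨y, h1, h2⟩
      rw [ih] at h1
      rw [← h1]
      refine ol_insert.1 fun z => ⟨fun hz => ?_, fun hz => ?_⟩
      · rcases (h2 ⟨z, hT x.1 x.2 z hz⟩).1 hz with h3 | h3
        · exact Or.inl h3
        · exact Or.inr (congrArg Subtype.val h3)
      · rcases hz with hz | rfl
        · exact (h2 ⟨z, hT y.1 y.2 z hz⟩).2 (Or.inl hz)
        · exact (h2 y).2 (Or.inr rfl)
    · intro h
      have h1 : (n : Ordinal.{0}).toZFSet ∈ x.1 := by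
        rw [h]
        exact ZFSet.mem_insert _ _
      refine ⟨⟨_, hT x.1 x.2 _ h1⟩, ih.2 rfl, fun z => ?_⟩
      exact (ol_insert.2 h z.1).trans (or_congr Iff.rfl
        ⟨fun h2 => Subtype.ext h2, fun h2 => congrArg Subtype.val h2⟩)

variable (Φ : ℕ → ℕ → ℕ → ℕ → Prop)

theorem rank_le {α : Ordinal.{0}} {x : ZFSet.{0}} (h : x ∈ U Φ α) : x.rank ≤ α := by
  induction α using WellFoundedLT.induction generalizing x with
  | ind α ih =>
    rw [mem_U] at h
    rcases h with rfl | ⟨β, hβ, h⟩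
    · rw [ZFSet.rank_empty]
      exact zero_le
    · rw [ZFSet.rank_le_iff]
      intro y hy
      exact (ih β hβ (DfU_sub Φ h hy)).trans_lt hβ

/-- the formula: `z` is an ordinal number -/
private def ordF : LF :=
  .imp (.imp (.all (.imp (.mem 0 1) (.all (.imp (.mem 0 1) (.mem 0 2)))))
    (.imp (.all (.imp (.mem 0 1) (.all (.imp (.mem 0 1) (.all (.imp (.mem 0 1)
      (.mem 0 2))))))) .bot)) .bot

private theorem ordF_iff {α : Ordinal.{0}} {lt : ZFSet.{0} → ZFSet.{0} → Prop} {z : ZFSet.{0}}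
    (hz : z ∈ U Φ α) (v : ℕ → ZFSet.{0}) :
    lsat Φ (· ∈ ·) lt (· ∈ U Φ α) ordF (cns z v) ↔ z.IsOrdinal := by
  have h1 : lsat Φ (· ∈ ·) lt (· ∈ U Φ α) ordF (cns z v) ↔
      (((∀ x, x ∈ U Φ α → x ∈ z → ∀ y, y ∈ U Φ α → y ∈ x → y ∈ z) →
        ((∀ x, x ∈ U Φ α → x ∈ z → ∀ y, y ∈ U Φ α → y ∈ x → ∀ w, w ∈ U Φ α → w ∈ y → w ∈ x) →
          False)) → False) := Iff.rfl
  rw [h1, ZFSet.isOrdinal_iff_forall_mem_isTransitive]
  constructor
  · intro h
    by_contra hcon
    refine h fun hA hB => hcon ⟨?_, ?_⟩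
    · intro x hx y hy
      exact hA x (U_trans Φ hz hx) hx y (U_trans Φ (U_trans Φ hz hx) hy) hy
    · intro x hx y hy w hw
      exact hB x (U_trans Φ hz hx) hx y (U_trans Φ (U_trans Φ hz hx) hy) hy w
        (U_trans Φ (U_trans Φ (U_trans Φ hz hx) hy) hw) hw
  · rintro ⟨hA, hB⟩ h
    exact h (fun x _ hx y _ hy => hA x hx hy) fun x _ hx y _ hy w _ hw => hB x hx y hy hw

theorem toZFSet_mem_U (α : Ordinal.{0}) : α.toZFSet ∈ U Φ (α + 1) := by
  induction α using WellFoundedLT.induction with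
  | ind α ih =>
    rw [U_succ]
    by_cases h0 : α.toZFSet ∈ U Φ α
    · exact DfU_of_mem Φ h0
    refine ⟨⟨ordF, ∅, []⟩, ⟨empty_mem_U Φ α, fun y hy => absurd hy List.not_mem_nil⟩, fun z => ?_⟩
    change z ∈ α.toZFSet ↔ z ∈ U Φ α ∧ lsat Φ (· ∈ ·) (Rl Φ α) (· ∈ U Φ α) ordF (cns z _)
    constructor
    · intro hz
      obtain ⟨β, hβ, rfl⟩ := Ordinal.mem_toZFSet_iff.1 hz
      have h1 : β.toZFSet ∈ U Φ α := U_mono Φ (Order.add_one_le_of_lt hβ) (ih β hβ)
      exact ⟨h1, (ordF_iff Φ h1 _).2 (ZFSet.isOrdinal_toZFSet β)⟩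
    · rintro ⟨h1, h2⟩
      have h3 := (ordF_iff Φ h1 _).1 h2
      obtain ⟨γ, rfl⟩ := ZFSet.isOrdinal_iff_mem_range_toZFSet.1 h3
      have h4 : γ ≤ α := by
        have h5 := rank_le Φ h1
        rwa [Ordinal.rank_toZFSet] at h5
      rcases h4.lt_or_eq with h5 | rfl
      · exact Ordinal.toZFSet_mem_toZFSet_iff.2 h5
      · exact absurd h1 h0

/-- satisfaction in a transitive class computed in the type of its elements -/
theorem lsat_sub {T : Set ZFSet.{0}} (hT : ∀ x ∈ T, ∀ y ∈ x, y ∈ T) {D : ZFSet.{0} → Prop}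
    (hD : ∀ x, D x → x ∈ T) (lt : ZFSet.{0} → ZFSet.{0} → Prop) (φ : LF) (v : ℕ → T) :
    lsat Φ (S := T) (fun x y => x.1 ∈ y.1) (fun x y => lt x.1 y.1) (fun x => D x.1) φ v ↔
      lsat Φ (· ∈ ·) lt D φ (fun i => (v i).1) := by
  induction φ generalizing v with
  | mem i j => exact Iff.rfl
  | eq i j => exact Subtype.ext_iff
  | lt i j => exact Iff.rfl
  | tp r i j k =>
    refine exists_congr fun a => exists_congr fun b => exists_congr fun c => ?_
    rw [isNum_sub hT, isNum_sub hT, isNum_sub hT, isNum_iff, isNum_iff, isNum_iff]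
  | bot => exact Iff.rfl
  | imp φ ψ ih1 ih2 =>
    change (lsat Φ _ _ _ φ v → lsat Φ _ _ _ ψ v) ↔ (lsat Φ _ _ _ φ _ → lsat Φ _ _ _ ψ _)
    rw [ih1, ih2]
  | all φ ih =>
    have h1 : ∀ x : T, (fun i => (cns x v i).1) = cns x.1 fun i => (v i).1 := by
      intro x
      funext i
      cases i with
      | zero => rfl
      | succ i => rfl
    constructor
    · intro h x hx
      have h2 := (ih (cns ⟨x, hD x hx⟩ v)).1 (h ⟨x, hD x hx⟩ hx)
      rw [h1] at h2
      exact h2
    · intro h x hx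
      refine (ih (cns x v)).2 ?_
      rw [h1]
      exact h x.1 hx

end LGr
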