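import Pool.Agent.LGr.Wol
import Pool.Agent.LGr.OrdL
import Pool.Agent.LGr.Trn

/-! # Countable hulls

(problem MP_ba5606_gt, ARH Part II, block A; architect helper69)

`IsHull Φ δ X A`: `X` is a set of elements of `U Φ δ`, `A` a set of ordinals `< δ`, closed under Skolem functions for all levels (the level `δ` included), least keys, defined sets, successors,
predecessors, first levels. `envL l i = l.getD i ∅`.

PROOFS.
* `exists_closed`: `X_0`, `X_(n+1) = X_n ∪ ⋃ {C l | l a list of elements of X_n}` (countable, as there are countably many lists), union.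
* `exists_hull`: `exists_closed` for `T = ZFSet ⊕ Ordinal` and a function `C : List T → Set T` whose values are countable: for a list `l` let `l1` be the list of its sets and `l2` the list of its ordinals;
  `C l` contains: `∅` and `0`; for every ordinal `α` of `l2`: `α + 1`, the `β` with `α = β + 1`; for every `α ∈ l2 ∪ {δ}` and every formula `φ` one `x ∈ U Φ α` with `lsat (U Φ α) φ (cns x (envL l1))`, if there is
  one (use choice); for `x ∈ l1`: the least `α` with `x ∈ U Φ α`; for `α ∈ l2`, `x ∈ l1` with `DfU Φ α x`: all parameters of a least key (`exists_least_key`); for `α ∈ l2`, a formula `φ`, and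
  `l1 = a :: l`: the set defined by the key `⟨φ, a, l⟩` in `U Φ α` if it is an element of `U Φ δ`. Countably many values for each `l` (`LF` is countable by `enc_inj`). Finally `X`, `A` are the two parts of the
  closed set intersected with `U Φ δ` and with the ordinals `< δ` (all values for arguments in these sets are in these sets; `δ` is a limit).
  For the field `sk` with an arbitrary assignment `v : ℕ → X`: replace `v` by the list of the first `bd φ` values (`lsat_bd`). -/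

universe u

namespace LGr

open STP

/-- the steps of the closing off -/
private def stg {T : Type u} (C : List T → Set T) (X0 : Set T) : ℕ → Set T
  | 0 => X0
  | n + 1 => stg C X0 n ∪ ⋃ l ∈ {l : List T | ∀ a ∈ l, a ∈ stg C X0 n}, C l

theorem exists_closed {T : Type u} (C : List T → Set T) (hC : ∀ l, (C l).Countable) (X0 : Set T)
    (h0 : X0.Countable) : ∃ X : Set T, X0 ⊆ X ∧ X.Countable ∧ ∀ l : List T, (∀ a ∈ l, a ∈ X) → C l ⊆ X := by
  obtain ⟨S, hS0, hS⟩ : ∃ S : ℕ → Set T, S 0 = X0 ∧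
      ∀ n, S (n + 1) = S n ∪ ⋃ l ∈ {l : List T | ∀ a ∈ l, a ∈ S n}, C l :=
    ⟨stg C X0, rfl, fun n => rfl⟩
  have hc : ∀ n, (S n).Countable := by
    intro n
    induction n with
    | zero =>
      rw [hS0]
      exact h0
    | succ n ih =>
      rw [hS]
      refine ih.union (Set.Countable.biUnion ?_ fun l _ => hC l)
      have : Countable {x // x ∈ S n} := ih.to_subtype
      rw [← Set.range_list_map_coe]
      exact Set.countable_range _
  have hm : Monotone S := monotone_nat_of_le_succ fun n => by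
    rw [hS]
    exact Set.subset_union_left
  refine ⟨⋃ n, S n, hS0 ▸ Set.subset_iUnion S 0, Set.countable_iUnion hc, fun l hl => ?_⟩
  have h1 : ∃ n, ∀ a ∈ l, a ∈ S n := by
    induction l with
    | nil => exact ⟨0, fun a ha => absurd ha List.not_mem_nil⟩
    | cons a l ih =>
      obtain ⟨n, hn⟩ := ih fun b hb => hl b (List.mem_cons_of_mem _ hb)
      obtain ⟨m, hm2⟩ := Set.mem_iUnion.1 (hl a List.mem_cons_self)
      refine ⟨max n m, fun b hb => ?_⟩
      rcases List.mem_cons.1 hb with rfl | hb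
      · exact hm (le_max_right n m) hm2
      · exact hm (le_max_left n m) (hn b hb)
  obtain ⟨n, hn⟩ := h1
  refine Set.Subset.trans ?_ (Set.subset_iUnion S (n + 1))
  rw [hS]
  intro t ht
  right
  simp only [Set.mem_iUnion]
  exact ⟨l, hn, ht⟩

variable (Φ : ℕ → ℕ → ℕ → ℕ → Prop)

/-- closed sets of elements and indices -/
structure IsHull (δ : Ordinal.{0}) (X : Set ZFSet.{0}) (A : Set Ordinal.{0}) : Prop where
  cX : X.Countable
  cA : A.Countable
  sub : X ⊆ U Φ δ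
  lt : ∀ α ∈ A, α < δ
  emp : ∅ ∈ X
  zero : (0 : Ordinal.{0}) ∈ A
  succ : ∀ α ∈ A, α + 1 ∈ A
  pred : ∀ α, α + 1 ∈ A → α ∈ A
  stage : ∀ x ∈ X, ∃ α ∈ A, x ∈ U Φ α ∧ ∀ β < α, x ∉ U Φ β
  sk : ∀ α, (α = δ ∨ α ∈ A) → ∀ (φ : LF) (v : ℕ → ZFSet.{0}), (∀ i, v i ∈ X ∧ v i ∈ U Φ α) →
    (∃ x, x ∈ U Φ α ∧ lsat Φ (· ∈ ·) (Lt Φ) (· ∈ U Φ α) φ (cns x v)) →
      ∃ x ∈ X, x ∈ U Φ α ∧ lsat Φ (· ∈ ·) (Lt Φ) (· ∈ U Φ α) φ (cns x v)
  key : ∀ α ∈ A, ∀ x ∈ X, DfU Φ α x → ∃ k : Key ZFSet.{0}, k.ok (fun y => y ∈ X ∧ y ∈ U Φ α) ∧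
    k.dfs Φ (· ∈ ·) (Lt Φ) (· ∈ U Φ α) x ∧
      ∀ k' : Key ZFSet.{0}, k'.ok (· ∈ U Φ α) → k'.dfs Φ (· ∈ ·) (Lt Φ) (· ∈ U Φ α) x →
        k = k' ∨ klt (Lt Φ) k k'
  set : ∀ α ∈ A, ∀ k : Key ZFSet.{0}, k.ok (fun y => y ∈ X ∧ y ∈ U Φ α) → ∀ x ∈ U Φ δ,
    k.dfs Φ (· ∈ ·) (Lt Φ) (· ∈ U Φ α) x → x ∈ X

/-- the assignment given by a list -/
private noncomputable def envL (l : List ZFSet.{0}) : ℕ → ZFSet.{0} := fun i => l.getD i ∅

open scoped Classical in
/-- a witness -/
private noncomputable def wit (α : Ordinal.{0}) (φ : LF) (l : List ZFSet.{0}) : ZFSet.{0} :=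
  if h : ∃ x, x ∈ U Φ α ∧ lsat Φ (· ∈ ·) (Lt Φ) (· ∈ U Φ α) φ (cns x (envL l)) then h.choose
  else ∅

open scoped Classical in
/-- the least key -/
private noncomputable def lk (α : Ordinal.{0}) (x : ZFSet.{0}) : Key ZFSet.{0} :=
  if h : DfU Φ α x then (exists_least_key Φ h).choose else ⟨.bot, ∅, []⟩

/-- the set defined by a formula and a list of parameters -/
private noncomputable def dst (α : Ordinal.{0}) (φ : LF) (l : List ZFSet.{0}) : ZFSet.{0} :=
  (exists_Df Φ α ⟨φ, l.headD ∅, l.tail⟩).choose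

/-- the values of all Skolem functions -/
private noncomputable def val (α : Ordinal.{0}) (φ : LF) (l : List ZFSet.{0}) :
    Set (ZFSet.{0} ⊕ Ordinal.{0}) :=
  {.inl ∅, .inr 0, .inr (α + 1), .inr α.pred, .inl (wit Φ α φ l), .inl (dst Φ α φ l)} ∪
    ((fun x => .inr (sInf {β | x ∈ U Φ β})) '' {x | x ∈ l} ∪
      ⋃ x ∈ {x | x ∈ l}, (fun y => .inl y) '' {y | y ∈ (lk Φ α x).a :: (lk Φ α x).l})

private theorem val_ct (α : Ordinal.{0}) (φ : LF) (l : List ZFSet.{0}) :
    (val Φ α φ l).Countable := by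
  have hl : ∀ l : List ZFSet.{0}, {x | x ∈ l}.Countable := fun l => (List.finite_toSet l).countable
  refine Set.Countable.union (Set.Finite.countable (by simp)) (Set.Countable.union
    ((hl l).image _) (Set.Countable.biUnion (hl l) fun x _ => (hl _).image _))

private theorem exists_Z (δ : Ordinal.{0}) : ∃ Z : Set (ZFSet.{0} ⊕ Ordinal.{0}), Z.Countable ∧
    .inr δ ∈ Z ∧ ∀ α φ, ∀ l : List ZFSet.{0}, .inr α ∈ Z → (∀ x ∈ l, .inl x ∈ Z) →
      val Φ α φ l ⊆ Z := by
  have hLF : Countable LF := enc_inj.countable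
  obtain ⟨Z, h1, h2, h3⟩ := exists_closed
    (fun L : List (ZFSet.{0} ⊕ Ordinal.{0}) => {t | ∃ α φ l, L = .inr α :: l.map .inl ∧
      t ∈ val Φ α φ l}) (by
        intro L
        by_cases h : ∃ (α : Ordinal.{0}) (l : List ZFSet.{0}), L = .inr α :: l.map .inl
        · obtain ⟨α, l, rfl⟩ := h
          refine Set.Countable.mono ?_ (Set.countable_iUnion fun φ => val_ct Φ α φ l)
          rintro t ⟨α', φ, l', h1, h2⟩
          obtain ⟨h3, h4⟩ := List.cons.inj h1
          obtain rfl := Sum.inr_injective h3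
          obtain rfl := List.map_injective_iff.2 Sum.inl_injective h4
          exact Set.mem_iUnion.2 ⟨φ, h2⟩
        · refine Set.Countable.mono ?_ Set.countable_empty
          rintro t ⟨α, φ, l, h1, -⟩
          exact h ⟨α, l, h1⟩) {.inr δ} (Set.countable_singleton _)
  refine ⟨Z, h2, h1 rfl, fun α φ l hα hl t ht => ?_⟩
  refine h3 (.inr α :: l.map .inl) ?_ ⟨α, φ, l, rfl, ht⟩
  intro a ha
  rcases List.mem_cons.1 ha with rfl | ha
  · exact hα
  · obtain ⟨x, hx, rfl⟩ := List.mem_map.1 ha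
    exact hl x hx

theorem exists_hull {δ : Ordinal.{0}} (hδ : Order.IsSuccLimit δ) : ∃ X A, IsHull Φ δ X A := by
  obtain ⟨Z, hZ, hδZ, hcl⟩ := exists_Z Φ δ
  have b1 : ∀ α φ, ∀ l : List ZFSet.{0}, .inr α ∈ Z → (∀ x ∈ l, .inl x ∈ Z) →
      ∀ t, t ∈ ({.inl ∅, .inr 0, .inr (α + 1), .inr α.pred, .inl (wit Φ α φ l),
        .inl (dst Φ α φ l)} : Set (ZFSet.{0} ⊕ Ordinal.{0})) → t ∈ Z :=
    fun α φ l hα hl t ht => hcl α φ l hα hl (Or.inl ht)
  have hnil : ∀ x ∈ ([] : List ZFSet.{0}), (.inl x : ZFSet.{0} ⊕ Ordinal.{0}) ∈ Z :=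
    fun x hx => absurd hx List.not_mem_nil
  refine ⟨{x | .inl x ∈ Z ∧ x ∈ U Φ δ}, {α | .inr α ∈ Z ∧ α < δ}, ?_⟩
  have hor : ∀ α, (α = δ ∨ α ∈ {α : Ordinal.{0} | .inr α ∈ Z ∧ α < δ}) → .inr α ∈ Z ∧ α ≤ δ := by
    rintro α (rfl | h)
    · exact ⟨hδZ, le_rfl⟩
    · exact ⟨h.1, h.2.le⟩
  refine
    { cX := ?_
      cA := ?_
      sub := fun x hx => hx.2
      lt := fun α hα => hα.2
      emp := ⟨b1 δ .bot [] hδZ hnil _ (by simp), empty_mem_U Φ δ⟩
      zero := ⟨b1 δ .bot [] hδZ hnil _ (by simp), hδ.bot_lt⟩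
      succ := fun α hα => ⟨b1 α .bot [] hα.1 hnil _ (by simp), hδ.add_one_lt hα.2⟩
      pred := fun α hα => ⟨?_, lt_trans (Order.lt_add_one_iff.2 le_rfl) hα.2⟩
      stage := fun x hx => ?_
      sk := fun α hα φ v hv hex => ?_
      key := fun α hα x hx hdf => ?_
      set := fun α hα k hk x hx hdf => ?_ }
  · exact (hZ.preimage Sum.inl_injective).mono fun x hx => hx.1
  · exact (hZ.preimage Sum.inr_injective).mono fun x hx => hx.1
  · have h1 := b1 (α + 1) .bot [] hα.1 hnil (.inr (α + 1).pred) (by simp)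
    rwa [Ordinal.pred_add_one] at h1
  · obtain ⟨β, hβ, hxβ⟩ := (U_lim Φ hδ).1 hx.2
    have hne : {β | x ∈ U Φ β}.Nonempty := ⟨β, hxβ⟩
    refine ⟨sInf {β | x ∈ U Φ β}, ⟨?_, (csInf_le' (s := {β | x ∈ U Φ β}) hxβ).trans_lt hβ⟩, csInf_mem hne,
      fun γ hγ h => notMem_of_lt_csInf' (s := {β | x ∈ U Φ β}) hγ h⟩
    refine hcl δ .bot [x] hδZ (fun y hy => ?_) (Or.inr (Or.inl ⟨x, List.mem_singleton.2 rfl, rfl⟩))
    rw [List.mem_singleton.1 hy]
    exact hx.1
  · obtain ⟨hαZ, hαδ⟩ := hor α hα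
    have hl : ∀ x ∈ (List.range (bd φ)).map v, (.inl x : ZFSet.{0} ⊕ Ordinal.{0}) ∈ Z := by
      intro x hx
      obtain ⟨i, -, rfl⟩ := List.mem_map.1 hx
      exact (hv i).1.1
    have henv : ∀ x : ZFSet.{0}, ∀ i < bd φ, cns x v i =
        cns x (envL ((List.range (bd φ)).map v)) i := by
      intro x i hi
      cases i with
      | zero => rfl
      | succ i =>
        have hi' : i < bd φ := lt_trans (Nat.lt_succ_self i) hi
        change v i = ((List.range (bd φ)).map v).getD i ∅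
        rw [List.getD_eq_getElem _ _ (by simpa using hi'), List.getElem_map, List.getElem_range]
    have hex' : ∃ x, x ∈ U Φ α ∧ lsat Φ (· ∈ ·) (Lt Φ) (· ∈ U Φ α) φ
        (cns x (envL ((List.range (bd φ)).map v))) := by
      obtain ⟨x, hx, hx'⟩ := hex
      exact ⟨x, hx, (lsat_bd φ (henv x)).1 hx'⟩
    have hw : wit Φ α φ ((List.range (bd φ)).map v) = hex'.choose := dif_pos hex'
    refine ⟨wit Φ α φ ((List.range (bd φ)).map v), ⟨b1 α φ _ hαZ hl _ (by simp), ?_⟩, ?_, ?_⟩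
    · rw [hw]
      exact U_mono Φ hαδ hex'.choose_spec.1
    · rw [hw]
      exact hex'.choose_spec.1
    · rw [hw]
      exact (lsat_bd φ (henv _)).2 hex'.choose_spec.2
  · have hk : lk Φ α x = (exists_least_key Φ hdf).choose := dif_pos hdf
    obtain ⟨h1, h2, h3⟩ := (exists_least_key Φ hdf).choose_spec
    rw [← hk] at h1 h2 h3
    have hp : ∀ y ∈ (lk Φ α x).a :: (lk Φ α x).l, y ∈ U Φ α →
        y ∈ {x | (.inl x : ZFSet.{0} ⊕ Ordinal.{0}) ∈ Z ∧ x ∈ U Φ δ} ∧ y ∈ U Φ α := by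
      intro y hy hyU
      refine ⟨⟨?_, U_mono Φ hα.2.le hyU⟩, hyU⟩
      refine hcl α .bot [x] hα.1 (fun z hz => ?_) (Or.inr (Or.inr ?_))
      · rw [List.mem_singleton.1 hz]
        exact hx.1
      · simp only [Set.mem_iUnion]
        exact ⟨x, List.mem_singleton.2 rfl, y, hy, rfl⟩
    exact ⟨lk Φ α x, ⟨hp _ List.mem_cons_self h1.1,
      fun y hy => hp y (List.mem_cons_of_mem _ hy) (h1.2 y hy)⟩, h2, h3⟩
  · refine ⟨?_, hx⟩
    have hl : ∀ y ∈ k.a :: k.l, (.inl y : ZFSet.{0} ⊕ Ordinal.{0}) ∈ Z := by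
      intro y hy
      rcases List.mem_cons.1 hy with rfl | hy
      · exact hk.1.1.1
      · exact (hk.2 y hy).1.1
    have h1 : x = dst Φ α k.φ (k.a :: k.l) := by
      have h2 : k.dfs Φ (· ∈ ·) (Rl Φ α) (· ∈ U Φ α) (dst Φ α k.φ (k.a :: k.l)) :=
        (exists_Df Φ α k).choose_spec
      ext z
      refine (hdf z).trans (Iff.trans ?_ (h2 z).symm)
      refine and_congr_right fun hz => ?_
      refine lsat_congr (D := (· ∈ U Φ α)) (lt := Lt Φ) (lt' := Rl Φ α)
        (fun _ _ _ hy => Lt_iff Φ hy) _ _ fun i => ?_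
      cases i with
      | zero => exact hz
      | succ i =>
        change (k.a :: k.l).getD i k.a ∈ U Φ α
        by_cases hi : i < (k.a :: k.l).length
        · rw [List.getD_eq_getElem _ _ hi]
          rcases List.mem_cons.1 (List.getElem_mem hi) with h | h
          · rw [h]
            exact hk.1.2
          · exact (hk.2 _ h).2
        · rw [List.getD_eq_default _ _ (not_lt.1 hi)]
          exact hk.1.2
    rw [h1]
    exact b1 α k.φ _ hα.1 hl _ (by simp)

end LGr
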