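import Pool.Agent.LGr.Refl
import Pool.Agent.CPY.Lang

/-! # The class `Lc` is a model of ZFC

(problem MP_ba5606_gt, ARH Part II, block A; architect helper69)

PROOFS. `tr φ` is the same formula in the language `LF`; `sat_tr` by induction. Let `v : ℕ → Lc`, `x : Lc`. Choose an ordinal `α` with `x, v i ∈ U α` for all `i` (countable supremum), and by `exists_refl`
a limit `δ > α` with reflection for all formulas.
* A subset of `U δ` which is defined in `(U δ, ∈, Lt)` by an `LF` formula with an assignment `v` in `U δ` is an element of `U (δ + 1)`: by `lsat_bd` finitely many values `v i` matter; they are the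
  parameters `a :: l` of a key (`exists_Df`, `U_succ`, `DfU_iff`). This is `Df_mem`.
* `separation`: `{z ∈ x | Lc ⊨ φ(z, v)}` is the subset of `U δ` defined by `z ∈ x ∧ φ` (reflection; the parameter `x` is added to the assignment; rename variables or use an
  assignment with `x` at a position beyond `bd`). `pair`, `union`: definable subsets of `U δ`. `power`: all `y ∈ Lc`, `y ⊆ x` are in one `U α'` (small family: the power set of `x`),
  choose `δ > α'`: the set is `{y ∈ U δ | y ⊆ x}`. `infinity`: the ordinal `ω`: `Ordinal.omega0.toZFSet ∈ Lc` (`toZFSet_mem_U`). `replacement`: the images of the elements of `x` are in one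
  `U α'` (supremum over the small set `x`); choose a reflecting `δ > α'`; `{w ∈ U δ | ∃ z ∈ x, φ(w, z, v)}`. `ext`, `found`: transitivity, `ZFSet.mem_wf`.
* `choice`: `c = {z ∈ U δ | ∃ y ∈ x, z ∈ y ∧ ∀ w ∈ y, w = z ∨ Lt z w}` (definable with `LF.lt`), `Lt` is a well-order (`Lt_wf`, `Lt_lin`). -/

universe v

namespace LGr

open STP

/-- formulas of set theory as formulas of the language of levels -/
def tr : Fml → LF
  | .mem i j => .mem i j
  | .eq i j => .eq i j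
  | .bot => .bot
  | .imp φ ψ => .imp (tr φ) (tr ψ)
  | .all φ => .all (tr φ)

variable (Φ : ℕ → ℕ → ℕ → ℕ → Prop)

theorem sat_tr {T : Set ZFSet.{0}} (lt : ZFSet.{0} → ZFSet.{0} → Prop) (φ : Fml) (v : ℕ → T) :
    sat (CPY.Em T) φ v ↔ lsat Φ (· ∈ ·) lt (· ∈ T) (tr φ) (fun i => (v i).1) := by
  induction φ generalizing v with
  | mem i j => exact Iff.rfl
  | eq i j => exact Subtype.ext_iff
  | bot => exact Iff.rfl
  | imp φ ψ h1 h2 => exact imp_congr (h1 v) (h2 v)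
  | all φ ih =>
    have h : ∀ x : T, (fun i => (cns x v i).1) = cns x.1 (fun i => (v i).1) := by
      intro x
      funext i
      cases i <;> rfl
    constructor
    · intro h1 x hx
      have h2 := (ih _).1 (h1 ⟨x, hx⟩)
      rw [h] at h2
      exact h2
    · intro h1 x
      refine (ih _).2 ?_
      rw [h]
      exact h1 x.1 x.2

private theorem zf_env (φ : LF) (w : ℕ → ZFSet.{0}) (n i : ℕ) (hi : i < n + 1) :
    (⟨φ, w 0, (List.range n).map fun i => w (i + 1)⟩ : Key ZFSet.{0}).env i = w i := by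
  have h1 : (w 0 :: (List.range n).map fun i => w (i + 1)) = (List.range (n + 1)).map w := by
    rw [List.range_succ_eq_map, List.map_cons, List.map_map]
    rfl
  change (w 0 :: (List.range n).map fun i => w (i + 1)).getD i (w 0) = w i
  rw [h1, List.getD_eq_getElem _ _ (by rw [List.length_map, List.length_range]; exact hi),
    List.getElem_map, List.getElem_range]

/-- definable subsets of a level are elements of the next level -/
theorem Df_mem {δ : Ordinal.{0}} (φ : LF) (v : ℕ → ZFSet.{0}) (hv : ∀ i, v i ∈ U Φ δ) {y : ZFSet.{0}}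
    (hy : ∀ z, z ∈ y ↔ z ∈ U Φ δ ∧ lsat Φ (· ∈ ·) (Lt Φ) (· ∈ U Φ δ) φ (cns z v)) :
    y ∈ U Φ (δ + 1) := by
  let k : Key ZFSet.{0} := ⟨φ, v 0, (List.range (bd φ)).map fun i => v (i + 1)⟩
  have hk : k.ok (· ∈ U Φ δ) := by
    refine ⟨hv 0, fun y hy => ?_⟩
    obtain ⟨i, -, rfl⟩ := List.mem_map.1 hy
    exact hv _
  refine (U_succ Φ).2 ⟨k, hk, fun z => (hy z).trans (and_congr_right fun hz => ?_)⟩
  have h4 : ∀ i < bd φ, cns z k.env i = cns z v i := by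
    intro i hi
    cases i with
    | zero => rfl
    | succ i =>
      change k.env i = v i
      exact zf_env _ v _ i (by omega)
  change _ ↔ lsat Φ (· ∈ ·) (Rl Φ δ) (· ∈ U Φ δ) φ (cns z k.env)
  rw [lsat_bd φ h4]
  refine (lsat_congr (lt := Rl Φ δ) (lt' := Lt Φ) (fun x y _ (hy : y ∈ U Φ δ) =>
    (Lt_iff Φ hy).symm) φ _ ?_).symm
  intro i
  cases i with
  | zero => exact hz
  | succ i => exact hv i

/-! ### Connectives and renaming -/

private def zno (φ : LF) : LF := .imp φ .bot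
private def zan (φ ψ : LF) : LF := zno (.imp φ (zno ψ))
private def zor (φ ψ : LF) : LF := .imp (zno φ) ψ
private def zex (φ : LF) : LF := zno (.all (zno φ))

/-- renaming of variables -/
private def ren : LF → (ℕ → ℕ) → LF
  | .mem i j, f => .mem (f i) (f j)
  | .eq i j, f => .eq (f i) (f j)
  | .lt i j, f => .lt (f i) (f j)
  | .tp r i j k, f => .tp r (f i) (f j) (f k)
  | .bot, _ => .bot
  | .imp φ ψ, f => .imp (ren φ f) (ren ψ f)
  | .all φ, f => .all (ren φ (cns 0 fun n => f n + 1))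

section

variable {Φ} {S : Type v} {E lt : S → S → Prop} {D : S → Prop} {w : ℕ → S}

private theorem lsat_zno {φ : LF} : lsat Φ E lt D (zno φ) w ↔ ¬ lsat Φ E lt D φ w := Iff.rfl

private theorem lsat_zan {φ ψ : LF} :
    lsat Φ E lt D (zan φ ψ) w ↔ lsat Φ E lt D φ w ∧ lsat Φ E lt D ψ w := by
  change ¬ (lsat Φ E lt D φ w → ¬ lsat Φ E lt D ψ w) ↔ _
  tauto

private theorem lsat_zor {φ ψ : LF} :
    lsat Φ E lt D (zor φ ψ) w ↔ lsat Φ E lt D φ w ∨ lsat Φ E lt D ψ w := by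
  change (¬ lsat Φ E lt D φ w → lsat Φ E lt D ψ w) ↔ _
  tauto

private theorem lsat_zex {φ : LF} :
    lsat Φ E lt D (zex φ) w ↔ ∃ x, D x ∧ lsat Φ E lt D φ (cns x w) := by
  change ¬ (∀ x, D x → ¬ lsat Φ E lt D φ (cns x w)) ↔ _
  push Not
  rfl

private theorem lsat_zal {φ : LF} :
    lsat Φ E lt D (.all φ) w ↔ ∀ x, D x → lsat Φ E lt D φ (cns x w) := Iff.rfl

private theorem lsat_zim {φ ψ : LF} :
    lsat Φ E lt D (.imp φ ψ) w ↔ (lsat Φ E lt D φ w → lsat Φ E lt D ψ w) := Iff.rfl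

private theorem lsat_ren (φ : LF) (f : ℕ → ℕ) (w : ℕ → S) :
    lsat Φ E lt D (ren φ f) w ↔ lsat Φ E lt D φ (fun i => w (f i)) := by
  induction φ generalizing f w with
  | mem i j => exact Iff.rfl
  | eq i j => exact Iff.rfl
  | lt i j => exact Iff.rfl
  | tp r i j k => exact Iff.rfl
  | bot => exact Iff.rfl
  | imp φ ψ h1 h2 => exact imp_congr (h1 f w) (h2 f w)
  | all φ ih =>
    refine forall_congr' fun x => imp_congr_right fun _ => ?_
    have h : (fun i => cns x w (cns 0 (fun n => f n + 1) i)) = cns x (fun i => w (f i)) := by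
      funext i
      cases i <;> rfl
    rw [ih, h]

end

private theorem cns_in {T : Set ZFSet.{0}} {z : ZFSet.{0}} {v : ℕ → ZFSet.{0}} (hz : z ∈ T)
    (hv : ∀ i, v i ∈ T) (i : ℕ) : cns z v i ∈ T := by
  cases i with
  | zero => exact hz
  | succ i => exact hv i

private theorem exists_up {ι : Type*} [Small.{0} ι] (f : ι → ZFSet.{0}) (hf : ∀ i, f i ∈ Lc Φ) :
    ∃ α, ∀ i, f i ∈ U Φ α := by
  choose g hg using hf
  obtain ⟨γ, hγ⟩ := Ordinal.bddAbove_of_small (s := Set.range g)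
  exact ⟨γ, fun i => U_mono Φ (hγ ⟨i, rfl⟩) (hg i)⟩

/-- a definable class which is a set is an element of `Lc Φ` -/
private theorem cls_mem (φ : LF) (v : ℕ → ZFSet.{0}) (hv : ∀ i, v i ∈ Lc Φ) {y : ZFSet.{0}}
    (hy : ∀ z, z ∈ y ↔ z ∈ Lc Φ ∧ lsat Φ (· ∈ ·) (Lt Φ) (· ∈ Lc Φ) φ (cns z v)) : y ∈ Lc Φ := by
  obtain ⟨α, hα⟩ := exists_up Φ v hv
  obtain ⟨β, hβ⟩ := exists_up Φ (fun z : y => z.1) fun z => ((hy z.1).1 z.2).1
  obtain ⟨δ, hδ, -, -, hr⟩ := exists_refl Φ (max α β)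
  have h1 : ∀ i, v i ∈ U Φ δ := fun i => U_mono Φ ((le_max_left _ _).trans hδ.le) (hα i)
  have h2 : ∀ z ∈ y, z ∈ U Φ δ := fun z hz =>
    U_mono Φ ((le_max_right _ _).trans hδ.le) (hβ ⟨z, hz⟩)
  refine ⟨δ + 1, Df_mem Φ φ v h1 fun z => ?_⟩
  constructor
  · intro h
    have hz : z ∈ U Φ δ := h2 z h
    exact ⟨hz, (hr φ _ (cns_in hz h1)).1 ((hy z).1 h).2⟩
  · rintro ⟨hz, h⟩
    exact (hy z).2 ⟨⟨δ, hz⟩, (hr φ _ (cns_in hz h1)).2 h⟩

private theorem Lc_trans {x y : ZFSet.{0}} (hx : x ∈ Lc Φ) (hy : y ∈ x) : y ∈ Lc Φ := by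
  obtain ⟨α, hα⟩ := hx
  exact ⟨α, U_trans Φ hα hy⟩

theorem sep_Lc (φ : LF) (v : ℕ → ZFSet.{0}) (hv : ∀ i, v i ∈ Lc Φ) {x y : ZFSet.{0}} (hx : x ∈ Lc Φ)
    (hy : ∀ z, z ∈ y ↔ z ∈ x ∧ lsat Φ (· ∈ ·) (Lt Φ) (· ∈ Lc Φ) φ (cns z v)) : y ∈ Lc Φ := by
  refine cls_mem Φ (zan (.mem 0 1) (ren φ (cns 0 fun i => i + 2))) (cns x v) (cns_in hx hv)
    fun z => ?_
  have h : (fun i => cns z (cns x v) (cns 0 (fun i => i + 2) i)) = cns z v := by
    funext i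
    cases i <;> rfl
  rw [hy, lsat_zan, lsat_ren, h]
  exact ⟨fun h => ⟨Lc_trans Φ hx h.1, h⟩, fun h => h.2⟩

theorem power_Lc {x y : ZFSet.{0}} (hx : x ∈ Lc Φ) (hy : ∀ z, z ∈ y ↔ z ∈ Lc Φ ∧ z ⊆ x) : y ∈ Lc Φ := by
  refine cls_mem Φ (.all (.imp (.mem 0 1) (.mem 0 2))) (fun _ => x) (fun _ => hx) fun z => ?_
  rw [hy]
  refine and_congr_right fun hz => ?_
  rw [lsat_zal]
  constructor
  · intro h w _ hw
    exact h hw
  · intro h w hw
    exact h w (Lc_trans Φ hz hw) hw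

theorem repl_Lc (φ : LF) (v : ℕ → ZFSet.{0}) (hv : ∀ i, v i ∈ Lc Φ) {x y : ZFSet.{0}} (hx : x ∈ Lc Φ)
    (F : ZFSet.{0} → ZFSet.{0}) (hF : ∀ z ∈ x, F z ∈ Lc Φ)
    (h : ∀ z ∈ x, ∀ w ∈ Lc Φ, lsat Φ (· ∈ ·) (Lt Φ) (· ∈ Lc Φ) φ (cns w (cns z v)) ↔ w = F z)
    (hy : ∀ w, w ∈ y ↔ ∃ z ∈ x, w = F z) : y ∈ Lc Φ := by
  refine cls_mem Φ (zex (zan (.mem 0 2) (ren φ (cns 1 (cns 0 fun i => i + 3))))) (cns x v)
    (cns_in hx hv) fun w => ?_
  have h1 : ∀ z, (fun i => cns z (cns w (cns x v)) (cns 1 (cns 0 fun i => i + 3) i)) =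
      cns w (cns z v) := by
    intro z
    funext i
    rcases i with _ | _ | i <;> rfl
  rw [hy, lsat_zex]
  constructor
  · rintro ⟨z, hz, rfl⟩
    refine ⟨hF z hz, z, Lc_trans Φ hx hz, ?_⟩
    rw [lsat_zan, lsat_ren, h1]
    exact ⟨hz, (h z hz _ (hF z hz)).2 rfl⟩
  · rintro ⟨hw, z, -, hz⟩
    rw [lsat_zan, lsat_ren, h1] at hz
    exact ⟨z, hz.1, (h z hz.1 w hw).1 hz.2⟩

theorem zfc_Lc : ZFC (CPY.Em (Lc Φ)) := by
  have val : ∀ (x : Lc Φ) (z : ZFSet.{0}), z ∈ x.1 → z ∈ Lc Φ := fun x z hz => Lc_trans Φ x.2 hz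
  refine
    { ext := ?_, found := ?_, pair := ?_, union := ?_, power := ?_, infinity := ?_,
      separation := ?_, replacement := ?_, choice := ?_ }
  · intro x y h
    refine Subtype.ext (ZFSet.ext fun z => ⟨fun hz => ?_, fun hz => ?_⟩)
    · exact (h ⟨z, val x z hz⟩).1 hz
    · exact (h ⟨z, val y z hz⟩).2 hz
  · rintro x ⟨y, hy⟩
    obtain ⟨m, hm, hm'⟩ := ZFSet.mem_wf.has_min {z | z ∈ x.1} ⟨y.1, hy⟩
    exact ⟨⟨m, val x m hm⟩, hm, fun z hz hzm => hm' z.1 hz hzm⟩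
  · intro x y
    have h : ({x.1, y.1} : ZFSet.{0}) ∈ Lc Φ := by
      refine cls_mem Φ (zor (.eq 0 1) (.eq 0 2)) (cns x.1 fun _ => y.1)
        (cns_in x.2 fun _ => y.2) fun z => ?_
      rw [ZFSet.mem_pair, lsat_zor]
      refine ⟨fun h => ⟨?_, h⟩, fun h => h.2⟩
      rcases h with rfl | rfl
      · exact x.2
      · exact y.2
    refine ⟨⟨_, h⟩, fun w => ?_⟩
    refine ZFSet.mem_pair.trans (or_congr ?_ ?_)
    · exact Subtype.ext_iff.symm
    · exact Subtype.ext_iff.symm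
  · intro x
    have h : ZFSet.sUnion x.1 ∈ Lc Φ := by
      refine cls_mem Φ (zex (zan (.mem 0 2) (.mem 1 0))) (fun _ => x.1) (fun _ => x.2) fun z => ?_
      rw [ZFSet.mem_sUnion, lsat_zex]
      constructor
      · rintro ⟨w, hw, hz⟩
        have hw' := val x w hw
        exact ⟨Lc_trans Φ hw' hz, w, hw', lsat_zan.2 ⟨hw, hz⟩⟩
      · rintro ⟨-, w, -, hw⟩
        rw [lsat_zan] at hw
        exact ⟨w, hw.1, hw.2⟩
    refine ⟨⟨_, h⟩, fun z => ?_⟩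
    refine ZFSet.mem_sUnion.trans ?_
    constructor
    · rintro ⟨w, hw, hz⟩
      exact ⟨⟨w, val x w hw⟩, hw, hz⟩
    · rintro ⟨w, hw, hz⟩
      exact ⟨w.1, hw, hz⟩
  · intro x
    have h0 : ∀ z, z ∈ ZFSet.sep (fun z => z ∈ Lc Φ) x.1.powerset ↔ z ∈ Lc Φ ∧ z ⊆ x.1 := by
      intro z
      rw [ZFSet.mem_sep, ZFSet.mem_powerset, and_comm]
    have h := power_Lc Φ x.2 h0
    refine ⟨⟨_, h⟩, fun z => ?_⟩
    refine (h0 z.1).trans ⟨fun h w hw => h.2 hw, fun h => ⟨z.2, fun w hw => ?_⟩⟩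
    exact h ⟨w, val z w hw⟩ hw
  · have h : Ordinal.omega0.{0}.toZFSet ∈ Lc Φ := ⟨_, toZFSet_mem_U Φ _⟩
    refine ⟨⟨_, h⟩, ⟨⟨∅, 0, empty_mem_U Φ 0⟩, ?_, fun z hz => ZFSet.notMem_empty _ hz⟩, ?_⟩
    · refine Ordinal.mem_toZFSet_iff.2 ⟨0, Ordinal.omega0_pos, Ordinal.toZFSet_zero⟩
    · intro y hy
      obtain ⟨a, ha, hay⟩ := Ordinal.mem_toZFSet_iff.1 hy
      have h1 : (a + 1).toZFSet ∈ Ordinal.omega0.{0}.toZFSet :=
        Ordinal.toZFSet_mem_toZFSet_iff.2 (Ordinal.isSuccLimit_omega0.add_one_lt ha)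
      refine ⟨⟨_, Lc_trans Φ h h1⟩, h1, fun w => ?_⟩
      change w.1 ∈ (a + 1).toZFSet ↔ w.1 ∈ y.1 ∨ w = y
      rw [Ordinal.toZFSet_add_one, hay, ZFSet.mem_insert_iff, or_comm, Subtype.ext_iff]
  · intro φ v x
    have h0 : ∀ z, z ∈ ZFSet.sep (fun z => lsat Φ (· ∈ ·) (Lt Φ) (· ∈ Lc Φ) (tr φ)
        (cns z fun i => (v i).1)) x.1 ↔ z ∈ x.1 ∧ lsat Φ (· ∈ ·) (Lt Φ) (· ∈ Lc Φ) (tr φ)
        (cns z fun i => (v i).1) := fun z => ZFSet.mem_sep
    have h := sep_Lc Φ (tr φ) (fun i => (v i).1) (fun i => (v i).2) x.2 h0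
    refine ⟨⟨_, h⟩, fun z => (h0 z.1).trans (and_congr Iff.rfl ?_)⟩
    have h1 : (fun i => (cns z v i).1) = cns z.1 (fun i => (v i).1) := by
      funext i
      cases i <;> rfl
    rw [sat_tr Φ (Lt Φ), h1]
  · intro φ v x hx
    have hs : ∀ z w : Lc Φ, sat (CPY.Em (Lc Φ)) φ (cns w (cns z v)) ↔
        lsat Φ (· ∈ ·) (Lt Φ) (· ∈ Lc Φ) (tr φ) (cns w.1 (cns z.1 fun i => (v i).1)) := by
      intro z w
      have h1 : (fun i => (cns w (cns z v) i).1) = cns w.1 (cns z.1 (fun i => (v i).1)) := by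
        funext i
        rcases i with _ | _ | i <;> rfl
      rw [sat_tr Φ (Lt Φ), h1]
    have hex : ∀ z : ZFSet.{0}, ∃ w : ZFSet.{0}, z ∈ x.1 → w ∈ Lc Φ ∧ ∀ w' ∈ Lc Φ,
        (lsat Φ (· ∈ ·) (Lt Φ) (· ∈ Lc Φ) (tr φ) (cns w' (cns z fun i => (v i).1)) ↔ w' = w) := by
      intro z
      by_cases hz : z ∈ x.1
      · obtain ⟨w, hw, hw'⟩ := hx ⟨z, val x z hz⟩ hz
        refine ⟨w.1, fun _ => ⟨w.2, fun w' hw1 => ?_⟩⟩
        constructor
        · intro h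
          have h1 := hw' ⟨w', hw1⟩ ((hs ⟨z, val x z hz⟩ ⟨w', hw1⟩).2 h)
          exact congrArg Subtype.val h1
        · rintro rfl
          exact (hs _ _).1 hw
      · exact ⟨∅, fun h => absurd h hz⟩
    choose F hF using hex
    have := ZFSet.small_coe x.1
    have h0 : ∀ w, w ∈ ZFSet.range (fun z : Shrink.{0} x.1 => F ((equivShrink x.1).symm z).1) ↔
        ∃ z ∈ x.1, w = F z := by
      intro w
      rw [ZFSet.mem_range]
      constructor
      · rintro ⟨z, rfl⟩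
        exact ⟨_, ((equivShrink x.1).symm z).2, rfl⟩
      · rintro ⟨z, hz, rfl⟩
        refine ⟨equivShrink x.1 ⟨z, hz⟩, ?_⟩
        simp
    have h := repl_Lc Φ (tr φ) (fun i => (v i).1) (fun i => (v i).2) x.2 F (fun z hz => (hF z hz).1)
      (fun z hz w hw => (hF z hz).2 w hw) h0
    refine ⟨⟨_, h⟩, fun w => (h0 w.1).trans ?_⟩
    constructor
    · rintro ⟨z, hz, hw⟩
      exact ⟨⟨z, val x z hz⟩, hz, (hs _ _).2 (((hF z hz).2 w.1 w.2).2 hw)⟩
    · rintro ⟨z, hz, hw⟩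
      exact ⟨z.1, hz, ((hF z.1 hz).2 w.1 w.2).1 ((hs _ _).1 hw)⟩
  · intro x hne hd
    let c : ZFSet.{0} := ZFSet.sep (fun z => ∃ y ∈ x.1, z ∈ y ∧ ∀ w ∈ y, ¬ Lt Φ w z) (ZFSet.sUnion x.1)
    have h0 : ∀ z, z ∈ c ↔ ∃ y ∈ x.1, z ∈ y ∧ ∀ w ∈ y, ¬ Lt Φ w z := by
      intro z
      refine ZFSet.mem_sep.trans ⟨fun h => h.2, fun h => ⟨?_, h⟩⟩
      obtain ⟨y, hy, hz, -⟩ := h
      exact ZFSet.mem_sUnion.2 ⟨y, hy, hz⟩
    have h : c ∈ Lc Φ := by
      refine cls_mem Φ (zex (zan (.mem 0 2) (zan (.mem 1 0) (.all (.imp (.mem 0 1)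
        (zno (.lt 0 2))))))) (fun _ => x.1) (fun _ => x.2) fun z => ?_
      rw [h0, lsat_zex]
      constructor
      · rintro ⟨y, hy, hz, hw⟩
        have hy' := val x y hy
        refine ⟨Lc_trans Φ hy' hz, y, hy', ?_⟩
        rw [lsat_zan, lsat_zan]
        exact ⟨hy, hz, fun w _ hwy => hw w hwy⟩
      · rintro ⟨-, y, hy', hy⟩
        rw [lsat_zan, lsat_zan] at hy
        exact ⟨y, hy.1, hy.2.1, fun w hw => hy.2.2 w (Lc_trans Φ hy' hw) hw⟩
    refine ⟨⟨c, h⟩, fun y hy => ?_⟩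
    obtain ⟨z0, hz0⟩ := hne y hy
    obtain ⟨m, hm, hm'⟩ := (Lt_wf Φ).has_min {z | z ∈ y.1} ⟨z0.1, hz0⟩
    have key : ∀ z : Lc Φ, z.1 ∈ c → z.1 ∈ y.1 → ∀ w ∈ y.1, ¬ Lt Φ w z.1 := by
      intro z hz hzy
      obtain ⟨y', hy', hz', hw⟩ := (h0 z.1).1 hz
      have he : y.1 = y' := by
        by_contra hne'
        refine hd y ⟨y', val x y' hy'⟩ hy hy' (fun he => hne' (congrArg Subtype.val he)) ?_
        exact ⟨z, hzy, hz'⟩
      rw [he]
      exact hw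
    refine ⟨⟨m, val y m hm⟩, ⟨(h0 m).2 ⟨y.1, hy, hm, fun w hw => hm' w hw⟩, hm⟩, ?_⟩
    rintro z ⟨hz, hzy⟩
    apply Subtype.ext
    rcases Lt_lin Φ z.2 (val y m hm) with h1 | h1 | h1
    · exact absurd h1 (hm' z.1 hzy)
    · exact h1
    · exact absurd h1 (key z hz hzy m hm)

end LGr
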