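import Pool.Agent.LGr.Rows
import Pool.Agent.ZU.Ctb

/-! # The first uncountable ordinal of a transitive model

(problem MP_ba5606_gt, ARH Part II, block A; architect helper69)

`IsTht W θ`: the (native) ordinal `θ` is the first uncountable ordinal of the transitive model `W` (`ZU.IsOm1`, the notion of the untyped calculus, which is used in the block on forcing).

PROOFS.
* `ctb_iff`: `ZU.Ctb x`: there is a set `f`, a function on `om`, with `x ⊆ rg f`. From `f` one gets for an internal set `S` of `El x` an enumeration `ℕ → El x` (if `x` is not empty; `S` empty: first case of `Cnt`): `n ↦` the value `ap f (nt n)` if it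
  is in `x`, a fixed element otherwise; internal by `IF.of_df` / `IP.of_dfn2` (`WCal/ZUb.lean`) or `IP.of_sat`. Conversely take `S` = everything: an internal enumeration gives the set `f` (`ZU.ctb_of_om` with `df_if`, or the graph). Compare `op_eq`,
  `E_mem`, the natural numbers `nt` of both calculi agree (`nt N n`: prove `WCal.nt = ZU.nt` by induction, `om` likewise).
* `wo_of`: `ZU.WO W` from the field `wo` of `CPY.Mod` (ordinals: `ZFSet.IsOrdinal` gives `ZU.Ord`; functions: `op_val`, `op_eq`) or from `exists_ord_image` (`ZUb.lean`) and `choice`.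
* `isOrd_iff`: an element `x` of `W` is an ordinal of the calculus iff `x.1` is the set `α.toZFSet` of an ordinal `α` (`ZFSet.IsOrdinal` and Mathlib's `ZFSet.IsOrdinal.toZFSet_rank_eq` or similar).
* `exists_tht`: `ZU.exists_om1` with `wo_of`, `isOrd_iff`.
* `IsTht.cnt`, `.bdd`, `.not_ctb`: from `om1` and `ctb_iff`. `not_ctb`: otherwise `θ ⊆ θ` is countable, so `θ ⊆ b ∈ θ`. `lt_of_ctb`: if `θ ≤ α` then `θ.toZFSet ⊆ α.toZFSet` is countable. `succ`: `α + 1 < θ`: if not then `θ = α + 1` is countable.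
  `lim`, `om_lt`: from `succ`, `ord_tri`; `ω` is countable, so `ω < θ` by `lt_of_ctb`. -/

universe u v w

namespace LGr

open STP WCal

private theorem tnt_eq {N : Type u} [WM N] (n : ℕ) : WCal.nt N n = ZU.nt n := by
  induction n with
  | zero => exact emp_eq
  | succ n ih =>
    refine ZU.ext fun z => ?_
    rw [ZU.nt_succ, ZU.mem_sc, ← ih]
    exact E_sc

/-- an enumeration of all elements -/
theorem ctb_of_enum {N : Type u} [WM N] {x : N} {c : ℕ → El x} (hc : IF N c) (h : ∀ a, ∃ n, c n = a) :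
    ZU.Ctb x := by
  obtain ⟨F, hF, hFc⟩ := df_if hc
  refine ZU.ctb_of_om hF fun z hz => ?_
  obtain ⟨n, hn⟩ := h ⟨z, hz⟩
  refine ⟨n, ?_⟩
  have h1 := hFc n
  have h2 : (cd N n : N) = ZU.nt n := tnt_eq n
  rw [h2, hn] at h1
  exact h1.symm

theorem ctb_iff {N : Type u} [WM N] {x : N} : ZU.Ctb x ↔ ∀ S : St N (El x), Cnt S := by
  classical
  constructor
  · rintro ⟨f, hf, hx⟩ S
    by_cases hS : ∀ a, a ∉ S
    · exact Or.inl hS
    · push Not at hS
      obtain ⟨a0, -⟩ := hS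
      have hx' : ∀ n : ℕ, ∃ a : El x, (ZU.ap f (ZU.nt n) ∈ x → a.v = ZU.ap f (ZU.nt n)) ∧
          (¬ ZU.ap f (ZU.nt n) ∈ x → a = a0) := by
        intro n
        by_cases h1 : ZU.ap f (ZU.nt n) ∈ x
        · exact ⟨⟨ZU.ap f (ZU.nt n), h1⟩, fun _ => rfl, fun h2 => absurd h1 h2⟩
        · exact ⟨a0, fun h2 => absurd h2 h1, fun _ => rfl⟩
      choose e he1 he2 using hx'
      have he : IF N e := by
        refine IF.of_df (F := fun z => ZU.ife (ZU.ap f z ∈ x) (ZU.ap f z) a0.v) ?_ fun n => ?_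
        · simp (maxDischargeDepth := 99)
        · have h2 : (cd N n : N) = ZU.nt n := tnt_eq n
          rw [h2]
          by_cases h1 : ZU.ap f (ZU.nt n) ∈ x
          · rw [ZU.ife_pos h1]
            exact he1 n h1
          · rw [ZU.ife_neg h1, he2 n h1]
            rfl
      refine Or.inr ⟨⟨e, he⟩, fun a _ => ?_⟩
      obtain ⟨z, hz, hza⟩ := hf.mem_rg.1 (hx a.v a.h)
      obtain ⟨n, rfl⟩ := ZU.mem_om.1 hz
      refine ⟨n, El.ext ?_⟩
      have h1 : ZU.ap f (ZU.nt n) ∈ x := by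
        rw [← hza]
        exact a.h
      exact (he1 n h1).trans hza.symm
  · intro h
    rcases h ⟨{a | True}, IP.const True⟩ with h1 | ⟨e, he⟩
    · have h2 : x = ∅ := ZU.eq_em fun z hz => h1 ⟨z, hz⟩ trivial
      rw [h2]
      exact ZU.ctb_em
    · exact ctb_of_enum e.int fun a => he a trivial

section

variable {W : Set ZFSet.{0}} [hW : Fact (CPY.Mod W)]

private theorem tmem {x y : W} : x ∈ y ↔ x.1 ∈ y.1 := Iff.rfl

private theorem tex {x : W} {z : ZFSet.{0}} (hz : z ∈ x.1) : ∃ y : W, y.1 = z ∧ y ∈ x :=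
  ⟨⟨z, hW.out.trans x.1 x.2 z hz⟩, rfl, hz⟩

private theorem ttr_iff {x : W} : ZU.Tr x ↔ x.1.IsTransitive := by
  constructor
  · intro h y hy z hz
    obtain ⟨y', rfl, hy'⟩ := tex hy
    obtain ⟨z', rfl, hz'⟩ := tex hz
    exact h y' hy' z' hz'
  · intro h y hy z hz
    exact h y.1 hy hz

theorem isOrd_iff {x : W} : ZU.Ord x ↔ ∃ α : Ordinal.{0}, x.1 = α.toZFSet := by
  have h1 : ZU.Ord x ↔ x.1.IsOrdinal := by
    rw [ZFSet.isOrdinal_iff_forall_mem_isTransitive]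
    refine and_congr ttr_iff ?_
    constructor
    · intro h y hy
      obtain ⟨y', rfl, hy'⟩ := tex hy
      exact ttr_iff.1 (h y' hy')
    · intro h y hy
      exact ttr_iff.2 (h y.1 hy)
  rw [h1]
  constructor
  · intro h
    exact ⟨x.1.rank, h.toZFSet_rank_eq.symm⟩
  · rintro ⟨α, hα⟩
    rw [hα]
    exact ZFSet.isOrdinal_toZFSet α

private theorem wo_gen (N : Type u) [WM N] : ZU.WO N := by
  intro A
  obtain ⟨o, ho, f, ⟨g, hg⟩, hf⟩ := exists_ord_image A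
  have hgo : ∀ x y : N, ZU.op x y ∈ g ↔ ∃ a : El o, x = a.v ∧ y = f a := by
    intro x y
    refine (hg (ZU.op x y)).trans (exists_congr fun a => ?_)
    rw [op_eq, ZU.op_inj]
  refine ⟨o, g, ⟨ho.1, ho.2⟩, ?_, fun y hy => ?_⟩
  · rw [ZU.isF_iff]
    refine ⟨fun p hp => ?_, fun x hx => ?_, fun x y z hy hz => ?_⟩
    · obtain ⟨a, ha⟩ := (hg p).1 hp
      exact ⟨a.v, f a, a.h, ZU.isOP_iff.2 (ha.trans (op_eq _ _))⟩
    · exact ⟨f ⟨x, hx⟩, ZU.val_iff.2 ((hgo _ _).2 ⟨⟨x, hx⟩, rfl, rfl⟩)⟩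
    · rw [ZU.val_iff, hgo] at hy hz
      obtain ⟨a, rfl, rfl⟩ := hy
      obtain ⟨b, h1, rfl⟩ := hz
      rw [El.ext h1]
  · obtain ⟨a, ha⟩ := hf y hy
    rw [ZU.mem_rg]
    exact ⟨a.v, (hgo _ _).2 ⟨a, rfl, ha.symm⟩⟩

variable (W) in
theorem wo_of : ZU.WO W := wo_gen W

variable (W) in
/-- `θ` is the first uncountable ordinal of `W` -/
structure IsTht (θ : Ordinal.{0}) : Prop where
  mem : θ.toZFSet ∈ W
  om1 : ZU.IsOm1 (⟨θ.toZFSet, mem⟩ : W)

variable (W) in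
theorem exists_tht : ∃ θ : Ordinal.{0}, IsTht W θ := by
  obtain ⟨x, hx⟩ := ZU.exists_om1 (wo_of W)
  obtain ⟨α, hα⟩ := isOrd_iff.1 hx.1
  have h1 : α.toZFSet ∈ W := hα ▸ x.2
  have h2 : x = ⟨α.toZFSet, h1⟩ := Subtype.ext hα
  exact ⟨α, h1, h2 ▸ hx⟩

variable {θ : Ordinal.{0}} (h : IsTht W θ)

include h

theorem IsTht.lt_mem {α : Ordinal.{0}} (hα : α < θ) : α.toZFSet ∈ W :=
  hW.out.trans _ h.mem _ (Ordinal.toZFSet_mem_toZFSet_iff.2 hα)

theorem IsTht.cnt {α : Ordinal.{0}} (hα : α < θ) : ZU.Ctb (⟨α.toZFSet, h.lt_mem hα⟩ : W) :=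
  h.om1.2.1 ⟨α.toZFSet, h.lt_mem hα⟩ (Ordinal.toZFSet_mem_toZFSet_iff.2 hα)

theorem IsTht.not_ctb : ¬ ZU.Ctb (⟨θ.toZFSet, h.mem⟩ : W) := by
  intro hc
  obtain ⟨b, hb, hb'⟩ := h.om1.2.2 ⟨θ.toZFSet, h.mem⟩ (ZU.sub_rfl _) hc
  have h1 : b.1 ∈ b.1 := hb' b hb
  exact ZFSet.mem_irrefl _ h1

theorem IsTht.bdd {A : W} (hA : ZU.Ctb A) (hs : ∀ z ∈ A.1, z ∈ θ.toZFSet) :
    ∃ α < θ, ∀ z ∈ A.1, z ∈ α.toZFSet := by
  obtain ⟨b, hb, hb'⟩ := h.om1.2.2 A (fun z hz => hs z.1 hz) hA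
  obtain ⟨α, hα, hαb⟩ := Ordinal.mem_toZFSet_iff.1 (show b.1 ∈ θ.toZFSet from hb)
  refine ⟨α, hα, fun z hz => ?_⟩
  obtain ⟨z', rfl, hz'⟩ := tex hz
  rw [hαb]
  exact hb' z' hz'

theorem IsTht.lt_of_ctb {α : Ordinal.{0}} (hα : α.toZFSet ∈ W) (hc : ZU.Ctb (⟨α.toZFSet, hα⟩ : W)) : α < θ := by
  by_contra h1
  rw [not_lt] at h1
  refine h.not_ctb (hc.sub fun z hz => ?_)
  exact Ordinal.toZFSet_subset_toZFSet_iff.2 h1 hz

private theorem IsTht.succ {α : Ordinal.{0}} (hα : α < θ) : α + 1 < θ := by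
  have h1 : α + 1 ≤ θ := Order.add_one_le_of_lt hα
  rcases h1.lt_or_eq with h2 | h2
  · exact h2
  · exfalso
    refine h.not_ctb (((h.cnt hα).cup (ZU.ctb_sg ⟨α.toZFSet, h.lt_mem hα⟩)).sub fun z hz => ?_)
    rw [ZU.mem_cup, ZU.mem_sg]
    have h3 : z.1 ∈ (α + 1).toZFSet := by
      rw [h2]
      exact hz
    rw [Ordinal.toZFSet_add_one, ZFSet.mem_insert_iff] at h3
    rcases h3 with h3 | h3
    · exact Or.inr (Subtype.ext h3)
    · exact Or.inl h3

private theorem IsTht.ne_zero : θ ≠ 0 := by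
  intro h0
  obtain ⟨α, hα, -⟩ := h.bdd (A := ∅) ZU.ctb_em (fun z hz => by
    obtain ⟨z', rfl, hz'⟩ := tex hz
    exact absurd hz' (ZU.not_mem_em z'))
  rw [h0] at hα
  exact absurd hα (not_lt.2 zero_le)

theorem IsTht.lim : Order.IsSuccLimit θ := by
  rw [Ordinal.isSuccLimit_iff, Order.isSuccPrelimit_iff_succ_lt]
  refine ⟨h.ne_zero, fun α hα => ?_⟩
  exact h.succ hα

theorem IsTht.om_lt : Ordinal.omega0 < θ := by
  have h1 : ∀ n : ℕ, (n : Ordinal.{0}) < θ := by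
    intro n
    induction n with
    | zero =>
      rw [Nat.cast_zero]
      exact pos_iff_ne_zero.2 h.ne_zero
    | succ n ih =>
      rw [Nat.cast_succ]
      exact h.succ ih
  have h2 : Ordinal.omega0 ≤ θ := Ordinal.omega0_le.2 fun n => (h1 n).le
  rcases h2.lt_or_eq with h3 | h3
  · exact h3
  · exfalso
    refine h.not_ctb (ZU.ctb_om.sub fun z hz => ?_)
    have h4 : z.1 ∈ Ordinal.omega0.toZFSet := by
      rw [h3]
      exact hz
    obtain ⟨α, hα, hz1⟩ := Ordinal.mem_toZFSet_iff.1 h4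
    obtain ⟨n, rfl⟩ := Ordinal.lt_omega0.1 hα
    rw [ZU.mem_om]
    refine ⟨n, Subtype.ext ?_⟩
    rw [← tnt_eq, nt_val, zn_eq]
    exact hz1.symm

end

end LGr
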