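import Pool.Agent.LGr.Par

/-! # Absoluteness for projections of trees

(problem MP_ba5606_gt, ARH Part II, block A; architect helper69)

`N` is any well-founded model (`WM N`); `ini x n = [x 0, …, x (n - 1)]` (`WCal/Br.lean`, with
`ini_length`, `ini_get`).

PROOFS.
* `abs_tree`: `exists_branch` (`WCal/Br.lean`) for the type `ℕ × ℕ` (pairs `(z n, w n)`) and the
  predicate `fun l => T (l.map Prod.fst) (l.map Prod.snd) (ini x l.length)` (internal: `IF.map`,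
  `IF.rangeMap`, `IF.length`;
  automation `WCal/Simp.lean`). `(ini p n).map Prod.fst = ini (fun k => (p k).1) n`.
* `abs_rank`: `exists_branch` for the type `(ℕ × ℕ) × α` (triples `((z n, w n), ρ n)`) and the
  predicate
  `fun l => T (l.map (·.1.1)) (l.map (·.1.2)) (ini x l.length) ∧ ∀ i j p q s, l[i]? = some p →
  l[j]? = some q → l[Nat.pair 0 (4 * Nat.pair i j + 2)]? = some s → s.1.2 = 1 → r p.2 q.2`
  (quantifiers over `ℕ` and over the type: `IP.all`; `IF.getElem?`, `IP.eqSome`, `IF.npair`). By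
  definition `Jb (dc 0 w) i j ↔ w (Nat.pair 0 (4 * Nat.pair i j + 2)) = 1`.
* `ip_tree`: by `abs_tree` for each `c`: `(w c, x c) ∈ B` iff there is an internal `z` with `∀ n,
  T (ini z n) (ini (w c) n) (ini (x c) n)` (apply `exists_branch` to the native `z`, with `w c`,
  `x c` fixed), and this is internal: quantifier over
  the type `Fn N ℕ ℕ`, `IF.rangeMap`, `IF.app`. -/

universe u v w

namespace LGr

open STP WCal

variable {N : Type u} [WM N] {T : List ℕ → List ℕ → List ℕ → Prop} {B : Set ((ℕ → ℕ) × (ℕ → ℕ))}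

private theorem map_ini {α β : Type*} (f : α → β) (p : ℕ → α) (n : ℕ) :
    (ini p n).map f = ini (fun k => f (p k)) n := by
  simp [ini, Function.comp_def]

private theorem aget {α : Type*} (x : ℕ → α) {n i : ℕ} (h : i < n) :
    (ini x n)[i]? = some (x i) := by
  simp [ini, List.getElem?_range h]

private theorem aget_eq {α : Type*} {x : ℕ → α} {n i : ℕ} {a : α} (h : (ini x n)[i]? = some a) :
    i < n ∧ x i = a := by
  rcases lt_or_ge i n with h1 | h1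
  · rw [aget x h1, Option.some_inj] at h
    exact ⟨h1, h⟩
  · rw [List.getElem?_eq_none (by rw [ini_length]; exact h1)] at h
    exact absurd h (by simp)

theorem abs_tree (hB : IsTr T B) (hT : IP N (fun p : List ℕ × List ℕ × List ℕ => T p.1 p.2.1 p.2.2))
    {x : ℕ → ℕ} (hx : IF N x) {w : ℕ → ℕ} (hw : (w, x) ∈ B) :
    ∃ w' : ℕ → ℕ, IF N w' ∧ (w', x) ∈ B := by
  obtain ⟨z, hz⟩ := (hB w x).1 hw
  have h1 : IF N (fun l : List (ℕ × ℕ) => l.map (fun p => p.1)) :=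
    IF.map (f := fun (_ : List (ℕ × ℕ)) (p : ℕ × ℕ) => p.1) (l := fun l => l)
      (IF.fst.comp IF.snd) IF.id
  have h2 : IF N (fun l : List (ℕ × ℕ) => l.map (fun p => p.2)) :=
    IF.map (f := fun (_ : List (ℕ × ℕ)) (p : ℕ × ℕ) => p.2) (l := fun l => l)
      (IF.snd.comp IF.snd) IF.id
  have h3 : IF N (fun l : List (ℕ × ℕ) => ini x l.length) :=
    IF.rangeMap (x := fun (_ : List (ℕ × ℕ)) => x) (hx.comp IF.snd) (IF.length IF.id)
  have hi : IP N (fun l : List (ℕ × ℕ) =>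
      T (l.map (fun p => p.1)) (l.map (fun p => p.2)) (ini x l.length)) :=
    IP.comp3 hT h1 h2 h3
  obtain ⟨y, hy, hy'⟩ := exists_branch hi (fun n => (z n, w n)) fun n => by
    rw [ini_length, map_ini, map_ini]
    exact hz n
  refine ⟨fun n => (y n).2, IF.comp IF.snd hy, (hB _ _).2 ⟨fun n => (y n).1, fun n => ?_⟩⟩
  have h := hy' n
  rw [ini_length, map_ini, map_ini] at h
  exact h

theorem abs_rank (hB : IsTr T B) (hT : IP N (fun p : List ℕ × List ℕ × List ℕ => T p.1 p.2.1 p.2.2))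
    {x : ℕ → ℕ} (hx : IF N x) {w : ℕ → ℕ} (hw : (w, x) ∈ B)
    {α : Type v} [WTy N α] {r : α → α → Prop}
    (hr : IP N (fun p : α × α => r p.1 p.2)) {ρ : ℕ → α}
    (hρ : ∀ i j, Jb (dc 0 w) i j → r (ρ i) (ρ j)) :
    ∃ (w' : ℕ → ℕ) (ρ' : ℕ → α), IF N w' ∧ IF N ρ' ∧ (w', x) ∈ B ∧
      ∀ i j, Jb (dc 0 w') i j → r (ρ' i) (ρ' j) := by
  obtain ⟨z, hz⟩ := (hB w x).1 hw
  have h1 : IF N (fun l : List ((ℕ × ℕ) × α) => l.map (fun p => p.1.1)) :=
    IF.map (f := fun (_ : List ((ℕ × ℕ) × α)) (p : (ℕ × ℕ) × α) => p.1.1) (l := fun l => l)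
      (IF.fst.comp (IF.fst.comp IF.snd)) IF.id
  have h2 : IF N (fun l : List ((ℕ × ℕ) × α) => l.map (fun p => p.1.2)) :=
    IF.map (f := fun (_ : List ((ℕ × ℕ) × α)) (p : (ℕ × ℕ) × α) => p.1.2) (l := fun l => l)
      (IF.snd.comp (IF.fst.comp IF.snd)) IF.id
  have h3 : IF N (fun l : List ((ℕ × ℕ) × α) => ini x l.length) :=
    IF.rangeMap (x := fun (_ : List ((ℕ × ℕ) × α)) => x) (hx.comp IF.snd) (IF.length IF.id)
  have hi1 : IP N (fun l : List ((ℕ × ℕ) × α) =>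
      T (l.map (fun p => p.1.1)) (l.map (fun p => p.1.2)) (ini x l.length)) :=
    IP.comp3 hT h1 h2 h3
  have hi2 : IP N (fun l : List ((ℕ × ℕ) × α) =>
      ∀ t : ℕ × ℕ × ((ℕ × ℕ) × α) × ((ℕ × ℕ) × α) × ((ℕ × ℕ) × α),
        l[t.1]? = some t.2.2.1 → l[t.2.1]? = some t.2.2.2.1 →
        l[Nat.pair 0 (4 * Nat.pair t.1 t.2.1 + 2)]? = some t.2.2.2.2 →
        t.2.2.2.2.1.2 = 1 → r t.2.2.1.2 t.2.2.2.1.2) := by
    refine IP.all (P := fun (l : List ((ℕ × ℕ) × α))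
      (t : ℕ × ℕ × ((ℕ × ℕ) × α) × ((ℕ × ℕ) × α) × ((ℕ × ℕ) × α)) =>
        l[t.1]? = some t.2.2.1 → l[t.2.1]? = some t.2.2.2.1 →
        l[Nat.pair 0 (4 * Nat.pair t.1 t.2.1 + 2)]? = some t.2.2.2.2 →
        t.2.2.2.2.1.2 = 1 → r t.2.2.1.2 t.2.2.2.1.2) ?_
    have e1 := IF.fst.comp (IF.snd (N := N) (α := List ((ℕ × ℕ) × α))
      (β := ℕ × ℕ × ((ℕ × ℕ) × α) × ((ℕ × ℕ) × α) × ((ℕ × ℕ) × α)))
    have f1 := IF.snd.comp (IF.snd (N := N) (α := List ((ℕ × ℕ) × α))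
      (β := ℕ × ℕ × ((ℕ × ℕ) × α) × ((ℕ × ℕ) × α) × ((ℕ × ℕ) × α)))
    have e2 := IF.fst.comp f1
    have f2 := IF.snd.comp f1
    have e3 := IF.fst.comp f2
    have f3 := IF.snd.comp f2
    have e4 := IF.fst.comp f3
    have e5 := IF.snd.comp f3
    have e6 := IF.npair (IF.const (α := List ((ℕ × ℕ) × α) ×
      (ℕ × ℕ × ((ℕ × ℕ) × α) × ((ℕ × ℕ) × α) × ((ℕ × ℕ) × α))) 0)
      (IF.add (IF.mul (IF.const 4) (IF.npair e1 e2)) (IF.const 2))
    exact IP.imp (IP.eqSome (IF.getElem? IF.fst e1) e3)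
      (IP.imp (IP.eqSome (IF.getElem? IF.fst e2) e4)
        (IP.imp (IP.eqSome (IF.getElem? IF.fst e6) e5)
          (IP.imp (IP.eq (IF.snd.comp (IF.fst.comp e5)) (IF.const 1))
            (hr.comp2 (IF.snd.comp e3) (IF.snd.comp e4)))))
  obtain ⟨y, hy, hy'⟩ := exists_branch (hi1.and hi2) (fun n => ((z n, w n), ρ n)) fun n => by
    refine ⟨?_, ?_⟩
    · rw [ini_length, map_ini, map_ini]
      exact hz n
    · rintro ⟨i, j, p, q, s⟩ hp hq hs h1
      dsimp only at hp hq hs h1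
      obtain ⟨-, rfl⟩ := aget_eq hp
      obtain ⟨-, rfl⟩ := aget_eq hq
      obtain ⟨-, rfl⟩ := aget_eq hs
      refine hρ i j ?_
      simpa [Jb, dc] using h1
  refine ⟨fun n => (y n).1.2, fun n => (y n).2, IF.comp IF.snd (IF.comp IF.fst hy),
    IF.comp IF.snd hy, (hB _ _).2 ⟨fun n => (y n).1.1, fun n => ?_⟩, fun i j hij => ?_⟩
  · have h := (hy' n).1
    rw [ini_length, map_ini, map_ini] at h
    exact h
  · have hij' : (y (Nat.pair 0 (4 * Nat.pair i j + 2))).1.2 = 1 := by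
      simpa [Jb, dc] using hij
    have a1 := aget y (show i < i + j + Nat.pair 0 (4 * Nat.pair i j + 2) + 1 by omega)
    have a2 := aget y (show j < i + j + Nat.pair 0 (4 * Nat.pair i j + 2) + 1 by omega)
    have a3 := aget y (show Nat.pair 0 (4 * Nat.pair i j + 2) <
      i + j + Nat.pair 0 (4 * Nat.pair i j + 2) + 1 by omega)
    exact (hy' (i + j + Nat.pair 0 (4 * Nat.pair i j + 2) + 1)).2
      ⟨i, j, y i, y j, y (Nat.pair 0 (4 * Nat.pair i j + 2))⟩ a1 a2 a3 hij'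

/-- membership of internal sequences in `B` is an internal predicate -/
theorem ip_tree (hB : IsTr T B) (hT : IP N (fun p : List ℕ × List ℕ × List ℕ => T p.1 p.2.1 p.2.2))
    {γ : Type v} [WTy N γ] {w x : γ → ℕ → ℕ} (hw : IF N (fun p : γ × ℕ => w p.1 p.2))
    (hx : IF N (fun p : γ × ℕ => x p.1 p.2)) : IP N (fun c => (w c, x c) ∈ B) := by
  have key : ∀ c, (w c, x c) ∈ B ↔
      ∃ z : Fn N ℕ ℕ, ∀ n : ℕ, T (ini z n) (ini (w c) n) (ini (x c) n) := by
    intro c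
    rw [hB]
    constructor
    · rintro ⟨z, hz⟩
      have h2 : IF N (fun l : List ℕ => ini (w c) l.length) :=
        IF.rangeMap (x := fun (_ : List ℕ) => w c) ((hw.sec c).comp IF.snd) (IF.length IF.id)
      have h3 : IF N (fun l : List ℕ => ini (x c) l.length) :=
        IF.rangeMap (x := fun (_ : List ℕ) => x c) ((hx.sec c).comp IF.snd) (IF.length IF.id)
      have hi : IP N (fun l : List ℕ => T l (ini (w c) l.length) (ini (x c) l.length)) :=
        IP.comp3 hT IF.id h2 h3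
      obtain ⟨y, hy, hy'⟩ := exists_branch hi z fun n => by
        rw [ini_length]
        exact hz n
      refine ⟨⟨y, hy⟩, fun n => ?_⟩
      have h := hy' n
      rw [ini_length] at h
      exact h
    · rintro ⟨z, hz⟩
      exact ⟨z, hz⟩
  refine IP.congr (fun c => (key c).symm) (IP.ex (P := fun c (z : Fn N ℕ ℕ) =>
    ∀ n : ℕ, T (ini z n) (ini (w c) n) (ini (x c) n)) (IP.all
      (P := fun (p : γ × Fn N ℕ ℕ) (n : ℕ) =>
        T (ini p.2 n) (ini (w p.1) n) (ini (x p.1) n)) ?_))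
  refine IP.comp3 hT ?_ ?_ ?_
  · exact IF.rangeMap (x := fun (p : (γ × Fn N ℕ ℕ) × ℕ) (i : ℕ) => p.1.2 i)
      (IF.app (IF.snd.comp (IF.fst.comp IF.fst)) IF.snd) IF.snd
  · exact IF.rangeMap (x := fun (p : (γ × Fn N ℕ ℕ) × ℕ) (i : ℕ) => w p.1.1 i)
      (IF.comp2 hw (IF.fst.comp (IF.fst.comp IF.fst)) IF.snd) IF.snd
  · exact IF.rangeMap (x := fun (p : (γ × Fn N ℕ ℕ) × ℕ) (i : ℕ) => x p.1.1 i)
      (IF.comp2 hx (IF.fst.comp (IF.fst.comp IF.fst)) IF.snd) IF.snd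

/-- components and joins -/
theorem if_dc {γ : Type v} [WTy N γ] {k : γ → ℕ} {w : γ → ℕ → ℕ} {n : γ → ℕ} (hk : IF N k)
    (hw : IF N (fun p : γ × ℕ => w p.1 p.2)) (hn : IF N n) :
    IF N (fun c => dc (k c) (w c) (n c)) := by
  refine IF.ofP (Q := fun c b => w c (Nat.pair (k c) (n c)) = 1 ↔ b = true) ?_ fun c b => ?_
  · exact IP.iff (IP.eq (IF.comp2 hw IF.fst (IF.npair (hk.comp IF.fst) (hn.comp IF.fst)))
      (IF.const 1)) (IP.eq IF.snd (IF.const true))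
  · unfold dc
    by_cases h : w c (Nat.pair (k c) (n c)) = 1 <;> cases b <;> simp [h]

theorem if_jn {f : ℕ → ℕ → Bool} (hf : IF N (fun p : ℕ × ℕ => f p.1 p.2)) : IF N (jn f) := by
  exact IF.comp (g := Bool.toNat) (f := fun n : ℕ => f (Nat.unpair n).1 (Nat.unpair n).2)
    (IF.finite Bool.toNat) (IF.comp2 hf (IF.unpair1 IF.id) (IF.unpair2 IF.id))

end LGr
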