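import Pool.Agent.LGr.Wol
import Pool.Agent.LGr.OrdL

/-! # The native levels are coherent structures

(problem MP_ba5606_gt, ARH Part II, block A; architect helper69)

PROOFS.
* `coh_U` (`δ` a limit): the type of elements is `U Φ δ` (transitive), the indices are the ordinals `< δ`, the level `i` is `U Φ i`. `Suc` in `Set.Iio δ` is `i = j + 1`. By `lsat_sub` satisfaction
  in the structure with domain `U Φ j` is the native one, and keys of the structure with parameters in `U Φ j` are keys of `ZFSet` with parameters in `U Φ j`; `Df`, `less` correspond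
  (`DfU_iff`, `lessU_iff`). `ext`: elements of elements of `U Φ δ` are in `U Φ δ`. `emp`: `∅`. `tot`, `lim`: `U_lim`. `low`: `U_zero`. `suc`: `U_succ`. `sucex`: `exists_Df` (the set is in
  `U (j + 1) ⊆ U δ`). `ltlow`: `Lt_irr`. `ltsuc`: `Lt_succ`. -/

universe u v u' v'

namespace LGr

open STP

variable {Φ : ℕ → ℕ → ℕ → ℕ → Prop}

section sub

variable {T : Set ZFSet.{0}} {D : ZFSet.{0} → Prop} {lt : ZFSet.{0} → ZFSet.{0} → Prop}

/-- the key in the class of all sets -/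
private def kv (k : Key T) : Key ZFSet.{0} := ⟨k.φ, k.a.1, k.l.map Subtype.val⟩

private theorem kv_env (k : Key T) (i : ℕ) : (kv k).env i = (k.env i).1 := by
  change ((k.a :: k.l).map Subtype.val).getD i k.a.1 = ((k.a :: k.l).getD i k.a).1
  rw [List.getD_map]

private theorem kv_ok (k : Key T) : (kv k).ok D ↔ k.ok fun x => D x.1 := by
  refine and_congr Iff.rfl ?_
  exact List.forall_mem_map

private theorem kv_list (l : List ZFSet.{0}) (h : ∀ y ∈ l, y ∈ T) :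
    ∃ l' : List T, l'.map Subtype.val = l := by
  induction l with
  | nil => exact ⟨[], rfl⟩
  | cons a l ih =>
    obtain ⟨l', hl'⟩ := ih fun y hy => h y (List.mem_cons_of_mem _ hy)
    refine ⟨⟨a, h a List.mem_cons_self⟩ :: l', ?_⟩
    rw [List.map_cons, hl']

private theorem kv_surj (hD : ∀ x, D x → x ∈ T) {k' : Key ZFSet.{0}} (hk : k'.ok D) :
    ∃ k : Key T, kv k = k' := by
  obtain ⟨l', hl'⟩ := kv_list (T := T) k'.l fun y hy => hD y (hk.2 y hy)
  refine ⟨⟨k'.φ, ⟨k'.a, hD _ hk.1⟩, l'⟩, ?_⟩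
  exact Key.ext rfl rfl hl'

private theorem kv_ext' (hT : ∀ x ∈ T, ∀ y ∈ x, y ∈ T) (hD : ∀ x, D x → x ∈ T) (k : Key T)
    (z : T) : k.ext' Φ (fun x y : T => x.1 ∈ y.1) (fun x y => lt x.1 y.1) (fun x => D x.1) z ↔
      (kv k).ext' Φ (· ∈ ·) lt D z.1 := by
  refine and_congr Iff.rfl ?_
  refine (lsat_sub Φ hT hD lt k.φ (cns z k.env)).trans ?_
  have h1 : (fun i => (cns z k.env i).1) = cns z.1 (kv k).env := by
    funext i
    cases i with
    | zero => rfl
    | succ i => exact (kv_env k i).symm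
  rw [h1]
  exact Iff.rfl

private theorem kv_dfs (hT : ∀ x ∈ T, ∀ y ∈ x, y ∈ T) (hD : ∀ x, D x → x ∈ T) (k : Key T)
    (x : T) : k.dfs Φ (fun x y : T => x.1 ∈ y.1) (fun x y => lt x.1 y.1) (fun x => D x.1) x ↔
      (kv k).dfs Φ (· ∈ ·) lt D x.1 := by
  constructor
  · intro h z
    constructor
    · intro hz
      exact (kv_ext' hT hD k ⟨z, hT x.1 x.2 z hz⟩).1 ((h ⟨z, hT x.1 x.2 z hz⟩).1 hz)
    · intro hz
      exact (h ⟨z, hD z hz.1⟩).2 ((kv_ext' hT hD k ⟨z, hD z hz.1⟩).2 hz)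
  · intro h z
    exact (h z.1).trans (kv_ext' hT hD k z).symm

private theorem lex_cons {u v : ZFSet.{0}} {m m' : List ZFSet.{0}}
    (h : List.Lex lt (u :: m) (v :: m')) : lt u v ∨ (u = v ∧ List.Lex lt m m') := by
  cases h with
  | rel h1 => exact Or.inl h1
  | cons h1 => exact Or.inr ⟨rfl, h1⟩

private theorem lex_map (l l' : List T) :
    List.Lex (fun x y : T => lt x.1 y.1) l l' ↔
      List.Lex lt (l.map Subtype.val) (l'.map Subtype.val) := by
  constructor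
  · intro h
    induction h with
    | nil => exact List.Lex.nil
    | rel h1 => exact List.Lex.rel h1
    | cons _ ih => exact List.Lex.cons ih
  · induction l generalizing l' with
    | nil =>
      intro h
      cases l' with
      | nil => exact absurd h List.not_lex_nil
      | cons b l' => exact List.Lex.nil
    | cons a l ih =>
      intro h
      cases l' with
      | nil => exact absurd h List.not_lex_nil
      | cons b l' =>
        rcases lex_cons h with h | ⟨h1, h2⟩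
        · exact List.Lex.rel h
        · obtain rfl : a = b := Subtype.ext h1
          exact List.Lex.cons (ih l' h2)

private theorem kv_klt (k k' : Key T) :
    klt (fun x y : T => lt x.1 y.1) k k' ↔ klt lt (kv k) (kv k') := by
  unfold klt
  refine or_congr Iff.rfl (and_congr Iff.rfl ?_)
  rw [List.shortlex_def, List.shortlex_def]
  have h1 : ∀ k : Key T, (kv k).a :: (kv k).l = (k.a :: k.l).map Subtype.val := fun k => rfl
  rw [h1, h1, List.length_map, List.length_map, ← lex_map]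

private theorem Df_sub (hT : ∀ x ∈ T, ∀ y ∈ x, y ∈ T) (hD : ∀ x, D x → x ∈ T) (x : T) :
    Df Φ (fun x y : T => x.1 ∈ y.1) (fun x y => lt x.1 y.1) (fun x => D x.1) x ↔
      Df Φ (· ∈ ·) lt D x.1 := by
  constructor
  · rintro ⟨k, hk, h⟩
    exact ⟨kv k, (kv_ok k).2 hk, (kv_dfs hT hD k x).1 h⟩
  · rintro ⟨k', hk, h⟩
    obtain ⟨k, rfl⟩ := kv_surj hD hk
    exact ⟨k, (kv_ok k).1 hk, (kv_dfs hT hD k x).2 h⟩

private theorem less_sub (hT : ∀ x ∈ T, ∀ y ∈ x, y ∈ T) (hD : ∀ x, D x → x ∈ T) (x y : T) :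
    less Φ (fun x y : T => x.1 ∈ y.1) (fun x y => lt x.1 y.1) (fun x => D x.1) x y ↔
      less Φ (· ∈ ·) lt D x.1 y.1 := by
  constructor
  · rintro ⟨k, hk, h, h2⟩
    refine ⟨kv k, (kv_ok k).2 hk, (kv_dfs hT hD k x).1 h, fun k' hk' h' => ?_⟩
    obtain ⟨k'', rfl⟩ := kv_surj hD hk'
    exact (kv_klt k k'').1 (h2 k'' ((kv_ok k'').1 hk') ((kv_dfs hT hD k'' y).2 h'))
  · rintro ⟨k1, hk, h, h2⟩
    obtain ⟨k, rfl⟩ := kv_surj hD hk
    refine ⟨k, (kv_ok k).1 hk, (kv_dfs hT hD k x).2 h, fun k' hk' h' => ?_⟩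
    exact (kv_klt k k').2 (h2 (kv k') ((kv_ok k').2 hk') ((kv_dfs hT hD k' y).1 h'))

end sub

private theorem suc_eq {δ : Ordinal.{0}} {j i : Set.Iio δ}
    (h : Suc (fun i j : Set.Iio δ => i.1 < j.1) j i) : i.1 = j.1 + 1 := by
  have h1 : j.1 + 1 ≤ i.1 := Order.add_one_le_of_lt h.1
  refine le_antisymm (not_lt.1 fun h2 => ?_) h1
  have h3 : j.1 < j.1 + 1 := Order.lt_add_one_iff.2 le_rfl
  rcases h.2 ⟨j.1 + 1, h2.trans i.2⟩ h2 with h4 | h4
  · have h5 : j.1 + 1 = j.1 := congrArg Subtype.val h4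
    exact h3.ne' h5
  · exact absurd h4 h3.not_gt

private theorem low_eq {δ : Ordinal.{0}} {i : Set.Iio δ} (h : ∀ j : Set.Iio δ, ¬ j.1 < i.1) :
    i.1 = 0 := by
  by_contra h0
  have h1 : 0 < i.1 := pos_iff_ne_zero.2 h0
  exact h ⟨0, h1.trans i.2⟩ h1

theorem coh_U {δ : Ordinal.{0}} (hδ : Order.IsSuccLimit δ) :
    Coh Φ (S := U Φ δ) (I := Set.Iio δ) (fun x y => x.1 ∈ y.1) (fun x y => Lt Φ x.1 y.1)
      (fun i j => i.1 < j.1) (fun i x => x.1 ∈ U Φ i.1) := by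
  have hT : ∀ x ∈ U Φ δ, ∀ y ∈ x, y ∈ U Φ δ := fun x hx y hy => U_trans Φ hx hy
  have hD : ∀ i : Set.Iio δ, ∀ x, x ∈ U Φ i.1 → x ∈ U Φ δ := fun i x hx => U_mono Φ i.2.le hx
  refine ⟨?_, ?_, ?_, ?_, ?_, ?_, ?_, ?_, ?_, ?_, ?_, ?_⟩
  · intro x y h
    refine Subtype.ext (ZFSet.ext fun z => ⟨fun hz => ?_, fun hz => ?_⟩)
    · exact (h ⟨z, hT x.1 x.2 z hz⟩).1 hz
    · exact (h ⟨z, hT y.1 y.2 z hz⟩).2 hz
  · exact fun i j k h h' => h.trans h'
  · exact fun i => lt_irrefl _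
  · intro i j
    rcases lt_trichotomy i.1 j.1 with h | h | h
    · exact Or.inl h
    · exact Or.inr (Or.inl (Subtype.ext h))
    · exact Or.inr (Or.inr h)
  · exact ⟨⟨∅, empty_mem_U Φ δ⟩, fun z => ZFSet.notMem_empty z.1⟩
  · intro x
    obtain ⟨β, hβ, h⟩ := (U_lim Φ hδ).1 x.2
    exact ⟨⟨β, hβ⟩, h⟩
  · intro i hi x
    rw [low_eq hi, U_zero, ZFSet.eq_empty]
    exact ⟨fun h z => h z.1, fun h z hz => h ⟨z, hT x.1 x.2 z hz⟩ hz⟩
  · intro j i hji x
    rw [suc_eq hji, U_succ, DfU_iff]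
    exact (Df_sub hT (hD j) x).symm
  · intro j i hji k hk
    have h1 : (kv k).dfs Φ (· ∈ ·) (Lt Φ) (· ∈ U Φ j.1)
        (ZFSet.sep (fun z => (kv k).ext' Φ (· ∈ ·) (Lt Φ) (· ∈ U Φ j.1) z) (uz Φ j.1)) := by
      intro z
      exact ZFSet.mem_sep.trans ⟨fun h => h.2, fun h => ⟨(mem_uz Φ).2 h.1, h⟩⟩
    have h2 : ZFSet.sep (fun z => (kv k).ext' Φ (· ∈ ·) (Lt Φ) (· ∈ U Φ j.1) z) (uz Φ j.1) ∈
        U Φ i.1 := by
      rw [suc_eq hji, U_succ, DfU_iff]
      exact ⟨kv k, (kv_ok k).2 hk, h1⟩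
    exact ⟨⟨_, hD i _ h2⟩, (kv_dfs hT (hD j) k _).2 h1⟩
  · rintro i ⟨j, hj⟩ hi x
    have hl : Order.IsSuccLimit i.1 := by
      rcases Ordinal.zero_or_succ_or_isSuccLimit i.1 with h | ⟨a, ha⟩ | h
      · rw [h] at hj
        exact absurd hj (not_lt.2 zero_le)
      · exfalso
        have h1 : a < i.1 := by
          rw [← ha]
          exact Order.lt_succ a
        refine hi ⟨a, h1.trans i.2⟩ ⟨h1, fun k hk => ?_⟩
        have hk' : k.1 < i.1 := hk
        rw [← ha] at hk'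
        rcases (Order.lt_succ_iff.1 hk').lt_or_eq with h2 | h2
        · exact Or.inr h2
        · exact Or.inl (Subtype.ext h2)
      · exact h
    rw [U_lim Φ hl]
    constructor
    · rintro ⟨β, hβ, h⟩
      exact ⟨⟨β, hβ.trans i.2⟩, hβ, h⟩
    · rintro ⟨k, hk, h⟩
      exact ⟨k.1, hk, h⟩
  · intro i hi x y hx hy
    rw [low_eq hi, U_zero] at hx hy
    rw [hx, hy]
    exact Lt_irr Φ ∅
  · intro j i hji x y hx hy
    rw [suc_eq hji] at hx hy
    refine (Lt_succ Φ hx hy).trans ?_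
    rw [lessU_iff, ← less_sub hT (hD j) x y]

end LGr
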