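import Pool.Agent.LGr.Abs
import Pool.Agent.LGr.Arith
import Pool.Agent.LGr.CohU
import Pool.Agent.LGr.CollB
import Pool.Agent.LGr.Tht
import Pool.Agent.WCal.Bij

/-! # The ground model contains codes of its levels

(problem MP_ba5606_gt, ARH Part II, block A; architect helper69)

`M = U (Ph t) δ`, `hG : GMod T t δ` (`LGr/Par.lean`; `hG.ph : Ph t = FF T`, `hG.t0 : IsTr (T 0) B1`).

PROOFS.
* `exists_code_bij`: let `F : Set.Iio β ≃ ℕ` be the bijection given by `e`: `F α = n` iff `(e n).v.1 = α.toZFSet` (elements of `β.toZFSet` are the `α.toZFSet`, `α < β`). `U (Ph t) β` is countable (a subset of `U (Ph t) δ`, `hG.ct`) and infinite (contains all `(n : Ordinal).toZFSet`,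
  `toZFSet_mem_U`, `U_mono`, as `β` is a limit), so there is a bijection `U (Ph t) β ≃ ℕ`. `coh_U` (`CohU.lean`) for the limit `β` and `exists_code` (`Trn.lean`) give a native code `b0` with `Tb b0 t` and `Jb b0 i k ↔ F.symm i < F.symm k`.
  Let `w := jn (fun _ => b0)`, `x := jn (fun k => if k = 0 then t else fun n => decide ((e (Nat.unpair n).1).v.1 ∈ (e (Nat.unpair n).2).v.1))`. Then `(w, x) ∈ B1` (`dc_jn`, `Nat.unpair_pair`); `x` is internal (`if_jn`, `ift`, the membership relation between elements of a set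
  of the model is an internal predicate: `IP.of_sat` or `IP.of_dfn2`, `E_val`). `abs_tree` with `hG.t0`, `ipT` gives an internal `w'` with `(w', x) ∈ B1`; `b := dc 0 w'` (`if_dc`).
* `exists_code_M`: `IsTht.cnt` and `ctb_iff` give an internal enumeration of `El β.toZFSet`, `exists_bij` (`WCal/Bij.lean`) a bijection `e`; `exists_code_bij`. `Jb b` is well-founded (membership is). `coll` (`CollB.lean`) gives `ρ`, `π`. Order isomorphisms between
  initial segments of the ordinals are the identity: by induction along `Jb b`: `ρ i = ` the ordinal `α` with `(e i).v.1 = α.toZFSet` (`J_iff`, `seg`). -/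

namespace LGr

open STP WCal

variable {T : ℕ → List ℕ → List ℕ → List ℕ → Prop} {t : ℕ → Bool} {δ : Ordinal.{0}}
  [hM : Fact (CPY.Mod (U (Ph t) δ))]

/-- the ordinals of the elements of an ordinal of the model -/
private theorem cd_ord {β : Ordinal.{0}} (hβδ : β.toZFSet ∈ U (Ph t) δ)
    {e : ℕ → El (⟨β.toZFSet, hβδ⟩ : U (Ph t) δ)} (hb : Function.Bijective e) :
    ∃ ψ : ℕ → Ordinal.{0}, (∀ n, ψ n < β) ∧ (∀ n, (ψ n).toZFSet = (e n).v.1) ∧
      Function.Injective ψ ∧ ∀ α < β, ∃ n, ψ n = α := by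
  have hord : ∀ n, ∃ α < β, α.toZFSet = (e n).v.1 := fun n =>
    Ordinal.mem_toZFSet_iff.1 (e n).h
  choose ψ hψ hψe using hord
  refine ⟨ψ, hψ, hψe, ?_, ?_⟩
  · intro m n h1
    apply hb.1
    apply El.ext
    apply Subtype.ext
    rw [← hψe, ← hψe, h1]
  · intro α hα
    have h1 : α.toZFSet ∈ β.toZFSet := Ordinal.toZFSet_mem_toZFSet_iff.2 hα
    have h2 : α.toZFSet ∈ U (Ph t) δ := U_trans (Ph t) hβδ h1
    obtain ⟨n, hn⟩ := hb.2 ⟨⟨α.toZFSet, h2⟩, h1⟩
    refine ⟨n, ?_⟩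
    apply Ordinal.toZFSet_injective
    rw [hψe, hn]

private theorem cd_nat {β : Ordinal.{0}} (hβ : Order.IsSuccLimit β) (n : ℕ) :
    (n : Ordinal.{0}) + 1 < β := by
  have h1 : Ordinal.omega0 ≤ β := Ordinal.omega0_le_of_isSuccLimit hβ
  refine lt_of_lt_of_le ?_ h1
  have h2 := Ordinal.natCast_lt_omega0 (n + 1)
  push_cast at h2
  exact h2

theorem exists_code_bij (hG : GMod T t δ) {β : Ordinal.{0}} (hβ : Order.IsSuccLimit β) (hβδ : β.toZFSet ∈ U (Ph t) δ)
    {e : ℕ → El (⟨β.toZFSet, hβδ⟩ : U (Ph t) δ)} (he : IF (U (Ph t) δ) e) (hb : Function.Bijective e) :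
    ∃ b : ℕ → Bool, IF (U (Ph t) δ) b ∧ Tb b t ∧ ∀ i k, Jb b i k ↔ (e i).v.1 ∈ (e k).v.1 := by
  classical
  have hβ' : β < δ := (ord_mem hG.lim).1 hβδ
  obtain ⟨ψ, hψ, hψe, hinj, hsur⟩ := cd_ord hβδ hb
  have hF : Function.Bijective (fun n => (⟨ψ n, hψ n⟩ : Set.Iio β)) := by
    constructor
    · intro m n hmn
      exact hinj (congrArg Subtype.val hmn)
    · rintro ⟨α, hα⟩
      obtain ⟨n, hn⟩ := hsur α hα
      exact ⟨n, Subtype.ext hn⟩
  let F : ℕ ≃ Set.Iio β := Equiv.ofBijective _ hF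
  have hFv : ∀ n, (F n).1 = ψ n := fun n => rfl
  have hct : (U (Ph t) β).Countable := hG.ct.mono (U_mono (Ph t) hβ'.le)
  have hinf : (U (Ph t) β).Infinite := by
    refine Set.infinite_of_injective_forall_mem
      (f := fun n : ℕ => ((n : Ordinal.{0})).toZFSet) ?_ ?_
    · intro m n h
      exact Nat.cast_injective (Ordinal.toZFSet_injective h)
    · intro n
      exact U_mono (Ph t) (cd_nat hβ n).le (toZFSet_mem_U (Ph t) (n : Ordinal.{0}))
  have := hct.to_subtype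
  have := hinf.to_subtype
  obtain ⟨e2⟩ : Nonempty (U (Ph t) β ≃ ℕ) := nonempty_equiv_of_countable
  obtain ⟨b0, hb0, -, -, hJ, -⟩ := exists_code (coh_U (Φ := Ph t) hβ) e2 F.symm
  have hJ' : ∀ i k, Jb b0 i k ↔ (e i).v.1 ∈ (e k).v.1 := by
    intro i k
    have h1 := hJ (F i) (F k)
    rw [F.symm_apply_apply, F.symm_apply_apply] at h1
    rw [h1, hFv, hFv, ← hψe, ← hψe, Ordinal.toZFSet_mem_toZFSet_iff]
  -- the sequences
  let m : ℕ → Bool := fun n => decide ((e (Nat.unpair n).1).v.1 ∈ (e (Nat.unpair n).2).v.1)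
  let f : ℕ → ℕ → Bool := fun k n => if k = 0 then t n else m n
  have hm : IF (U (Ph t) δ) m := by
    have h1 : IP (U (Ph t) δ) (fun p : El (⟨β.toZFSet, hβδ⟩ : U (Ph t) δ) ×
        El (⟨β.toZFSet, hβδ⟩ : U (Ph t) δ) => p.1.v.1 ∈ p.2.v.1) :=
      IP.of_dfn2 (Q := fun x y => x ∈ y) (ZU.dfn_mem (ZU.df_var 0) (ZU.df_var 1))
        (fun a b => Iff.rfl)
    have h2 : IP (U (Ph t) δ) (fun n : ℕ => (e (Nat.unpair n).1).v.1 ∈ (e (Nat.unpair n).2).v.1) :=
      IP.comp h1 ((he.comp (IF.unpair1 IF.id)).pair (he.comp (IF.unpair2 IF.id)))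
    refine IF.congr (fun n => ?_) (IF.ite h2 (IF.const true) (IF.const false))
    by_cases h3 : (e (Nat.unpair n).1).v.1 ∈ (e (Nat.unpair n).2).v.1
    · simp only [m, h3, if_true, decide_true]
    · simp only [m, h3, if_false, decide_false]
  have hf : IF (U (Ph t) δ) (fun p : ℕ × ℕ => f p.1 p.2) := by
    have h1 : IF (U (Ph t) δ) t := ift hG.lim hG.ph
    refine IF.congr (fun p => ?_) (IF.ite (P := fun p : ℕ × ℕ => p.1 = 0)
      (IP.eq IF.fst (IF.const 0)) (h1.comp IF.snd) (hm.comp IF.snd))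
    by_cases h2 : p.1 = 0
    · simp only [f, h2, if_true]
    · simp only [f, h2, if_false]
  have hx0 : dc 0 (jn f) = t := by
    rw [dc_jn]
    funext n
    simp only [f, if_true]
  have hx1 : dc 1 (jn f) = m := by
    rw [dc_jn]
    funext n
    simp only [f, one_ne_zero, if_false]
  have hm' : ∀ i k, m (Nat.pair i k) = true ↔ (e i).v.1 ∈ (e k).v.1 := by
    intro i k
    simp only [m, Nat.unpair_pair, decide_eq_true_eq]
  have hw : (jn (fun _ => b0), jn f) ∈ B1 := by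
    refine ⟨?_, ?_⟩
    · show Tb (dc 0 (jn fun _ => b0)) (dc 0 (jn f))
      rw [hx0, dc_jn]
      exact hb0
    · intro i k
      show Jb (dc 0 (jn fun _ => b0)) i k ↔ dc 1 (jn f) (Nat.pair i k) = true
      rw [hx1, dc_jn, hm', hJ']
  obtain ⟨w', hw', hB⟩ := abs_tree hG.t0 (ipT hG.lim hG.ph 0) (if_jn hf) hw
  have h1 : Tb (dc 0 w') (dc 0 (jn f)) := hB.1
  have h2 : ∀ i k, Jb (dc 0 w') i k ↔ dc 1 (jn f) (Nat.pair i k) = true := hB.2
  rw [hx0] at h1
  rw [hx1] at h2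
  exact ⟨dc 0 w', if_dc (k := fun _ : ℕ => 0) (w := fun _ => w') (n := fun n => n) (IF.const 0)
    (hw'.comp IF.snd) IF.id, h1, fun i k => (h2 i k).trans (hm' i k)⟩

theorem exists_code_M (hG : GMod T t δ) {θ : Ordinal.{0}} (hθ : IsTht (U (Ph t) δ) θ) {β : Ordinal.{0}}
    (hβ : Order.IsSuccLimit β) (h : β < θ) :
    ∃ b : ℕ → Bool, IF (U (Ph t) δ) b ∧ Tb b t ∧ WellFounded (Jb b) ∧
      ∃ ρ π, Cl (Ph t) (Eb b) (Lb b) (Jb b) (Vb b) ρ π ∧ (∀ i, ρ i < β) ∧ ∀ α < β, ∃ i, ρ i = α := by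
  have hβδ := hθ.lt_mem h
  have hc : ZU.Ctb (⟨β.toZFSet, hβδ⟩ : U (Ph t) δ) := hθ.cnt h
  have hel : ∀ α < β, ∃ a : El (⟨β.toZFSet, hβδ⟩ : U (Ph t) δ), a.v.1 = α.toZFSet := by
    intro α hα
    have h1 : α.toZFSet ∈ β.toZFSet := Ordinal.toZFSet_mem_toZFSet_iff.2 hα
    exact ⟨⟨⟨α.toZFSet, U_trans (Ph t) hβδ h1⟩, h1⟩, rfl⟩
  have hlt : ∀ n : ℕ, (n : Ordinal.{0}) < β := fun n =>
    lt_trans (Order.lt_add_one_iff.2 le_rfl) (cd_nat hβ n)
  have : Infinite (El (⟨β.toZFSet, hβδ⟩ : U (Ph t) δ)) := by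
    choose g hg using fun n : ℕ => hel n (hlt n)
    refine Infinite.of_injective g fun m n hmn => ?_
    have h1 : (m : Ordinal.{0}).toZFSet = (n : Ordinal.{0}).toZFSet := by
      rw [← hg, ← hg, hmn]
    exact Nat.cast_injective (Ordinal.toZFSet_injective h1)
  obtain ⟨e, he, hb⟩ : ∃ e : ℕ → El (⟨β.toZFSet, hβδ⟩ : U (Ph t) δ),
      IF (U (Ph t) δ) e ∧ Function.Bijective e := by
    rcases ctb_iff.1 hc ⟨{_a | True}, IP.const True⟩ with h1 | ⟨E, hE⟩
    · obtain ⟨a, -⟩ := hel _ (hlt 0)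
      exact absurd trivial (h1 a)
    · exact exists_bij (e := E) E.int fun a => hE a trivial
  obtain ⟨b, hbi, hbt, hbJ⟩ := exists_code_bij hG hβ hβδ he hb
  obtain ⟨ψ, hψ, hψe, hinj, hsur⟩ := cd_ord hβδ hb
  have hwf : WellFounded (Jb b) := by
    have h1 : Jb b = InvImage (· ∈ ·) (fun n => (e n).v.1) := by
      funext i k
      exact propext (hbJ i k)
    rw [h1]
    exact InvImage.wf _ ZFSet.mem_wf
  obtain ⟨ρ, π, hcl⟩ := coll hbt hwf
  have hJψ : ∀ i k, Jb b i k ↔ ψ i < ψ k := by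
    intro i k
    rw [hbJ, ← hψe, ← hψe, Ordinal.toZFSet_mem_toZFSet_iff]
  have key : ∀ i, ρ i = ψ i := by
    intro i
    induction i using hwf.induction with
    | h i ih =>
      refine le_antisymm (not_lt.1 fun h1 => ?_) (not_lt.1 fun h1 => ?_)
      · obtain ⟨j, hj⟩ := hcl.seg i _ h1
        have h2 : Jb b j i := (hcl.J_iff j i).2 (by rw [hj]; exact h1)
        have h3 := ih j h2
        rw [hj] at h3
        have h4 := (hJψ j i).1 h2
        rw [h3] at h4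
        exact lt_irrefl _ h4
      · obtain ⟨n, hn⟩ := hsur _ (h1.trans (hψ i))
        have h2 : Jb b n i := (hJψ n i).2 (by rw [hn]; exact h1)
        have h3 := ih n h2
        have h4 := (hcl.J_iff n i).1 h2
        rw [h3, hn] at h4
        exact lt_irrefl _ h4
  refine ⟨b, hbi, hbt, hwf, ρ, π, hcl, fun i => ?_, fun α hα => ?_⟩
  · rw [key]
    exact hψ i
  · obtain ⟨n, hn⟩ := hsur α hα
    exact ⟨n, (key n).trans hn⟩

end LGr
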