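import Pool.Agent.LGr.Tht
import Pool.Agent.WCal.Rec

/-! # Collapses of internal relations on the natural numbers

(problem MP_ba5606_gt, ARH Part II, block A; architect helper69)

PROOFS.
* `exists_sur`: `exists_mos` (`WCal/Rec.lean`) for `r` (minimal elements of internal sets exist as `r` is well-founded) gives `c : ℕ → W` and the set `g` of all pairs `op (cd n) (c n)`. By induction along `r`: `(c n).1 = π n` (both sets have the same
  elements; `W` is transitive). `u`: the set of all `c n` (a set of the model: `rg`/image of `g`, e.g. replacement `repF`, or `sepF` in a set which contains all second components; or `ZU.rg` with `ZUb.lean`). The function `n ↦ ⟨c n, _⟩ : El u` is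
  internal: for `p : ℕ × El u` the code is `op (cd p.1) p.2.v`, so the set `g` shows that `fun p => c p.1 = p.2` is internal.
* `exists_surO`: the function `i ↦ (ρ i).toZFSet` satisfies the equation of a collapse (`h1`, `h2`, elements of `α.toZFSet` are the `β.toZFSet`, `β < α`), and `J` is well-founded. Apply `exists_sur`.
* `rho_lt`: let `u`, `c` be from `exists_surO`. If `θ ≤ ρ i` then `θ.toZFSet ⊆ (ρ i).toZFSet`, every element of it is `c n` for some `n` (`h2`, `h1`), so the set `θ.toZFSet` is countable in `W` (`ctb_of_enum` for `u`, `Ctb.sub`), contradiction to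
  `IsTht.not_ctb`. -/

namespace LGr

open STP WCal

variable {W : Set ZFSet.{0}} [hW : Fact (CPY.Mod W)]

private theorem nt_eqZ' {N : Type*} [WM N] (n : ℕ) : WCal.nt N n = ZU.nt n := by
  induction n with
  | zero => exact emp_eq
  | succ n ih =>
    refine ZU.ext fun z => ?_
    rw [ZU.nt_succ, ZU.mem_sc, ← ih]
    exact E_sc

/-- the native collapse of an internal relation on `ℕ` is internal -/
theorem exists_sur {r : ℕ → ℕ → Prop} (hr : IP W (fun p : ℕ × ℕ => r p.1 p.2)) (hw : WellFounded r)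
    {π : ℕ → ZFSet.{0}} (hπ : ∀ x z, z ∈ π x ↔ ∃ y, r y x ∧ π y = z) :
    ∃ (u : W) (c : ℕ → El u), IF W c ∧ (∀ n, (c n).v.1 = π n) ∧ ∀ a, ∃ n, c n = a := by
  obtain ⟨c, hc, g, hg⟩ := exists_mos hr (fun S hS => by
    obtain ⟨a, ha, hmin⟩ := hw.has_min {a | a ∈ S} hS
    exact ⟨a, ha, fun b hb => hmin b hb⟩)
  have hgc : ∀ x y : W, ZU.op x y ∈ g ↔ ∃ a : ℕ, x = cd W a ∧ y = c a := by
    intro x y
    refine (hg (ZU.op x y)).trans (exists_congr fun a => ?_)
    rw [op_eq, ZU.op_inj]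
  have hcπ : ∀ n, (c n).1 = π n := by
    intro n
    refine hw.induction (C := fun n => (c n).1 = π n) n ?_
    intro n ih
    refine ZFSet.ext fun z => ?_
    rw [hπ]
    constructor
    · intro hz
      obtain ⟨b, hb, h1⟩ := (hc n ⟨z, hW.out.trans _ (c n).2 _ hz⟩).1 hz
      exact ⟨b, hb, (ih b hb).symm.trans (congrArg Subtype.val h1).symm⟩
    · rintro ⟨y, hy, rfl⟩
      rw [← ih y hy]
      exact (hc n (c y)).2 ⟨y, hy, rfl⟩
  have hu : ∀ y : W, WM.E y (ZU.rg g) ↔ ∃ n, y = c n := by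
    intro y
    have h1 : WM.E y (ZU.rg g) ↔ ∃ x, ZU.op x y ∈ g := ZU.mem_rg (f := g) (y := y)
    rw [h1]
    constructor
    · rintro ⟨x, hx⟩
      obtain ⟨a, -, h2⟩ := (hgc x y).1 hx
      exact ⟨a, h2⟩
    · rintro ⟨a, h2⟩
      exact ⟨_, (hgc _ _).2 ⟨a, rfl, h2⟩⟩
  refine ⟨ZU.rg g, fun n => ⟨c n, (hu _).2 ⟨n, rfl⟩⟩, ?_, hcπ, fun a => ?_⟩
  · refine IP.of_dfn2 (Q := fun x y => ZU.op x y ∈ g) ?_ fun n a => ?_
    · simp (maxDischargeDepth := 99) [-Subtype.forall, -Subtype.exists]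
    · show (⟨c n, _⟩ : El (ZU.rg g)) = a ↔ ZU.op (cd W n) a.v ∈ g
      rw [hgc]
      constructor
      · intro h
        exact ⟨n, rfl, (congrArg El.v h).symm⟩
      · rintro ⟨b, h1, h2⟩
        rw [cd_inj.1 h1]
        exact El.ext h2.symm
  · obtain ⟨n, hn⟩ := (hu a.v).1 a.h
    exact ⟨n, El.ext hn.symm⟩

theorem exists_surO {J : ℕ → ℕ → Prop} (hJ : IP W (fun p : ℕ × ℕ => J p.1 p.2)) {ρ : ℕ → Ordinal.{0}}
    (h1 : ∀ i j, J i j ↔ ρ i < ρ j) (h2 : ∀ i α, α < ρ i → ∃ j, ρ j = α) :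
    ∃ (u : W) (c : ℕ → El u), IF W c ∧ (∀ n, (c n).v.1 = (ρ n).toZFSet) ∧ ∀ a, ∃ n, c n = a := by
  refine exists_sur hJ (Subrelation.wf (fun {i j} h => (h1 i j).1 h)
    (InvImage.wf ρ Ordinal.lt_wf)) fun x z => ?_
  rw [Ordinal.mem_toZFSet_iff]
  constructor
  · rintro ⟨a, ha, rfl⟩
    obtain ⟨j, rfl⟩ := h2 x a ha
    exact ⟨j, (h1 j x).2 ha, rfl⟩
  · rintro ⟨y, hy, rfl⟩
    exact ⟨ρ y, (h1 y x).1 hy, rfl⟩

/-- internal well-orders of `ℕ` have order types less than `θ` -/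
theorem rho_lt {θ : Ordinal.{0}} (hθ : IsTht W θ) {J : ℕ → ℕ → Prop}
    (hJ : IP W (fun p : ℕ × ℕ => J p.1 p.2)) {ρ : ℕ → Ordinal.{0}} (h1 : ∀ i j, J i j ↔ ρ i < ρ j)
    (h2 : ∀ i α, α < ρ i → ∃ j, ρ j = α) (i : ℕ) : ρ i < θ := by
  by_contra hcon
  rw [not_lt] at hcon
  obtain ⟨u, c, hc, hcρ, -⟩ := exists_surO hJ h1 h2
  obtain ⟨F, hF, h3⟩ := df_if hc
  refine hθ.not_ctb (ZU.ctb_of_om hF fun z hz => ?_)
  obtain ⟨a, ha, h4⟩ := Ordinal.mem_toZFSet_iff.1 (show z.1 ∈ θ.toZFSet from hz)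
  obtain ⟨j, rfl⟩ := h2 i a (ha.trans_le hcon)
  refine ⟨j, ?_⟩
  have h5 : F (ZU.nt j) = (c j).v := by
    have h6 := h3 j
    have h7 : cd W j = ZU.nt j := nt_eqZ' j
    rw [h7] at h6
    exact h6
  rw [h5]
  exact Subtype.ext (h4.symm.trans (hcρ j).symm)

end LGr
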