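import Pool.Agent.LGr.Rows
import Pool.Agent.LGr.CollB

/-! # The reals of a coded structure

(problem MP_ba5606_gt, ARH Part II, block A; architect helper69; native, no models)

PROOFS. `hc : Cl …` is the collapse of the structure coded by `b` (`LGr/CollB.lean`).
* `num_iff`: `pi_num` (`CollA.lean`), `isNum_iff` (`OrdL.lean`), `zn_eq`: `isNum (Eb b) n z ↔ π z = zn n`.
* `rbM_iff`: the elements of `π m` are the `π z` with `Eb b z m`; the elements of `rz y` are the `zn n` with `y n = true` (`mem_rz`). If `RbM b m y` then `π m = rz y` by extensionality. Conversely: `Eb b z m` gives `π z ∈ rz y`; `y n = true` gives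
  `zn n ∈ π m`; `zn_inj`.
* `rb_iff`: `rbM_iff`; every `m` is in a level (`Coh.tot`), `lev_iff`; conversely `onto`. -/

namespace LGr

open STP WCal

variable {b t y : ℕ → Bool} {ρ : ℕ → Ordinal.{0}} {π : ℕ → ZFSet.{0}}

theorem num_iff (hc : Cl (Ph t) (Eb b) (Lb b) (Jb b) (Vb b) ρ π) {n z : ℕ} :
    isNum (Eb b) n z ↔ π z = zn n := by
  rw [zn_eq, pi_num hc.inj hc.mem n z]
  exact isNum_iff

theorem rbM_iff (hc : Cl (Ph t) (Eb b) (Lb b) (Jb b) (Vb b) ρ π) {m : ℕ} : RbM b m y ↔ π m = rz y := by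
  constructor
  · rintro ⟨h1, h2⟩
    ext z
    rw [mem_rz, hc.mem]
    constructor
    · rintro ⟨w, hw, rfl⟩
      obtain ⟨n, hn⟩ := h1 w hw
      exact ⟨n, (h2 n).2 ⟨w, hw, hn⟩, (num_iff hc).1 hn⟩
    · rintro ⟨n, hn, rfl⟩
      obtain ⟨w, hw, hn'⟩ := (h2 n).1 hn
      exact ⟨w, hw, (num_iff hc).1 hn'⟩
  · intro h
    have key : ∀ w, Eb b w m → ∃ n, y n = true ∧ π w = zn n := by
      intro w hw
      have h1 : π w ∈ π m := (hc.mem m _).2 ⟨w, hw, rfl⟩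
      rw [h] at h1
      exact mem_rz.1 h1
    refine ⟨fun z hz => ?_, fun n => ⟨fun hn => ?_, ?_⟩⟩
    · obtain ⟨n, -, hn⟩ := key z hz
      exact ⟨n, (num_iff hc).2 hn⟩
    · have h1 : zn n ∈ rz y := mem_rz.2 ⟨n, hn, rfl⟩
      rw [← h] at h1
      obtain ⟨w, hw, h2⟩ := (hc.mem m _).1 h1
      exact ⟨w, hw, (num_iff hc).2 h2⟩
    · rintro ⟨z, hz, hn⟩
      obtain ⟨k, hk, h1⟩ := key z hz
      rw [(num_iff hc).1 hn] at h1
      rw [zn_inj h1]
      exact hk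

theorem rb_iff (hT : Tb b t) (hc : Cl (Ph t) (Eb b) (Lb b) (Jb b) (Vb b) ρ π) :
    Rb b y ↔ ∃ i, rz y ∈ U (Ph t) (ρ i) := by
  constructor
  · rintro ⟨m, hm⟩
    obtain ⟨i, hi⟩ := hT.tot m
    refine ⟨i, ?_⟩
    rw [← (rbM_iff hc).1 hm]
    exact (hc.lev_iff i m).1 hi
  · rintro ⟨i, hi⟩
    obtain ⟨m, hm⟩ := hc.onto i _ hi
    exact ⟨m, (rbM_iff hc).2 hm⟩

end LGr
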