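import Pool.Agent.LGr.Cd
import Pool.Agent.LGr.Msp
import Pool.Agent.LGr.Aom
import Pool.Agent.LGr.Rls

/-! # The levels below `θ` are countable in the ground model

(problem MP_ba5606_gt, ARH Part II, block A; architect helper69)

PROOFS.
* `ip_Eb`, …: `Eb b x y` is `b (4 * Nat.pair x y) = true`: `IF.npair`, `IF.mul` (automation `WCal/Simp.lean`).
* `level_ctb`: for a limit `β' < θ` with `β ≤ β'` (`IsTht.add_om`, `lim_add_om`) take `b`, `ρ`, `π` from `exists_code_M`. `Eb b` is internal and well-founded (`Coh.E_wf`), `exists_sur` (`Msp.lean`) for `r := Eb b` gives `u`, `c`; the values of `π` are exactly the elements of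
  `U (Ph t) β'` (`lev_iff`, `onto`, `Coh.tot`, `U_lim`), so `u.1 = uz β'`, and `u` is countable (`ctb_of_enum`); `uz β` is a subset of `uz β'` (`U_mono`), `Ctb.sub`.
* `exists_enum`: `level_ctb` and `ctb_iff` give an internal `c : ℕ → El (uz γ)` with all elements as values (`uz γ` is not empty: `empty_mem_U`). `x n k = true` iff `zn k ∈ (c n).v.1`. Internal: the membership relation between `ℕ` and `El u` is an internal predicate (`IP.of_sat` or
  `IP.of_dfn2`; the code of `k : ℕ` is `nt k`, `nt_val`). If `rz y = (c n).v.1` then `x n = y` (`mem_rz`, `zn_inj`). -/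

namespace LGr

open STP WCal

theorem ip_Eb {N : Type*} [WM N] {b : ℕ → Bool} (hb : IF N b) : IP N (fun p : ℕ × ℕ => Eb b p.1 p.2) :=
  IP.eq (hb.comp (IF.mul (IF.const 4) (IF.npair IF.fst IF.snd))) (IF.const true)

theorem ip_Jb {N : Type*} [WM N] {b : ℕ → Bool} (hb : IF N b) : IP N (fun p : ℕ × ℕ => Jb b p.1 p.2) :=
  IP.eq (hb.comp (IF.add (IF.mul (IF.const 4) (IF.npair IF.fst IF.snd)) (IF.const 2))) (IF.const true)

variable {T : ℕ → List ℕ → List ℕ → List ℕ → Prop} {t : ℕ → Bool} {δ : Ordinal.{0}}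
  [hM : Fact (CPY.Mod (U (Ph t) δ))]

theorem level_ctb (hG : GMod T t δ) {θ : Ordinal.{0}} (hθ : IsTht (U (Ph t) δ) θ) {β : Ordinal.{0}} (h : β < θ)
    (hu : uz (Ph t) β ∈ U (Ph t) δ) : ZU.Ctb (⟨uz (Ph t) β, hu⟩ : U (Ph t) δ) := by
  obtain ⟨hlim, hlt⟩ := lim_add_om β
  obtain ⟨b, hb, hT, hw, ρ, π, hc, -, hρ⟩ := exists_code_M hG hθ hlim (hθ.add_om h)
  obtain ⟨u, c, hci, hcv, hsur⟩ := exists_sur (W := U (Ph t) δ) (ip_Eb hb) (Coh.E_wf hT hw) hc.mem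
  refine (ctb_of_enum hci hsur).sub fun z hz => ?_
  obtain ⟨i, hi⟩ := hρ β hlt
  have h1 : z.1 ∈ U (Ph t) (ρ i) := by
    rw [hi]
    exact (mem_uz (Ph t)).1 hz
  obtain ⟨x, hx⟩ := hc.onto i z.1 h1
  have h2 : z = (c x).v := Subtype.ext (hx.symm.trans (hcv x).symm)
  rw [h2]
  exact (c x).h

/-- the reals of a level below `θ` have an internal enumeration -/
theorem exists_enum (hG : GMod T t δ) {θ : Ordinal.{0}} (hθ : IsTht (U (Ph t) δ) θ) {γ : Ordinal.{0}} (h : γ < θ) :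
    ∃ x : ℕ → ℕ → Bool, IF (U (Ph t) δ) (fun p : ℕ × ℕ => x p.1 p.2) ∧
      ∀ y, rz y ∈ U (Ph t) γ → ∃ n, x n = y := by
  classical
  have hγ : γ < δ := h.trans ((ord_mem (Φ := Ph t) hG.lim).1 hθ.mem)
  have hu := uz_mem' (Φ := Ph t) hG.lim hγ
  have h0 : (∅ : ZFSet.{0}) ∈ uz (Ph t) γ := (mem_uz (Ph t)).2 (empty_mem_U (Ph t) γ)
  have h0' : (∅ : ZFSet.{0}) ∈ U (Ph t) δ := empty_mem_U (Ph t) δ
  rcases ctb_iff.1 (level_ctb hG hθ h hu) ⟨Set.univ, IP.const True⟩ with h1 | ⟨e, he⟩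
  · exact absurd (Set.mem_univ _) (h1 ⟨⟨∅, h0'⟩, h0⟩)
  · have hP : IP (U (Ph t) δ) (fun p : ℕ × El (⟨uz (Ph t) γ, hu⟩ : U (Ph t) δ) => zn p.1 ∈ p.2.v.1) := by
      refine IP.of_dfn2 (Q := fun x y => x ∈ y) (ZU.dfn_mem (ZU.df_var 0) (ZU.df_var 1)) fun n a => ?_
      show zn n ∈ a.v.1 ↔ (nt (U (Ph t) δ) n).1 ∈ a.v.1
      rw [nt_val]
    have hQ : IP (U (Ph t) δ) (fun p : ℕ × ℕ => zn p.2 ∈ (e p.1).v.1) :=
      IP.comp (f := fun p : ℕ × ℕ => (p.2, e p.1)) hP (IF.pair IF.snd (e.int.comp IF.fst))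
    refine ⟨fun n k => decide (zn k ∈ (e n).v.1), ?_, fun y hy => ?_⟩
    · refine IF.ofP (Q := fun p y => (y = true ↔ zn p.2 ∈ (e p.1).v.1))
        (IP.iff (IP.eq IF.snd (IF.const true)) (IP.comp hQ IF.fst)) fun p y => ?_
      by_cases h2 : zn p.2 ∈ (e p.1).v.1 <;> cases y <;> simp [h2]
    · have hy' : rz y ∈ U (Ph t) δ := U_mono (Ph t) hγ.le hy
      obtain ⟨n, hn⟩ := he ⟨⟨rz y, hy'⟩, (mem_uz (Ph t)).2 hy⟩ (Set.mem_univ _)
      refine ⟨n, funext fun k => ?_⟩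
      show decide (zn k ∈ (e n).v.1) = y k
      rw [hn, Bool.eq_iff_iff, decide_eq_true_iff]
      show zn k ∈ rz y ↔ _
      rw [mem_rz]
      constructor
      · rintro ⟨m, hm, hk⟩
        rw [zn_inj hk]
        exact hm
      · intro hk
        exact ⟨k, hk, rfl⟩

end LGr
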