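import Pool.Agent.LGr.Defs

/-! # The native hierarchy: levels

(problem MP_ba5606_gt, ARH Part II, block A; architect helper69)

`DfU Φ β x`: `x` is a definable subset of the level `β`.

PROOFS.
* `UR_eq`: `WellFounded.fix_eq`. `mem_U`, `Rl_iff`: unfold.
* `U_mono`: from `mem_U`. `U_trans`: if `x ∈ U α`, `x ≠ ∅` then `DfU β x` for some `β < α`; the elements of `x` are in `U β` (`Key.dfs`, `Key.ext'`), `U_mono`.
* `DfU_of_mem`: the key with the formula `mem 0 1` and the parameter `a = x`, `l = []`: `z ∈ U β ∧ z ∈ x`, and `x ⊆ U β` by `U_trans`. (`cns z env 1 = env 0 = x`.)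
  `DfU_empty`: formula `bot`, parameter `∅`.
* `U_succ`: `→`: `mem_U`; if `DfU γ x` with `γ < β` then `x ∈ U β`, so `DfU β x`. `U_lim`: `mem_U`, `DfU β x → x ∈ U (β + 1)` (`β + 1 < δ`).
* `exists_uz` (the levels are sets): induction on `α`; all `x` with `DfU β x` are elements of the power set of `uz β`; `U α = {∅} ∪ ⋃_{β < α} {x | DfU β x}`: use `Small` (a set of
  `ZFSet.{0}` is an element of `ZFSet` iff it is small: `ZFSet.range`, `Small.{0} (Set.Iio α)`, or `Set.small_...`); the statement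
  `Small.{0} (U Φ α)` is equivalent.
* `uz_mem`: `uz β` is the subset of `U β` defined by `imp bot bot` with the parameter `∅`.
* `Rl_mem`: `Rl α x y → x ∈ U α ∧ y ∈ U α`. `Rl_mono`. `Rl_end`: (end extension) for `y ∈ U β`, `β ≤ α`: `Rl α x y ↔ Rl β x y` (induction on `α` with `Rl_iff`: for the new pairs
  at `γ ≥ β` the element `y` is not in `U γ ⊇ U β`). `Lt_iff`: for `y ∈ U α`, `Lt x y ↔ Rl α x y`.
* `lsat_congr`: satisfaction depends only on the values of `lt` on pairs from `D` if the assignment is in `D` (induction on the formula). So `DfU` may be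
  computed with `Lt` instead of `Rl β` (`DfU_iff`, `less_iff`). -/

universe u

namespace LGr

open STP

section

variable {Φ : ℕ → ℕ → ℕ → ℕ → Prop} {S : Type u} {E lt lt' : S → S → Prop} {D : S → Prop}

theorem lsat_congr (h : ∀ x y, D x → D y → (lt x y ↔ lt' x y)) (φ : LF) (v : ℕ → S) (hv : ∀ i, D (v i)) :
    lsat Φ E lt D φ v ↔ lsat Φ E lt' D φ v := by
  induction φ generalizing v with
  | mem i j => exact Iff.rfl
  | eq i j => exact Iff.rfl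
  | lt i j => exact h _ _ (hv i) (hv j)
  | tp r i j k => exact Iff.rfl
  | bot => exact Iff.rfl
  | imp φ ψ ih1 ih2 => exact imp_congr (ih1 v hv) (ih2 v hv)
  | all φ ih =>
    refine forall_congr' fun x => imp_congr_right fun hx => ih _ fun i => ?_
    cases i with
    | zero => exact hx
    | succ i => exact hv i

private theorem env_mem {k : Key S} (hk : k.ok D) (i : ℕ) : D (k.env i) := by
  unfold Key.env
  rw [List.getD_eq_getElem?_getD]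
  rcases h : (k.a :: k.l)[i]? with _ | y
  · exact hk.1
  · have h1 : y ∈ k.a :: k.l := List.mem_of_getElem? h
    rcases List.mem_cons.1 h1 with h2 | h2
    · rw [h2]
      exact hk.1
    · exact hk.2 y h2

private theorem cns_mem {z : S} {v : ℕ → S} (hz : D z) (hv : ∀ i, D (v i)) (i : ℕ) :
    D (cns z v i) := by
  cases i with
  | zero => exact hz
  | succ i => exact hv i

private theorem dfs_congr (h : ∀ x y, D x → D y → (lt x y ↔ lt' x y)) {k : Key S} (hk : k.ok D)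
    (x : S) : k.dfs Φ E lt D x ↔ k.dfs Φ E lt' D x := by
  refine forall_congr' fun z => iff_congr Iff.rfl (and_congr_right fun hz => ?_)
  exact lsat_congr h _ _ (cns_mem hz (env_mem hk))

private theorem lex_congr (h : ∀ x y, D x → D y → (lt x y ↔ lt' x y)) (l l' : List S)
    (hl : ∀ x ∈ l, D x) (hl' : ∀ x ∈ l', D x) (hx : List.Lex lt l l') : List.Lex lt' l l' := by
  induction hx with
  | nil => exact List.Lex.nil
  | rel h1 => exact List.Lex.rel ((h _ _ (hl _ List.mem_cons_self)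
      (hl' _ List.mem_cons_self)).1 h1)
  | cons _ ih => exact List.Lex.cons (ih (fun x hx => hl x (List.mem_cons_of_mem _ hx))
      fun x hx => hl' x (List.mem_cons_of_mem _ hx))

private theorem klt_congr (h : ∀ x y, D x → D y → (lt x y ↔ lt' x y)) {k k' : Key S}
    (hk : k.ok D) (hk' : k'.ok D) : klt lt k k' ↔ klt lt' k k' := by
  have m : ∀ {k : Key S}, k.ok D → ∀ x ∈ k.a :: k.l, D x := by
    intro k hk x hx
    rcases List.mem_cons.1 hx with h2 | h2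
    · rw [h2]
      exact hk.1
    · exact hk.2 x h2
  unfold klt
  refine or_congr Iff.rfl (and_congr Iff.rfl ?_)
  rw [List.shortlex_def, List.shortlex_def]
  refine or_congr Iff.rfl (and_congr Iff.rfl ⟨?_, ?_⟩)
  · exact lex_congr h _ _ (m hk) (m hk')
  · exact lex_congr (fun x y hx hy => (h x y hx hy).symm) _ _ (m hk) (m hk')

theorem Df_congr (h : ∀ x y, D x → D y → (lt x y ↔ lt' x y)) (x : S) :
    Df Φ E lt D x ↔ Df Φ E lt' D x :=
  exists_congr fun _ => and_congr_right fun hk => dfs_congr h hk x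

theorem less_congr (h : ∀ x y, D x → D y → (lt x y ↔ lt' x y)) (x y : S) :
    less Φ E lt D x y ↔ less Φ E lt' D x y := by
  refine exists_congr fun k => and_congr_right fun hk => and_congr (dfs_congr h hk x) ?_
  refine forall_congr' fun k' => imp_congr_right fun hk' => ?_
  exact imp_congr (dfs_congr h hk' y) (klt_congr h hk hk')

end

variable (Φ : ℕ → ℕ → ℕ → ℕ → Prop)

/-- `x` is a definable subset of the level `β` -/
def DfU (β : Ordinal.{0}) (x : ZFSet.{0}) : Prop := Df Φ (· ∈ ·) (Rl Φ β) (· ∈ U Φ β) x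

/-- comparison of new elements of the level `β + 1` -/
def lessU (β : Ordinal.{0}) (x y : ZFSet.{0}) : Prop := less Φ (· ∈ ·) (Rl Φ β) (· ∈ U Φ β) x y

theorem UR_eq (α : Ordinal.{0}) : UR Φ α = stp Φ α (fun β _ => UR Φ β) :=
  WellFounded.fix_eq _ _ _

theorem mem_U {α : Ordinal.{0}} {x : ZFSet.{0}} : x ∈ U Φ α ↔ x = ∅ ∨ ∃ β < α, DfU Φ β x := by
  have h : x ∈ U Φ α ↔ (UR Φ α).1 x := Iff.rfl
  rw [h, UR_eq]
  constructor
  · rintro (h1 | ⟨β, hβ, h1⟩)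
    · exact Or.inl h1
    · exact Or.inr ⟨β, hβ, h1⟩
  · rintro (h1 | ⟨β, hβ, h1⟩)
    · exact Or.inl h1
    · exact Or.inr ⟨β, hβ, h1⟩

theorem Rl_iff {α : Ordinal.{0}} {x y : ZFSet.{0}} : Rl Φ α x y ↔ ∃ β < α, Rl Φ β x y ∨
    (DfU Φ β y ∧ y ∉ U Φ β ∧ (x ∈ U Φ β ∨ (DfU Φ β x ∧ x ∉ U Φ β ∧ lessU Φ β x y))) := by
  have h : Rl Φ α x y ↔ (UR Φ α).2 x y := Iff.rfl
  rw [h, UR_eq]
  constructor
  · rintro ⟨β, hβ, h1⟩
    exact ⟨β, hβ, h1⟩
  · rintro ⟨β, hβ, h1⟩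
    exact ⟨β, hβ, h1⟩

theorem empty_mem_U (α : Ordinal.{0}) : ∅ ∈ U Φ α := (mem_U Φ).2 (Or.inl rfl)

theorem U_mono {α β : Ordinal.{0}} (h : α ≤ β) : U Φ α ⊆ U Φ β := by
  intro x hx
  rcases (mem_U Φ).1 hx with h1 | ⟨γ, hγ, h1⟩
  · exact (mem_U Φ).2 (Or.inl h1)
  · exact (mem_U Φ).2 (Or.inr ⟨γ, hγ.trans_le h, h1⟩)

private theorem DfU_sub' {β : Ordinal.{0}} {x y : ZFSet.{0}} (hx : DfU Φ β x) (hy : y ∈ x) :
    y ∈ U Φ β := by
  obtain ⟨k, hk, h1⟩ := hx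
  exact ((h1 y).1 hy).1

theorem U_trans {α : Ordinal.{0}} {x y : ZFSet.{0}} (hx : x ∈ U Φ α) (hy : y ∈ x) : y ∈ U Φ α := by
  rcases (mem_U Φ).1 hx with h1 | ⟨γ, hγ, h1⟩
  · rw [h1] at hy
    exact absurd hy (ZFSet.notMem_empty y)
  · exact U_mono Φ hγ.le (DfU_sub' Φ h1 hy)

theorem DfU_sub {β : Ordinal.{0}} {x y : ZFSet.{0}} (hx : DfU Φ β x) (hy : y ∈ x) : y ∈ U Φ β :=
  DfU_sub' Φ hx hy

theorem DfU_of_mem {β : Ordinal.{0}} {x : ZFSet.{0}} (hx : x ∈ U Φ β) : DfU Φ β x := by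
  refine ⟨⟨.mem 0 1, x, []⟩, ⟨hx, fun y hy => absurd hy List.not_mem_nil⟩, fun z => ?_⟩
  constructor
  · intro hz
    exact ⟨U_trans Φ hx hz, hz⟩
  · rintro ⟨-, h⟩
    exact h

theorem U_zero {x : ZFSet.{0}} : x ∈ U Φ 0 ↔ x = ∅ := by
  rw [mem_U]
  constructor
  · rintro (h | ⟨β, hβ, -⟩)
    · exact h
    · exact absurd hβ (not_lt.2 zero_le)
  · exact fun h => Or.inl h

theorem U_succ {β : Ordinal.{0}} {x : ZFSet.{0}} : x ∈ U Φ (β + 1) ↔ DfU Φ β x := by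
  constructor
  · intro h
    rcases (mem_U Φ).1 h with h1 | ⟨γ, hγ, h1⟩
    · rw [h1]
      exact DfU_of_mem Φ (empty_mem_U Φ β)
    · rcases (Order.lt_add_one_iff.1 hγ).lt_or_eq with h2 | h2
      · exact DfU_of_mem Φ ((mem_U Φ).2 (Or.inr ⟨γ, h2, h1⟩))
      · rw [← h2]
        exact h1
  · intro h
    exact (mem_U Φ).2 (Or.inr ⟨β, Order.lt_add_one_iff.2 le_rfl, h⟩)

theorem U_lim {δ : Ordinal.{0}} (hδ : Order.IsSuccLimit δ) {x : ZFSet.{0}} :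
    x ∈ U Φ δ ↔ ∃ β < δ, x ∈ U Φ β := by
  constructor
  · intro h
    rcases (mem_U Φ).1 h with h1 | ⟨γ, hγ, h1⟩
    · rw [h1]
      exact ⟨0, hδ.bot_lt, empty_mem_U Φ 0⟩
    · refine ⟨γ + 1, ?_, (U_succ Φ).2 h1⟩
      rw [← Order.succ_eq_add_one]
      exact hδ.succ_lt hγ
  · rintro ⟨β, hβ, h⟩
    exact U_mono Φ hβ.le h

theorem exists_uz (α : Ordinal.{0}) : ∃ z : ZFSet.{0}, ∀ x, x ∈ z ↔ x ∈ U Φ α := by
  induction α using WellFoundedLT.induction with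
  | ind α ih =>
    choose w hw using ih
    let f : Set.Iio α → ZFSet.{0} := fun β => (w β.1 β.2).powerset
    refine ⟨ZFSet.sep (fun x => x ∈ U Φ α) (insert ∅ (ZFSet.sUnion (ZFSet.range f))), fun x => ?_⟩
    rw [ZFSet.mem_sep]
    refine ⟨fun h => h.2, fun h => ⟨?_, h⟩⟩
    rw [ZFSet.mem_insert_iff]
    rcases (mem_U Φ).1 h with h1 | ⟨γ, hγ, h1⟩
    · exact Or.inl h1
    · refine Or.inr (ZFSet.mem_sUnion.2 ⟨f ⟨γ, hγ⟩, ZFSet.mem_range.2 ⟨⟨γ, hγ⟩, rfl⟩, ?_⟩)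
      refine ZFSet.mem_powerset.2 fun y hy => ?_
      exact (hw γ hγ y).2 (DfU_sub Φ h1 hy)

/-- the level `α` as a set -/
noncomputable def uz (α : Ordinal.{0}) : ZFSet.{0} := (exists_uz Φ α).choose

theorem mem_uz {α : Ordinal.{0}} {x : ZFSet.{0}} : x ∈ uz Φ α ↔ x ∈ U Φ α := (exists_uz Φ α).choose_spec x

theorem uz_mem (β : Ordinal.{0}) : uz Φ β ∈ U Φ (β + 1) := by
  refine (U_succ Φ).2 ⟨⟨.imp .bot .bot, ∅, []⟩, ⟨empty_mem_U Φ β,
    fun y hy => absurd hy List.not_mem_nil⟩, fun z => ?_⟩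
  refine (mem_uz Φ).trans ⟨fun h => ⟨h, fun h1 => h1⟩, fun h => h.1⟩

/-- a definable subset as a set -/
theorem exists_Df (β : Ordinal.{0}) (k : Key ZFSet.{0}) :
    ∃ x : ZFSet.{0}, k.dfs Φ (· ∈ ·) (Rl Φ β) (· ∈ U Φ β) x := by
  refine ⟨ZFSet.sep (fun z => k.ext' Φ (· ∈ ·) (Rl Φ β) (· ∈ U Φ β) z) (uz Φ β), fun z => ?_⟩
  refine ZFSet.mem_sep.trans ⟨fun h => h.2, fun h => ⟨(mem_uz Φ).2 h.1, h⟩⟩

theorem Rl_mem {α : Ordinal.{0}} {x y : ZFSet.{0}} (h : Rl Φ α x y) : x ∈ U Φ α ∧ y ∈ U Φ α := by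
  induction α using WellFoundedLT.induction with
  | ind α ih =>
    obtain ⟨β, hβ, h1 | ⟨h1, -, h2⟩⟩ := (Rl_iff Φ).1 h
    · obtain ⟨h3, h4⟩ := ih β hβ h1
      exact ⟨U_mono Φ hβ.le h3, U_mono Φ hβ.le h4⟩
    · refine ⟨?_, (mem_U Φ).2 (Or.inr ⟨β, hβ, h1⟩)⟩
      rcases h2 with h2 | ⟨h2, -⟩
      · exact U_mono Φ hβ.le h2
      · exact (mem_U Φ).2 (Or.inr ⟨β, hβ, h2⟩)

private theorem Rl_mono {α β : Ordinal.{0}} (h : β ≤ α) {x y : ZFSet.{0}} (hx : Rl Φ β x y) :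
    Rl Φ α x y := by
  rcases h.lt_or_eq with h1 | h1
  · exact (Rl_iff Φ).2 ⟨β, h1, Or.inl hx⟩
  · rw [← h1]
    exact hx

theorem Rl_end {α β : Ordinal.{0}} (h : β ≤ α) {x y : ZFSet.{0}} (hy : y ∈ U Φ β) :
    Rl Φ α x y ↔ Rl Φ β x y := by
  refine ⟨fun hx => ?_, Rl_mono Φ h⟩
  induction α using WellFoundedLT.induction with
  | ind α ih =>
    obtain ⟨γ, hγ, h1 | ⟨h1, h2, h3⟩⟩ := (Rl_iff Φ).1 hx
    · rcases le_total γ β with h4 | h4
      · exact Rl_mono Φ h4 h1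
      · exact ih γ hγ h4 h1
    · have h4 : γ < β := by
        by_contra h5
        exact h2 (U_mono Φ (not_lt.1 h5) hy)
      exact (Rl_iff Φ).2 ⟨γ, h4, Or.inr ⟨h1, h2, h3⟩⟩

theorem Lt_iff {α : Ordinal.{0}} {x y : ZFSet.{0}} (hy : y ∈ U Φ α) : Lt Φ x y ↔ Rl Φ α x y := by
  refine ⟨?_, fun h => ⟨α, h⟩⟩
  rintro ⟨γ, h⟩
  rcases le_total γ α with h4 | h4
  · exact Rl_mono Φ h4 h
  · exact (Rl_end Φ h4 hy).1 h

theorem DfU_iff {β : Ordinal.{0}} {x : ZFSet.{0}} :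
    DfU Φ β x ↔ Df Φ (· ∈ ·) (Lt Φ) (· ∈ U Φ β) x :=
  Df_congr (fun _ _ _ hy => (Lt_iff Φ hy).symm) x

theorem lessU_iff {β : Ordinal.{0}} {x y : ZFSet.{0}} :
    lessU Φ β x y ↔ less Φ (· ∈ ·) (Lt Φ) (· ∈ U Φ β) x y :=
  less_congr (fun _ _ _ hy => (Lt_iff Φ hy).symm) x y

/-- the order on the elements of a successor level -/
theorem Lt_succ {β : Ordinal.{0}} {x y : ZFSet.{0}} (hx : x ∈ U Φ (β + 1)) (hy : y ∈ U Φ (β + 1)) :
    Lt Φ x y ↔ (x ∈ U Φ β ∧ y ∈ U Φ β ∧ Lt Φ x y) ∨ (x ∈ U Φ β ∧ y ∉ U Φ β) ∨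
      (x ∉ U Φ β ∧ y ∉ U Φ β ∧ lessU Φ β x y) := by
  constructor
  · intro h
    by_cases hyβ : y ∈ U Φ β
    · exact Or.inl ⟨(Rl_mem Φ ((Lt_iff Φ hyβ).1 h)).1, hyβ, h⟩
    · right
      obtain ⟨γ, hγ, h1 | ⟨h1, h2, h3⟩⟩ := (Rl_iff Φ).1 ((Lt_iff Φ hy).1 h)
      · exact absurd (U_mono Φ (Order.lt_add_one_iff.1 hγ) (Rl_mem Φ h1).2) hyβ
      · rcases (Order.lt_add_one_iff.1 hγ).lt_or_eq with h4 | h4
        · exact absurd ((mem_U Φ).2 (Or.inr ⟨γ, h4, h1⟩)) hyβ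
        · rw [h4] at h3
          rcases h3 with h3 | ⟨-, h5, h6⟩
          · exact Or.inl ⟨h3, hyβ⟩
          · exact Or.inr ⟨h5, hyβ, h6⟩
  · have hlt : β < β + 1 := Order.lt_add_one_iff.2 le_rfl
    rintro (⟨-, -, h⟩ | ⟨h1, h2⟩ | ⟨h1, h2, h3⟩)
    · exact h
    · exact ⟨β + 1, (Rl_iff Φ).2 ⟨β, hlt, Or.inr ⟨(U_succ Φ).1 hy, h2, Or.inl h1⟩⟩⟩
    · exact ⟨β + 1, (Rl_iff Φ).2 ⟨β, hlt, Or.inr ⟨(U_succ Φ).1 hy, h2,
        Or.inr ⟨(U_succ Φ).1 hx, h1, h3⟩⟩⟩⟩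

/-- least stage: `x ∈ Lc` is `∅` or a new element of a successor level -/
theorem exists_stage {x : ZFSet.{0}} (hx : x ∈ Lc Φ) : x = ∅ ∨ ∃ β, x ∈ U Φ (β + 1) ∧ x ∉ U Φ β := by
  obtain ⟨α, hα⟩ := hx
  induction α using WellFoundedLT.induction with
  | ind α ih =>
    rcases (mem_U Φ).1 hα with h1 | ⟨β, hβ, h1⟩
    · exact Or.inl h1
    · by_cases h2 : x ∈ U Φ β
      · exact ih β hβ h2
      · exact Or.inr ⟨β, (U_succ Φ).2 h1, h2⟩

end LGr
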