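import Pool.Agent.LGr.Hull
import Pool.Agent.LGr.Zfc

/-! # Countable hulls are coherent and elementary

(problem MP_ba5606_gt, ARH Part II, block A; architect helper69)

Let `IsHull Φ δ X A`, `δ` a limit. Structure: `S = X`, `I = A`, `E x y := x.1 ∈ y.1`, `Lt`, `<`, `lev i x := x.1 ∈ U Φ i.1`.

PROOFS.
* `hull_num`: `isNum` in the structure `X` is the native notion: induction on `n` with the Skolem closure `sk` for `α = δ`. `n = 0`: if `x ∈ X` is not `∅` then `mem 0 1` gives an element of `x` in `X`.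
  `n + 1`: if `y ∈ X`, `y = n.toZFSet` and `x` have the property `∀ z ∈ X, z ∈ x ↔ z ∈ y ∨ z = y` then it holds for all `z` (else `sk` for the formula `¬ (0 ∈ 1 ↔ (0 ∈ 2 ∨ 0 = 2))` gives a counterexample in
  `X`), so `x = insert y y`. Conversely for `x = (n + 1).toZFSet ∈ X` the element `n.toZFSet` is in `X`: `sk` for the formula `0 ∈ 1 ∧ ∀ z, z ∈ 1 ↔ (z ∈ 0 ∨ z = 0)`.
* `hull_tv` (Tarski-Vaught), `α ∈ A` or `α = δ`: satisfaction in the structure `X` with quantifiers over `X ∩ U Φ α` is satisfaction in `U Φ α` for assignments in `X ∩ U Φ α`: induction on the formula, `all`: `sk` for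
  the negation. `tp`: `hull_num` (compare `isNum_iff`).
* `coh_hull`. `ext`: if `x ≠ y` then some `z ∈ U Φ δ` is in exactly one of them; `sk` gives one in `X`. `emp`, `tot`: `emp`, `stage`. In `A`: `i` is minimal iff `i = 0`; `Suc j i` iff `i = j + 1` (closed under successors);
  `i` is a limit of `A` iff it is a limit ordinal (`pred`). `low`: `U_zero`. `lim`: `U_lim`, `stage`. `suc`: for `x ∈ X`: `x ∈ U (j + 1)` iff `DfU Φ j x`. If so then `key` gives a key with parameters in `X`, and it defines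
  `x` in the structure `X` (`hull_tv`). Conversely let `k` be a key with parameters in `X ∩ U Φ j` which defines `x` in the structure `X`; let `y` be the set natively defined by `k` (`exists_Df`; `y ∈ U (j + 1) ⊆ U δ`),
  `y ∈ X` by `set`, and `x`, `y` have the same elements in `X`, so `x = y`. `sucex`: the same `y`. `ltlow`: `Lt_irr`. `ltsuc`: `Lt_succ`; `less` in `X` iff `lessU`: least keys are in `X` by `key`
  (`klt` is transitive and linear: `klt_tr`, `klt_lin` for `D = U Φ j`, `Lt`), keys in the structure correspond to keys of `ZFSet` with parameters in `X`.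
* `elem_hull`: `sat_tr` and `hull_tv` for `α = δ`. -/

namespace LGr

open STP

variable {Φ : ℕ → ℕ → ℕ → ℕ → Prop} {δ : Ordinal.{0}} {X : Set ZFSet.{0}} {A : Set Ordinal.{0}}

private def nt (φ : LF) : LF := .imp φ .bot

private def an (φ ψ : LF) : LF := nt (.imp φ (nt ψ))

private theorem lsat_an {S : Type*} {E lt : S → S → Prop} {D : S → Prop} {φ ψ : LF}
    {v : ℕ → S} : lsat Φ E lt D (an φ ψ) v ↔ lsat Φ E lt D φ v ∧ lsat Φ E lt D ψ v := by
  simp only [an, nt, lsat]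
  tauto

private theorem sk_all (h : IsHull Φ δ X A) {α : Ordinal.{0}} (hα : α = δ ∨ α ∈ A) (φ : LF)
    (v : ℕ → ZFSet.{0}) (hv : ∀ i, v i ∈ X ∧ v i ∈ U Φ α)
    (h1 : ∀ x ∈ X, x ∈ U Φ α → lsat Φ (· ∈ ·) (Lt Φ) (· ∈ U Φ α) φ (cns x v)) :
    ∀ x ∈ U Φ α, lsat Φ (· ∈ ·) (Lt Φ) (· ∈ U Φ α) φ (cns x v) := by
  intro x hx
  by_contra hc
  obtain ⟨y, hy, hy', h2⟩ := h.sk α hα (nt φ) v hv ⟨x, hx, hc⟩
  exact h2 (h1 y hy hy')

theorem hull_num (hδ : Order.IsSuccLimit δ) (h : IsHull Φ δ X A) {n : ℕ} {x : X} :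
    isNum (S := X) (fun x y => x.1 ∈ y.1) n x ↔ isNum (S := ZFSet.{0}) (· ∈ ·) n x.1 := by
  have _ := hδ
  induction n generalizing x with
  | zero =>
    constructor
    · intro h1 z hz
      have h2 := sk_all h (Or.inl rfl) (.imp (.mem 0 1) .bot) (fun _ => x.1)
        (fun _ => ⟨x.2, h.sub x.2⟩) (fun y hy _ => h1 ⟨y, hy⟩) z (U_trans Φ (h.sub x.2) hz)
      exact h2 hz
    · intro h1 z hz
      exact h1 z.1 hz
  | succ n ih =>
    constructor
    · rintro ⟨y, hy, h1⟩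
      refine ⟨y.1, ih.1 hy, ?_⟩
      have hv : ∀ i, cns x.1 (fun _ => y.1) i ∈ X ∧ cns x.1 (fun _ => y.1) i ∈ U Φ δ := by
        intro i
        cases i with
        | zero => exact ⟨x.2, h.sub x.2⟩
        | succ i => exact ⟨y.2, h.sub y.2⟩
      have h2 := sk_all h (Or.inl rfl) (.imp (.mem 0 1) (.imp (nt (.mem 0 2)) (.eq 0 2))) _ hv
        (fun z hz _ h3 h4 => congrArg Subtype.val (((h1 ⟨z, hz⟩).1 h3).resolve_left h4))
      have h3 := sk_all h (Or.inl rfl) (.imp (.mem 0 2) (.mem 0 1)) _ hv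
        (fun z hz _ h4 => (h1 ⟨z, hz⟩).2 (Or.inl h4))
      intro z
      constructor
      · intro hz
        by_cases h4 : z ∈ y.1
        · exact Or.inl h4
        · exact Or.inr (h2 z (U_trans Φ (h.sub x.2) hz) hz h4)
      · rintro (hz | rfl)
        · exact h3 z (U_trans Φ (h.sub y.2) hz) hz
        · exact (h1 y).2 (Or.inr rfl)
    · rintro ⟨y, hy, h1⟩
      have hyx : y ∈ x.1 := (h1 y).2 (Or.inr rfl)
      obtain ⟨y', hy', -, h2⟩ := h.sk δ (Or.inl rfl) (an (.mem 0 1)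
        (.all (.imp (.mem 0 2) (.imp (nt (.mem 0 1)) (.eq 0 1))))) (fun _ => x.1)
        (fun _ => ⟨x.2, h.sub x.2⟩) ⟨y, U_trans Φ (h.sub x.2) hyx, lsat_an.2
          ⟨hyx, fun z _ h3 h4 => ((h1 z).1 h3).resolve_left h4⟩⟩
      obtain ⟨h3, h4⟩ := lsat_an.1 h2
      have he : y = y' := by
        by_contra hne
        have a1 : y' ∈ y := ((h1 y').1 h3).resolve_right (Ne.symm hne)
        have a2 : ¬ y ∈ y' := fun a => ZFSet.mem_asymm a a1
        exact hne (h4 y (U_trans Φ (h.sub x.2) hyx) hyx a2)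
      subst he
      refine ⟨⟨y, hy'⟩, ih.2 hy, fun z => ?_⟩
      rw [Subtype.ext_iff]
      exact h1 z.1

private theorem cns_val (x : X) (v : ℕ → X) :
    (fun i => (cns x v i).1) = cns x.1 fun i => (v i).1 := by
  funext i
  cases i with
  | zero => rfl
  | succ i => rfl

theorem hull_tv (hδ : Order.IsSuccLimit δ) (h : IsHull Φ δ X A) {α : Ordinal.{0}} (hα : α = δ ∨ α ∈ A)
    (φ : LF) (v : ℕ → X) (hv : ∀ i, (v i).1 ∈ U Φ α) :
    lsat Φ (S := X) (fun x y => x.1 ∈ y.1) (fun x y => Lt Φ x.1 y.1) (fun x => x.1 ∈ U Φ α) φ v ↔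
      lsat Φ (· ∈ ·) (Lt Φ) (· ∈ U Φ α) φ (fun i => (v i).1) := by
  induction φ generalizing v with
  | mem i j => exact Iff.rfl
  | eq i j => exact Subtype.ext_iff
  | lt i j => exact Iff.rfl
  | tp r i j k => simp only [lsat, hull_num hδ h]
  | bot => exact Iff.rfl
  | imp φ ψ h1 h2 => exact imp_congr (h1 v hv) (h2 v hv)
  | all φ ih =>
    have key : ∀ x : X, x.1 ∈ U Φ α → (lsat Φ (S := X) (fun x y => x.1 ∈ y.1)
        (fun x y => Lt Φ x.1 y.1) (fun x => x.1 ∈ U Φ α) φ (cns x v) ↔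
        lsat Φ (· ∈ ·) (Lt Φ) (· ∈ U Φ α) φ (cns x.1 fun i => (v i).1)) := by
      intro x hx
      rw [ih (cns x v) (fun i => by
        cases i with
        | zero => exact hx
        | succ i => exact hv i), cns_val]
    constructor
    · intro h1
      exact sk_all h hα φ (fun i => (v i).1) (fun i => ⟨(v i).2, hv i⟩)
        fun x hx hx' => (key ⟨x, hx⟩ hx').1 (h1 ⟨x, hx⟩ hx')
    · intro h1 x hx
      exact (key x hx).2 (h1 x.1 hx)

private theorem hull_ext (h : IsHull Φ δ X A) (x y : X)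
    (hxy : ∀ z : X, z.1 ∈ x.1 ↔ z.1 ∈ y.1) : x = y := by
  have key : ∀ x y : X, (∀ z : X, z.1 ∈ x.1 → z.1 ∈ y.1) → ∀ z, z ∈ x.1 → z ∈ y.1 := by
    intro x y hxy z hz
    have hv : ∀ i, cns x.1 (fun _ => y.1) i ∈ X ∧ cns x.1 (fun _ => y.1) i ∈ U Φ δ := by
      intro i
      cases i with
      | zero => exact ⟨x.2, h.sub x.2⟩
      | succ i => exact ⟨y.2, h.sub y.2⟩
    exact sk_all h (Or.inl rfl) (.imp (.mem 0 1) (.mem 0 2)) _ hv
      (fun z hz _ h3 => hxy ⟨z, hz⟩ h3) z (U_trans Φ (h.sub x.2) hz) hz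
  exact Subtype.ext (ZFSet.ext fun z => ⟨key x y (fun z => (hxy z).1) z,
    key y x (fun z => (hxy z).2) z⟩)

/-- a key with parameters in `X` as a key -/
private def kv (k : Key X) : Key ZFSet.{0} := ⟨k.φ, k.a.1, k.l.map Subtype.val⟩

private theorem kv_env (k : Key X) (i : ℕ) : (kv k).env i = (k.env i).1 := by
  have h : (k.a.1 :: k.l.map Subtype.val) = (k.a :: k.l).map Subtype.val := rfl
  simp only [kv, Key.env]
  rw [h, List.getD_map]

private theorem kv_ok {D : ZFSet.{0} → Prop} {k : Key X} :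
    (k.ok fun x : X => D x.1) ↔ (kv k).ok D := by
  simp only [Key.ok, kv]
  refine and_congr Iff.rfl ?_
  constructor
  · intro h y hy
    obtain ⟨x, hx, rfl⟩ := List.mem_map.1 hy
    exact h x hx
  · intro h y hy
    exact h _ (List.mem_map.2 ⟨y, hy, rfl⟩)

private theorem env_mem {S : Type*} {D : S → Prop} {k : Key S} (hk : k.ok D) (i : ℕ) :
    D (k.env i) := by
  simp only [Key.env]
  by_cases hi : i < (k.a :: k.l).length
  · rw [List.getD_eq_getElem _ _ hi]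
    have := List.getElem_mem hi
    rcases List.mem_cons.1 this with h | h
    · rw [h]; exact hk.1
    · exact hk.2 _ h
  · rw [List.getD_eq_default _ _ (not_lt.1 hi)]
    exact hk.1

private theorem lift_list : ∀ l : List ZFSet.{0}, (∀ y ∈ l, y ∈ X) →
    ∃ l' : List X, l'.map Subtype.val = l
  | [], _ => ⟨[], rfl⟩
  | a :: l, h => by
    obtain ⟨l', hl'⟩ := lift_list l fun y hy => h y (List.mem_cons_of_mem _ hy)
    exact ⟨⟨a, h a List.mem_cons_self⟩ :: l', by rw [List.map_cons, hl']⟩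

private theorem exists_lift {k : Key ZFSet.{0}} (h : ∀ y ∈ k.l, y ∈ X) (h' : k.a ∈ X) :
    ∃ k' : Key X, kv k' = k := by
  obtain ⟨l', hl'⟩ := lift_list k.l h
  exact ⟨⟨k.φ, ⟨k.a, h'⟩, l'⟩, Key.ext rfl rfl hl'⟩

private theorem kv_ext (hδ : Order.IsSuccLimit δ) (h : IsHull Φ δ X A) {α : Ordinal.{0}}
    (hα : α ∈ A) {k : Key X} (hk : k.ok fun x : X => x.1 ∈ U Φ α) (z : X) :
    k.ext' Φ (fun x y => x.1 ∈ y.1) (fun x y => Lt Φ x.1 y.1) (fun x => x.1 ∈ U Φ α) z ↔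
      (kv k).ext' Φ (· ∈ ·) (Lt Φ) (· ∈ U Φ α) z.1 := by
  simp only [Key.ext']
  refine and_congr_right fun hz => ?_
  rw [hull_tv hδ h (Or.inr hα) _ _ (fun i => by
    cases i with
    | zero => exact hz
    | succ i => exact env_mem hk i), cns_val]
  have : (fun i => (k.env i).1) = (kv k).env := by
    funext i
    exact (kv_env k i).symm
  rw [this]
  rfl

private theorem exists_set (hδ : Order.IsSuccLimit δ) (h : IsHull Φ δ X A) {α : Ordinal.{0}}
    (hα : α ∈ A) {k : Key X} (hk : k.ok fun x : X => x.1 ∈ U Φ α) :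
    ∃ y : X, (kv k).dfs Φ (· ∈ ·) (Lt Φ) (· ∈ U Φ α) y.1 ∧ y.1 ∈ U Φ (α + 1) := by
  obtain ⟨y, hy⟩ := exists_Df Φ α (kv k)
  have hok : (kv k).ok (· ∈ U Φ α) := kv_ok.1 hk
  have hyU : y ∈ U Φ (α + 1) := (U_succ Φ).2 ⟨kv k, hok, hy⟩
  have hy' : (kv k).dfs Φ (· ∈ ·) (Lt Φ) (· ∈ U Φ α) y := by
    intro z
    rw [hy z]
    simp only [Key.ext']
    refine and_congr_right fun hz => ?_
    exact lsat_congr (fun a b _ hb => (Lt_iff Φ hb).symm) _ _ fun i => by
      cases i with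
      | zero => exact hz
      | succ i => exact env_mem hok i
  have hlt : α + 1 < δ := h.lt _ (h.succ α hα)
  have hyX : y ∈ X := h.set α hα (kv k)
    ⟨⟨k.a.2, hok.1⟩, fun b hb => ⟨by
      obtain ⟨x, -, rfl⟩ := List.mem_map.1 hb
      exact x.2, hok.2 b hb⟩⟩ y (U_mono Φ hlt.le hyU) hy'
  have _ := hδ
  exact ⟨⟨y, hyX⟩, hy', hyU⟩

private theorem kv_dfs (hδ : Order.IsSuccLimit δ) (h : IsHull Φ δ X A) {α : Ordinal.{0}}
    (hα : α ∈ A) {k : Key X} (hk : k.ok fun x : X => x.1 ∈ U Φ α) {x : X} :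
    k.dfs Φ (fun x y => x.1 ∈ y.1) (fun x y => Lt Φ x.1 y.1) (fun x => x.1 ∈ U Φ α) x ↔
      (kv k).dfs Φ (· ∈ ·) (Lt Φ) (· ∈ U Φ α) x.1 := by
  constructor
  · intro h1
    obtain ⟨y, hy, -⟩ := exists_set hδ h hα hk
    have h2 : x = y := hull_ext h x y fun z =>
      (h1 z).trans ((kv_ext hδ h hα hk z).trans (hy z.1).symm)
    rw [h2]
    exact hy
  · intro h1 z
    exact (h1 z.1).trans (kv_ext hδ h hα hk z).symm

private theorem lex_val : ∀ l l' : List X, (List.Lex (fun x y : X => Lt Φ x.1 y.1) l l' ↔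
    List.Lex (Lt Φ) (l.map Subtype.val) (l'.map Subtype.val))
  | [], [] => by simp
  | [], b :: l' => by simp
  | a :: l, [] => by simp
  | a :: l, b :: l' => by
    have ih := lex_val l l'
    simp only [List.map_cons]
    constructor
    · intro hh
      cases hh with
      | cons hh => exact List.Lex.cons (ih.1 hh)
      | rel hh => exact List.Lex.rel hh
    · intro hh
      rw [List.cons_lex_cons_iff] at hh
      rcases hh with hh | hh
      · exact List.Lex.rel hh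
      · have h1 := Subtype.ext hh.1
        subst h1
        exact List.Lex.cons (ih.2 hh.2)

private theorem kv_klt {k k' : Key X} :
    klt (fun x y : X => Lt Φ x.1 y.1) k k' ↔ klt (Lt Φ) (kv k) (kv k') := by
  simp only [klt, kv]
  refine or_congr Iff.rfl (and_congr Iff.rfl ?_)
  have h1 : (k.a.1 :: k.l.map Subtype.val) = (k.a :: k.l).map Subtype.val := rfl
  have h2 : (k'.a.1 :: k'.l.map Subtype.val) = (k'.a :: k'.l).map Subtype.val := rfl
  rw [h1, h2, List.shortlex_def, List.shortlex_def, List.length_map, List.length_map, lex_val]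

theorem coh_hull (hδ : Order.IsSuccLimit δ) (h : IsHull Φ δ X A) :
    Coh Φ (S := X) (I := A) (fun x y => x.1 ∈ y.1) (fun x y => Lt Φ x.1 y.1) (fun i j => i.1 < j.1)
      (fun i x => x.1 ∈ U Φ i.1) := by
  have hzero : ∀ i : A, (∀ j : A, ¬ j.1 < i.1) → i.1 = 0 := by
    intro i hi
    by_contra hne
    exact hi ⟨0, h.zero⟩ (pos_iff_ne_zero.2 hne)
  have hsuc : ∀ j i : A, Suc (fun i j : A => i.1 < j.1) j i → i.1 = j.1 + 1 := by
    rintro j i ⟨h1, h2⟩
    have h3 : j.1 + 1 ≤ i.1 := Order.add_one_le_iff.2 h1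
    rcases h3.eq_or_lt with h4 | h4
    · exact h4.symm
    · rcases h2 ⟨j.1 + 1, h.succ j.1 j.2⟩ h4 with h5 | h5
      · have h6 : j.1 + 1 = j.1 := congrArg Subtype.val h5
        exact absurd h6 (lt_add_one j.1).ne'
      · have h6 : j.1 + 1 < j.1 := h5
        exact absurd h6 (not_lt.2 (lt_add_one j.1).le)
  refine ⟨hull_ext h, fun i j k => lt_trans, fun i => lt_irrefl _, fun i j => ?_,
    ⟨⟨∅, h.emp⟩, fun z => ZFSet.notMem_empty z.1⟩, fun x => ?_, fun i hi x => ?_,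
    fun j i hji x => ?_, fun j i hji k hk => ?_, fun i hi hi' x => ?_, fun i hi x y hx hy => ?_,
    fun j i hji x y hx hy => ?_⟩
  · rcases lt_trichotomy i.1 j.1 with h1 | h1 | h1
    · exact Or.inl h1
    · exact Or.inr (Or.inl (Subtype.ext h1))
    · exact Or.inr (Or.inr h1)
  · obtain ⟨α, hα, hx, -⟩ := h.stage x.1 x.2
    exact ⟨⟨α, hα⟩, hx⟩
  · rw [hzero i hi, U_zero]
    constructor
    · intro h1 z
      rw [h1]
      exact ZFSet.notMem_empty z.1
    · intro h1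
      have h2 : isNum (S := ZFSet.{0}) (· ∈ ·) 0 x.1 := (hull_num hδ h).1 h1
      exact (ZFSet.eq_empty x.1).2 h2
  · rw [hsuc j i hji]
    constructor
    · intro h1
      obtain ⟨k, hk1, hk2, -⟩ := h.key j.1 j.2 x.1 x.2 ((U_succ Φ).1 h1)
      obtain ⟨k', hk'⟩ := exists_lift (fun y hy => (hk1.2 y hy).1) hk1.1.1
      subst hk'
      have hk3 : k'.ok fun x : X => x.1 ∈ U Φ j.1 :=
        kv_ok.2 ⟨hk1.1.2, fun y hy => (hk1.2 y hy).2⟩
      exact ⟨k', hk3, (kv_dfs hδ h j.2 hk3).2 hk2⟩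
    · rintro ⟨k, hk, hx⟩
      obtain ⟨y, hy, hy'⟩ := exists_set hδ h j.2 hk
      have h2 := (kv_dfs hδ h j.2 hk).1 hx
      have h3 : x.1 = y.1 := ZFSet.ext fun z => (h2 z).trans (hy z).symm
      rw [h3]
      exact hy'
  · obtain ⟨y, hy, hy'⟩ := exists_set hδ h j.2 hk
    exact ⟨y, (kv_dfs hδ h j.2 hk).2 hy⟩
  · have hlim : Order.IsSuccLimit i.1 := by
      obtain ⟨j, hj⟩ := hi
      refine ⟨fun hm => absurd (hm (le_of_lt hj)) (not_le.2 hj),
        Order.isSuccPrelimit_of_succ_ne fun β hβ => ?_⟩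
      rw [Order.succ_eq_add_one] at hβ
      have hβA : β ∈ A := h.pred β (hβ ▸ i.2)
      refine hi' ⟨β, hβA⟩ ⟨?_, fun k hk => ?_⟩
      · change β < i.1
        rw [← hβ]
        exact lt_add_one β
      · have hk' : k.1 < β + 1 := by
          rw [hβ]
          exact hk
        rcases (Order.lt_add_one_iff.1 hk').eq_or_lt with h1 | h1
        · exact Or.inl (Subtype.ext h1)
        · exact Or.inr h1
    constructor
    · intro h1
      obtain ⟨β, hβ, h2⟩ := (U_lim Φ hlim).1 h1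
      obtain ⟨α, hα, hx, hα'⟩ := h.stage x.1 x.2
      refine ⟨⟨α, hα⟩, ?_, hx⟩
      have h3 : α ≤ β := by
        by_contra hc
        exact hα' β (not_le.1 hc) h2
      exact h3.trans_lt hβ
    · rintro ⟨j, hj, h1⟩
      exact U_mono Φ (le_of_lt hj) h1
  · rw [hzero i hi, U_zero] at hx hy
    rw [hx, hy]
    exact Lt_irr Φ _
  · rw [hsuc j i hji] at hx hy
    have hdx := (U_succ Φ).1 hx
    have hdy := (U_succ Φ).1 hy
    refine (Lt_succ Φ hx hy).trans ?_
    refine or_congr Iff.rfl (or_congr Iff.rfl (and_congr Iff.rfl (and_congr Iff.rfl ?_)))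
    rw [lessU_iff]
    obtain ⟨kx, hx1, hx2, hx3⟩ := h.key j.1 j.2 x.1 x.2 hdx
    obtain ⟨ky, hy1, hy2, hy3⟩ := h.key j.1 j.2 y.1 y.2 hdy
    obtain ⟨kx', hkx⟩ := exists_lift (fun y hy => (hx1.2 y hy).1) hx1.1.1
    obtain ⟨ky', hky⟩ := exists_lift (fun y hy => (hy1.2 y hy).1) hy1.1.1
    subst hkx hky
    have hox : (kv kx').ok (· ∈ U Φ j.1) := ⟨hx1.1.2, fun y hy => (hx1.2 y hy).2⟩
    have hoy : (kv ky').ok (· ∈ U Φ j.1) := ⟨hy1.1.2, fun y hy => (hy1.2 y hy).2⟩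
    have htr : ∀ x y z : ZFSet.{0}, x ∈ U Φ j.1 → y ∈ U Φ j.1 → z ∈ U Φ j.1 →
        Lt Φ x y → Lt Φ y z → Lt Φ x z := fun x y z _ _ _ h1 h2 => Lt_tr Φ h1 h2
    constructor
    · rintro ⟨k, hk, hkx, hkl⟩
      refine ⟨kx', kv_ok.2 hox, (kv_dfs hδ h j.2 (kv_ok.2 hox)).2 hx2, fun k' hk' hk'y => ?_⟩
      have h1 := hkl (kv k') (kv_ok.1 hk') ((kv_dfs hδ h j.2 hk').1 hk'y)
      rw [kv_klt]
      rcases hx3 k hk hkx with h2 | h2
      · rw [h2]
        exact h1
      · exact klt_tr htr _ _ _ hox hk (kv_ok.1 hk') h2 h1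
    · rintro ⟨k, hk, hkx, hkl⟩
      refine ⟨kv k, kv_ok.1 hk, (kv_dfs hδ h j.2 hk).1 hkx, fun k' hk' hk'y => ?_⟩
      have h1 := hkl ky' (kv_ok.2 hoy) ((kv_dfs hδ h j.2 (kv_ok.2 hoy)).2 hy2)
      rw [kv_klt] at h1
      rcases hy3 k' hk' hk'y with h2 | h2
      · rw [← h2]
        exact h1
      · exact klt_tr htr _ _ _ (kv_ok.1 hk) hoy hk' h1 h2

private theorem sat_trX (h : IsHull Φ δ X A) (φ : Fml) (v : ℕ → X) :
    sat (CPY.Em X) φ v ↔ lsat Φ (S := X) (fun x y => x.1 ∈ y.1) (fun x y => Lt Φ x.1 y.1)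
      (fun x => x.1 ∈ U Φ δ) (tr φ) v := by
  induction φ generalizing v with
  | mem i j => exact Iff.rfl
  | eq i j => exact Iff.rfl
  | bot => exact Iff.rfl
  | imp φ ψ h1 h2 => exact imp_congr (h1 v) (h2 v)
  | all φ ih =>
    exact forall_congr' fun x => (ih (cns x v)).trans ⟨fun h1 _ => h1, fun h1 => h1 (h.sub x.2)⟩

theorem elem_hull (hδ : Order.IsSuccLimit δ) (h : IsHull Φ δ X A) (φ : Fml) (v : ℕ → X) :
    sat (CPY.Em X) φ v ↔ sat (CPY.Em (U Φ δ)) φ (fun i => ⟨(v i).1, h.sub (v i).2⟩) := by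
  rw [sat_trX h, hull_tv hδ h (Or.inl rfl) _ v fun i => h.sub (v i).2]
  exact (sat_tr Φ (T := U Φ δ) (Lt Φ) φ fun i => ⟨(v i).1, h.sub (v i).2⟩).symm

end LGr
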