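import Pool.Agent.LGr.Ctl

/-! # New reals; the facts (A1), (A2)

(problem MP_ba5606_gt, ARH Part II, block A; architect helper69)

PROOFS.
* `exists_new` (no condensation is used). Let `y0 n := ! (x n n)`; it is internal, so `rz y0 ∈ M` (`rz_mem`), so `rz y0 ∈ U (Ph t) ζ` for a limit `ζ < δ` (`U_lim`, `exists_lim`, `U_mono`). As in `Cd.lean` (`exists_code_bij`): `U (Ph t) ζ` and `Set.Iio ζ` are countably infinite (`hG.ct`), so there are bijections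
  with `ℕ` and a native code `b0` of `coh_U` (`exists_code`). `RbM b0 m y0` for the number `m` of the set `rz y0`: `Eb b0 z m` iff the set with the number `z` is in `rz y0`; `isNum (Eb b0) n z` iff this set is `zn n` (`isNum_map`, `isNum_sub`, `zn_eq`). Let `ρ n : El ζ.toZFSet` be the
  set of the ordinal with the number `n`; `Jb b0 i j → (ρ i).v.1 ∈ (ρ j).v.1`. Let `w := jn (b0, y0, …)`, `x' := jn (t, x 0, x 1, …)`; `(w, x') ∈ B2`. `abs_rank` (`Abs.lean`; `hG.t1`, `ipT`, the membership relation on `El ζ.toZFSet` is internal) gives internal `w'`, `ρ'`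
  with `(w', x') ∈ B2`; `b := dc 0 w'`, `y := dc 1 w'`; `Jb b` is well-founded since `ρ'` maps it into the membership relation.
* `A1`: `coll` (`CollB.lean`), `rho_lt` (`Msp.lean`) with `J_iff`, `seg`, `ip_Jb`. `A1_real`: `rb_iff`, `U_mono`, or conversely.
* `A2`: `exists_enum` for `γ := g`, `exists_new`, `A1` for `W = M`; `rb_iff`: `rz y ∈ U (Ph t) (ρ i)` for some `i`; `rz y ∉ U (Ph t) g` (otherwise `y = x n`), so `g < ρ i` (`U_mono`), `seg`. -/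

namespace LGr

open STP WCal

theorem A1 {W : Set ZFSet.{0}} [Fact (CPY.Mod W)] {θ : Ordinal.{0}} (hθ : IsTht W θ) {b t : ℕ → Bool}
    (hb : IF W b) (hT : Tb b t) (hw : WellFounded (Jb b)) :
    ∃ ρ π, Cl (Ph t) (Eb b) (Lb b) (Jb b) (Vb b) ρ π ∧ ∀ i, ρ i < θ := by
  obtain ⟨ρ, π, hc⟩ := coll hT hw
  exact ⟨ρ, π, hc, rho_lt hθ (ip_Jb hb) hc.J_iff hc.seg⟩

/-- the reals of well-founded structures of the model are in `U (Ph t) θ` -/
theorem A1_real {W : Set ZFSet.{0}} [Fact (CPY.Mod W)] {θ : Ordinal.{0}} (hθ : IsTht W θ) {b t y : ℕ → Bool}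
    (hb : IF W b) (hT : Tb b t) (hw : WellFounded (Jb b)) (hy : Rb b y) : rz y ∈ U (Ph t) θ := by
  obtain ⟨ρ, π, hc, hρ⟩ := A1 hθ hb hT hw
  obtain ⟨i, hi⟩ := (rb_iff hT hc).1 hy
  exact U_mono _ (hρ i).le hi

variable {T : ℕ → List ℕ → List ℕ → List ℕ → Prop} {t : ℕ → Bool} {δ : Ordinal.{0}}
  [hM : Fact (CPY.Mod (U (Ph t) δ))]

omit hM in
private theorem zn_lim {ζ : Ordinal.{0}} (hζ : Order.IsSuccLimit ζ) (n : ℕ) :
    (n : Ordinal.{0}) + 1 < ζ := by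
  induction n with
  | zero =>
    rw [Nat.cast_zero]
    exact hζ.add_one_lt hζ.bot_lt
  | succ n ih =>
    rw [Nat.cast_succ]
    exact hζ.add_one_lt ih

omit hM in
private theorem exists_eqs (hct : (U (Ph t) δ).Countable) {ζ : Ordinal.{0}} (hζ : Order.IsSuccLimit ζ)
    (hζδ : ζ < δ) : Nonempty (U (Ph t) ζ ≃ ℕ) ∧ Nonempty (Set.Iio ζ ≃ ℕ) := by
  have hc : (U (Ph t) ζ).Countable := hct.mono (U_mono _ hζδ.le)
  have : Countable (U (Ph t) ζ) := hc.to_subtype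
  have hz : ∀ α : Set.Iio ζ, α.1.toZFSet ∈ U (Ph t) ζ := fun α =>
    U_mono _ (hζ.add_one_lt α.2).le (toZFSet_mem_U _ α.1)
  have hi : Function.Injective fun α : Set.Iio ζ => (⟨α.1.toZFSet, hz α⟩ : U (Ph t) ζ) := by
    intro α β h
    exact Subtype.ext (Ordinal.toZFSet_injective (congrArg Subtype.val h))
  have hn : Function.Injective fun n : ℕ => (⟨(n : Ordinal.{0}), lt_trans (Order.lt_add_one_iff.2 le_rfl) (zn_lim hζ n)⟩ : Set.Iio ζ) := by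
    intro m n h
    exact Nat.cast_injective (R := Ordinal.{0}) (congrArg Subtype.val h)
  have h1 : Infinite (Set.Iio ζ) := Infinite.of_injective _ hn
  have h2 : Countable (Set.Iio ζ) := hi.countable
  have h3 : Infinite (U (Ph t) ζ) := Infinite.of_injective _ hi
  obtain ⟨h4⟩ := nonempty_denumerable (U (Ph t) ζ)
  obtain ⟨h5⟩ := nonempty_denumerable (Set.Iio ζ)
  exact ⟨⟨Denumerable.eqv _⟩, ⟨Denumerable.eqv _⟩⟩

theorem exists_new (hG : GMod T t δ) {x : ℕ → ℕ → Bool}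
    (hx : IF (U (Ph t) δ) (fun p : ℕ × ℕ => x p.1 p.2)) :
    ∃ b y : ℕ → Bool, IF (U (Ph t) δ) b ∧ Tb b t ∧ WellFounded (Jb b) ∧ Rb b y ∧ ∀ n, x n ≠ y := by
  have hδ := hG.lim
  let y0 : ℕ → Bool := fun n => !(x n n)
  have hy0 : IF (U (Ph t) δ) y0 :=
    IF.comp (g := fun c : Bool => !c) (IF.finite _) (IF.comp2 hx IF.id IF.id)
  obtain ⟨ζ0, hζ0, hyζ0⟩ := (U_lim _ hδ).1 (rz_mem.2 hy0)
  obtain ⟨ζ, h1, h2, hζ⟩ := exists_lim (Φ := Ph t) hδ hζ0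
  have hyζ : rz y0 ∈ U (Ph t) ζ := U_mono _ h1.le hyζ0
  obtain ⟨⟨e⟩, ⟨F⟩⟩ := exists_eqs hG.ct hζ h2
  obtain ⟨b0, hT0, hE, -, hJ, -⟩ := exists_code (coh_U (Φ := Ph t) hζ) e F
  have hEm : ∀ a c, (a : U (Ph t) ζ).1 ∈ (c : U (Ph t) ζ).1 ↔ Eb b0 (e a) (e c) := fun a c => (hE a c).symm
  have hnum : ∀ n (a : U (Ph t) ζ), isNum (Eb b0) n (e a) ↔ a.1 = zn n := by
    intro n a
    rw [← isNum_map (E := fun x y : U (Ph t) ζ => x.1 ∈ y.1) e hEm n a, isNum_sub (fun x hx y hy => U_trans _ hx hy),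
      zn_eq]
  have hR0 : Rb b0 y0 := by
    refine ⟨e ⟨rz y0, hyζ⟩, fun z hz => ?_, fun n => ⟨fun hn => ?_, ?_⟩⟩
    · obtain ⟨a, rfl⟩ := e.surjective z
      obtain ⟨n, -, hn⟩ := mem_rz.1 ((hE _ _).1 hz)
      exact ⟨n, (hnum n a).2 hn⟩
    · have h3 : zn n ∈ rz y0 := mem_rz.2 ⟨n, hn, rfl⟩
      exact ⟨e ⟨zn n, U_trans _ hyζ h3⟩, (hE _ _).2 h3, (hnum _ _).2 rfl⟩
    · rintro ⟨z, hz, hz'⟩
      obtain ⟨a, rfl⟩ := e.surjective z
      obtain ⟨m, hm, hm'⟩ := mem_rz.1 ((hE _ _).1 hz)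
      rw [(hnum _ _).1 hz'] at hm'
      rw [zn_inj hm']
      exact hm
  have hζM : ζ.toZFSet ∈ U (Ph t) δ := (ord_mem hδ).2 h2
  let A : U (Ph t) δ := ⟨ζ.toZFSet, hζM⟩
  let ρ : ℕ → El A := fun n =>
    ⟨⟨(F.symm n).1.toZFSet, (ord_mem hδ).2 ((F.symm n).2.trans h2)⟩,
      Ordinal.toZFSet_mem_toZFSet_iff.2 (F.symm n).2⟩
  let f : ℕ → ℕ → Bool := fun k n => if k = 0 then t n else x (k - 1) n
  have hf : IF (U (Ph t) δ) (fun p : ℕ × ℕ => f p.1 p.2) :=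
    IF.congr (fun p => by by_cases h : p.1 = 0 <;> simp [f, h])
      (IF.ite (IP.eq IF.fst (IF.const 0)) (IF.comp (ift hδ hG.ph) IF.snd)
        (IF.comp2 hx (IF.sub IF.fst (IF.const 1)) IF.snd))
  let w : ℕ → ℕ := jn (fun k => if k = 0 then b0 else y0)
  have hw : (w, jn f) ∈ B2 := by
    have e0 : dc 0 w = b0 := by rw [dc_jn]; rfl
    have e1 : dc 1 w = y0 := by rw [dc_jn]; rfl
    have e2 : dc 0 (jn f) = t := by rw [dc_jn]; rfl
    refine ⟨?_, ?_, fun n => ?_⟩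
    · show Tb (dc 0 w) (dc 0 (jn f))
      rw [e0, e2]
      exact hT0
    · show Rb (dc 0 w) (dc 1 w)
      rw [e0, e1]
      exact hR0
    · show dc 1 w ≠ dc (n + 1) (jn f)
      rw [e1, dc_jn]
      intro h3
      have h4 := congrFun h3 n
      have h5 : f (n + 1) n = x n n := rfl
      rw [h5] at h4
      cases h6 : x n n <;> simp [y0, h6] at h4
  have hr : IP (U (Ph t) δ) (fun p : El A × El A => p.1.v.1 ∈ p.2.v.1) :=
    IP.of_dfn2 (Q := fun x y => x ∈ y) (ZU.dfn_mem (ZU.df_var 0) (ZU.df_var 1)) fun _ _ => Iff.rfl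
  obtain ⟨w', ρ', hw', -, h3, h4⟩ := abs_rank (N := U (Ph t) δ) hG.t1 (ipT hδ hG.ph 1) (if_jn hf) hw
    (r := fun a c : El A => a.v.1 ∈ c.v.1) hr (ρ := ρ) (by
      intro i j hij
      have e0 : dc 0 w = b0 := by rw [dc_jn]; rfl
      rw [e0] at hij
      obtain ⟨a, rfl⟩ := F.surjective i
      obtain ⟨c, rfl⟩ := F.surjective j
      show (F.symm (F a)).1.toZFSet ∈ (F.symm (F c)).1.toZFSet
      rw [F.symm_apply_apply, F.symm_apply_apply, Ordinal.toZFSet_mem_toZFSet_iff]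
      exact (hJ a c).1 hij)
  have e2 : dc 0 (jn f) = t := by rw [dc_jn]; rfl
  refine ⟨dc 0 w', dc 1 w', ?_, ?_, ?_, h3.2.1, fun n => ?_⟩
  · exact if_dc (IF.const 0) (IF.comp hw' IF.snd) IF.id
  · have h5 := h3.1
    rwa [show dc 0 ((w', jn f) : (ℕ → ℕ) × (ℕ → ℕ)).2 = t from e2] at h5
  · exact Subrelation.wf (r := InvImage (fun x y : ZFSet.{0} => x ∈ y) fun i => (ρ' i).v.1)
      (fun {i j} h => h4 i j h) (InvImage.wf _ ZFSet.mem_wf)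
  · have h5 := h3.2.2 n
    have h6 : dc (n + 1) (jn f) = x n := by rw [dc_jn]; rfl
    intro h7
    refine h5 ?_
    rw [show dc (n + 1) ((w', jn f) : (ℕ → ℕ) × (ℕ → ℕ)).2 = x n from h6]
    exact h7.symm

theorem A2 (hG : GMod T t δ) {θ : Ordinal.{0}} (hθ : IsTht (U (Ph t) δ) θ) {g : Ordinal.{0}} (hg : g < θ) :
    ∃ b : ℕ → Bool, IF (U (Ph t) δ) b ∧ Tb b t ∧ WellFounded (Jb b) ∧
      ∃ ρ π, Cl (Ph t) (Eb b) (Lb b) (Jb b) (Vb b) ρ π ∧ (∀ i, ρ i < θ) ∧ (∃ m, ρ m = g) ∧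
        ∃ y, Rb b y ∧ rz y ∉ U (Ph t) g := by
  obtain ⟨x, hx, hx'⟩ := exists_enum hG hθ hg
  obtain ⟨b, y, hb, hT, hw, hy, hne⟩ := exists_new hG hx
  obtain ⟨ρ, π, hc, hρ⟩ := A1 hθ hb hT hw
  have hyg : rz y ∉ U (Ph t) g := by
    intro h
    obtain ⟨n, hn⟩ := hx' y h
    exact hne n hn
  refine ⟨b, hb, hT, hw, ρ, π, hc, hρ, ?_, y, hy, hyg⟩
  obtain ⟨i, hi⟩ := (rb_iff hT hc).1 hy
  refine hc.seg i g ?_
  by_contra h
  exact hyg (U_mono _ (not_lt.1 h) hi)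

end LGr
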