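import Pool.Agent.LGr.Defs
import Pool.Agent.WCal.Tm
import Pool.Agent.WCal.Br
import Pool.Agent.WCal.Simp
import Pool.Agent.WCal.ReA

/-! # The parameter of the ground model (definitions)

(problem MP_ba5606_gt, ARH Part II, block A; architect helper69; definitions, no sorry in this file)

The parameter `t` codes the arithmetic of the rational numbers and a family `T i` of trees (relations between three lists of natural numbers) which is given in advance. `FF T` is the
corresponding parameter `Φ` (only the relation `Φ 0` is used, so that `t` itself is an element of the model).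

* `rz y`: the set of the natural numbers `n` with `y n = true`. `RbM b m y`: in the structure coded by `b` the element `m` is the set `{n | y n = true}`. `Rb b y`: `y` is a real of the structure coded by `b`.
* `dc k w : ℕ → Bool`: the component `k` of `w : ℕ → ℕ`; `jn f`: the join of `f 0, f 1, …`.
* `IsTr T B`: the tree `T` (on triples) projects onto the set `B` of pairs `(w, x)`. `B1`, `B2`: two Borel sets of pairs. `GMod T t δ`: the ground model is `U (Ph t) δ`. -/

namespace LGr

open STP WCal

/-- the set of the natural numbers `n` with `y n = true` -/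
noncomputable def rz (y : ℕ → Bool) : ZFSet.{0} :=
  ZFSet.range (fun n : {n : ℕ // y n = true} => zn n.1)

/-- in the structure coded by `b` the element `m` is the set of natural numbers given by `y` -/
def RbM (b : ℕ → Bool) (m : ℕ) (y : ℕ → Bool) : Prop :=
  (∀ z, Eb b z m → ∃ n, isNum (Eb b) n z) ∧ ∀ n, y n = true ↔ ∃ z, Eb b z m ∧ isNum (Eb b) n z

/-- `y` is a real of the structure coded by `b` -/
def Rb (b y : ℕ → Bool) : Prop := ∃ m, RbM b m y

/-- the component `k` of `w` -/
def dc (k : ℕ) (w : ℕ → ℕ) : ℕ → Bool := fun n => decide (w (Nat.pair k n) = 1)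

/-- the join of a sequence of functions -/
def jn (f : ℕ → ℕ → Bool) : ℕ → ℕ := fun n => (f (Nat.unpair n).1 (Nat.unpair n).2).toNat

theorem dc_jn (f : ℕ → ℕ → Bool) (k : ℕ) : dc k (jn f) = f k := by
  funext n
  simp only [dc, jn, Nat.unpair_pair]
  cases f k n <;> simp

/-- arithmetic of the rational numbers and the family `T` of trees -/
def RR (T : ℕ → List ℕ → List ℕ → List ℕ → Prop) : ℕ → ℕ → ℕ → ℕ → Prop
  | 0, a, b, _ => qe.symm a < qe.symm b
  | 1, a, b, c => qe.symm a + qe.symm b = qe.symm c
  | 2, a, b, c => qe.symm a * qe.symm b = qe.symm c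
  | 3, a, b, _ => -qe.symm a = qe.symm b
  | 4, a, b, _ => (a : ℚ) = qe.symm b
  | i + 5, a, b, c => ∃ l l' l'' : List ℕ, Encodable.encode l = a ∧ Encodable.encode l' = b ∧
      Encodable.encode l'' = c ∧ T i l l' l''

/-- the parameter `Φ` of the ground model -/
def FF (T : ℕ → List ℕ → List ℕ → List ℕ → Prop) (r a b c : ℕ) : Prop :=
  r = 0 ∧ RR T (Nat.unpair a).1 (Nat.unpair a).2 b c

/-- the tree `T` projects onto `B` -/
def IsTr (T : List ℕ → List ℕ → List ℕ → Prop) (B : Set ((ℕ → ℕ) × (ℕ → ℕ))) : Prop :=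
  ∀ w x, (w, x) ∈ B ↔ ∃ z : ℕ → ℕ, ∀ n, T (ini z n) (ini w n) (ini x n)

/-- `w = b`, `x = (t, j)`: `b` codes a coherent structure for the parameter `t` with the order `j` of the indices -/
def B1 : Set ((ℕ → ℕ) × (ℕ → ℕ)) :=
  {p | Tb (dc 0 p.1) (dc 0 p.2) ∧ ∀ i k, Jb (dc 0 p.1) i k ↔ dc 1 p.2 (Nat.pair i k) = true}

/-- `w = (b, y)`, `x = (t, x_0, x_1, …)`: `b` codes a coherent structure for the parameter `t`, `y` is a real of this structure and different from all `x_n` -/
def B2 : Set ((ℕ → ℕ) × (ℕ → ℕ)) :=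
  {p | Tb (dc 0 p.1) (dc 0 p.2) ∧ Rb (dc 0 p.1) (dc 1 p.1) ∧ ∀ n, dc 1 p.1 ≠ dc (n + 1) p.2}

/-- the ground model `U (Ph t) δ`; the trees `T 0`, `T 1` are used for absoluteness, the trees `T (i + 2)` are arbitrary -/
structure GMod (T : ℕ → List ℕ → List ℕ → List ℕ → Prop) (t : ℕ → Bool) (δ : Ordinal.{0}) : Prop where
  ph : Ph t = FF T
  lim : Order.IsSuccLimit δ
  om : Ordinal.omega0 < δ
  ct : (U (Ph t) δ).Countable
  mod : CPY.Mod (U (Ph t) δ)
  t0 : IsTr (T 0) B1
  t1 : IsTr (T 1) B2

end LGr
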