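import Pool.Agent.LGr.Wol
import Pool.Agent.LGr.OrdL
import Pool.Agent.LGr.Trn

/-! # Reflection

(problem MP_ba5606_gt, ARH Part II, block A; architect helper69)

PROOF of `exists_refl`. For a formula `φ` and a list `l` of elements let `w φ l` be the least ordinal `β` such that some `x ∈ U Φ β` satisfies `lsat Lc φ (cns x (env l))`, where `env l i = l.getD i ∅`, and
`0` if there is no such `x ∈ Lc`. For an ordinal `β` the ordinals `w φ l` (`φ : LF`, `l` a list of elements of `U Φ β`) form a small family, so they have a supremum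
(`Ordinal.bddAbove_of_small`, `exists_uz`: `U Φ β` is small; `List` of a small type is small; `LF` is countable by `enc_inj`). Let `β_0 = max α ω + 1`,
`β_(n+1) > β_n, sup (w φ l + 1 : l ∈ List (U Φ β_n))`, `δ = sup β_n`, a limit ordinal. Tarski-Vaught: by induction on `φ`, for all `v` with values in `U Φ δ`: `lsat Lc φ v ↔ lsat (U Φ δ) φ v`. The case
`all φ`: if `¬ lsat Lc φ (cns x v)` for some `x ∈ Lc` then, as `φ` has only finitely many free variables (`lsat_bd`), one may replace `v` by `env l` with `l` a list of elements of some `U Φ β_n`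
(`U_lim`, `U_mono`); so there is such an `x` in `U Φ δ` (`w (imp φ bot) l < δ`). -/

namespace LGr

open STP

variable (Φ : ℕ → ℕ → ℕ → ℕ → Prop)

/-- the assignment given by a list -/
private noncomputable def envl (l : List ZFSet.{0}) : ℕ → ZFSet.{0} := fun i => l.getD i ∅

/-- the stage of a witness -/
private noncomputable def wst (φ : LF) (l : List ZFSet.{0}) : Ordinal.{0} :=
  sInf {β | ∃ x ∈ U Φ β, lsat Φ (· ∈ ·) (Lt Φ) (· ∈ Lc Φ) φ (cns x (envl l))}

private theorem wst_spec {φ : LF} {l : List ZFSet.{0}}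
    (h : ∃ x ∈ Lc Φ, lsat Φ (· ∈ ·) (Lt Φ) (· ∈ Lc Φ) φ (cns x (envl l))) :
    ∃ x ∈ U Φ (wst Φ φ l), lsat Φ (· ∈ ·) (Lt Φ) (· ∈ Lc Φ) φ (cns x (envl l)) := by
  obtain ⟨x, ⟨β, hβ⟩, hx⟩ := h
  exact csInf_mem (s := {β | ∃ x ∈ U Φ β, lsat Φ (· ∈ ·) (Lt Φ) (· ∈ Lc Φ) φ (cns x (envl l))})
    ⟨β, x, hβ, hx⟩

private theorem small_U (β : Ordinal.{0}) : Small.{0} (U Φ β) := by
  have h : Small.{0} (uz Φ β) := inferInstance
  let g : U Φ β → uz Φ β := fun x => ⟨x.1, (mem_uz Φ).2 x.2⟩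
  refine small_of_injective (f := g) ?_
  intro x y hxy
  have h1 : (g x).1 = (g y).1 := by rw [hxy]
  exact Subtype.ext h1

private theorem exists_next (β : Ordinal.{0}) : ∃ γ : Ordinal.{0}, β < γ ∧
    ∀ (φ : LF) (l : List ZFSet.{0}), (∀ y ∈ l, y ∈ U Φ β) → wst Φ φ l < γ := by
  have := small_U Φ β
  let f : LF × List (U Φ β) → Ordinal.{0} := fun p => wst Φ p.1 (p.2.map (·.1))
  obtain ⟨γ, hγ⟩ := Ordinal.bddAbove_of_small (s := Set.range f)
  refine ⟨max β γ + 1, ?_, fun φ l hl => ?_⟩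
  · exact (le_max_left _ _).trans_lt (Order.lt_succ _)
  · have h1 : wst Φ φ l ≤ γ := by
      have h2 : f (φ, l.pmap (fun y hy => (⟨y, hy⟩ : U Φ β)) hl) ≤ γ := hγ ⟨_, rfl⟩
      have h3 : (l.pmap (fun y hy => (⟨y, hy⟩ : U Φ β)) hl).map (·.1) = l := by
        rw [List.map_pmap]
        simp
      have h4 : f (φ, l.pmap (fun y hy => (⟨y, hy⟩ : U Φ β)) hl) = wst Φ φ
          ((l.pmap (fun y hy => (⟨y, hy⟩ : U Φ β)) hl).map (·.1)) := rfl
      rw [h4, h3] at h2
      exact h2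
    exact (h1.trans (le_max_right _ _)).trans_lt (Order.lt_succ _)

theorem exists_refl (α : Ordinal.{0}) : ∃ δ : Ordinal.{0}, α < δ ∧ Ordinal.omega0 < δ ∧ Order.IsSuccLimit δ ∧
    ∀ (φ : LF) (v : ℕ → ZFSet.{0}), (∀ i, v i ∈ U Φ δ) →
      (lsat Φ (· ∈ ·) (Lt Φ) (· ∈ Lc Φ) φ v ↔ lsat Φ (· ∈ ·) (Lt Φ) (· ∈ U Φ δ) φ v) := by
  choose nxt hn1 hn2 using exists_next Φ
  let sq : ℕ → Ordinal.{0} := fun n => nxt^[n] (max α Ordinal.omega0)
  have hs0 : sq 0 = max α Ordinal.omega0 := rfl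
  have hs1 : ∀ n, sq (n + 1) = nxt (sq n) := fun n => Function.iterate_succ_apply' _ _ _
  have hlt : ∀ n, sq n < sq (n + 1) := fun n => by rw [hs1]; exact hn1 _
  have hmono : StrictMono sq := strictMono_nat_of_lt_succ hlt
  have hb : BddAbove (Set.range sq) := Ordinal.bddAbove_of_small
  have hle : ∀ n, sq n ≤ ⨆ n, sq n := fun n => le_ciSup hb n
  have hltδ : ∀ n, sq n < ⨆ n, sq n := fun n => (hlt n).trans_le (hle _)
  have hex : ∀ β, β < ⨆ n, sq n → ∃ n, β < sq n := fun β hβ => (lt_ciSup_iff hb).1 hβ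
  have hlim : Order.IsSuccLimit (⨆ n, sq n) := by
    refine ⟨?_, ?_⟩
    · intro hmin
      exact absurd (hltδ 0) (not_lt.2 (hmin (hltδ 0).le))
    · intro a ha
      obtain ⟨n, hn⟩ := hex a ha.lt
      have h1 := ha.2 hn
      exact h1 (hltδ n)
  have hmem : ∀ x, x ∈ U Φ (⨆ n, sq n) ↔ ∃ n, x ∈ U Φ (sq n) := by
    intro x
    rw [U_lim Φ hlim]
    constructor
    · rintro ⟨β, hβ, hx⟩
      obtain ⟨n, hn⟩ := hex β hβ
      exact ⟨n, U_mono Φ hn.le hx⟩
    · rintro ⟨n, hx⟩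
      exact ⟨_, hltδ n, hx⟩
  refine ⟨⨆ n, sq n, ?_, ?_, hlim, ?_⟩
  · exact (le_max_left _ _).trans_lt (hs0 ▸ hltδ 0)
  · exact (le_max_right _ _).trans_lt (hs0 ▸ hltδ 0)
  intro φ
  induction φ with
  | mem i j => intro v _; exact Iff.rfl
  | eq i j => intro v _; exact Iff.rfl
  | lt i j => intro v _; exact Iff.rfl
  | tp r i j k => intro v _; exact Iff.rfl
  | bot => intro v _; exact Iff.rfl
  | imp φ ψ h1 h2 => intro v hv; exact imp_congr (h1 v hv) (h2 v hv)
  | all φ ih =>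
    intro v hv
    have hcns : ∀ x, x ∈ U Φ (⨆ n, sq n) → ∀ i, cns x v i ∈ U Φ (⨆ n, sq n) := by
      intro x hx i
      cases i with
      | zero => exact hx
      | succ i => exact hv i
    constructor
    · intro h x hx
      exact (ih _ (hcns x hx)).1 (h x ⟨_, hx⟩)
    · intro h x hx
      by_contra hcon
      let l : List ZFSet.{0} := List.ofFn fun i : Fin (bd φ) => v i
      have hl : ∀ i < bd φ, envl l i = v i := by
        intro i hi
        simp [envl, l, hi]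
      have hbd : ∀ z, ∀ i < bd φ, cns z (envl l) i = cns z v i := by
        intro z i hi
        cases i with
        | zero => rfl
        | succ i => exact hl i (by omega)
      have hw : ∃ x ∈ Lc Φ, lsat Φ (· ∈ ·) (Lt Φ) (· ∈ Lc Φ) (LF.imp φ LF.bot) (cns x (envl l)) :=
        ⟨x, hx, fun h' => hcon ((lsat_bd φ (hbd x)).1 h')⟩
      obtain ⟨x', hx', hs'⟩ := wst_spec Φ hw
      have hfin : ∃ n, ∀ y ∈ l, y ∈ U Φ (sq n) := by
        have h1 : ∀ i : Fin (bd φ), ∃ n, v i ∈ U Φ (sq n) := fun i => (hmem _).1 (hv i)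
        choose c hc using h1
        refine ⟨Finset.univ.sup c, fun y hy => ?_⟩
        obtain ⟨i, rfl⟩ := (List.mem_ofFn' _ _).1 hy
        exact U_mono Φ (hmono.monotone (Finset.le_sup (Finset.mem_univ i))) (hc i)
      obtain ⟨n, hn⟩ := hfin
      have hlt' : wst Φ (LF.imp φ LF.bot) l < sq (n + 1) := by
        rw [hs1]
        exact hn2 _ _ _ hn
      have hxU : x' ∈ U Φ (⨆ n, sq n) := (hmem _).2 ⟨n + 1, U_mono Φ hlt'.le hx'⟩
      refine hs' ((lsat_bd φ (hbd x')).2 ?_)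
      exact (ih _ (hcns x' hxU)).2 (h x' hxU)

end LGr
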