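import Pool.Agent.LGr.Par
import Pool.Agent.LGr.OrdL
import Pool.Agent.LGr.Trn
import Pool.Agent.LGr.Wol
import Pool.Agent.WCal.ZUb

/-! # The relations `Φ r` and the canonical order are internal in the ground model

(problem MP_ba5606_gt, ARH Part II, block A; architect helper69)

`M = U Φ δ` (a type with `WM` by the instance for `[Fact (CPY.Mod (U Φ δ))]`, see `WCal/Tm.lean`).

PROOFS.
* `zn_eq`: induction (`Ordinal.toZFSet_add_one`). `zn_inj`: from it. `mem_rz`: `ZFSet.mem_range`. `rz_inj`. `ord_mem`: `toZFSet_mem_U`, `U_mono`; conversely `U_lim`, `rank_le` and the rank of `α.toZFSet` is `α`.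
* `rz_mem`: `rz y ∈ W` iff the predicate `y n = true` is internal (`IP.iff_mem`, `nt_val`, for `→`; for `←` `IP.iff_mem` and separation in `W`, e.g. `exists_cd_st` for the internal set `{n | y n = true}`) iff `y` is an
  internal function to `Bool` (`IF W y` is `IP W (fun p : ℕ × Bool => y p.1 = p.2)`; `Bool` has two elements).
* `dfn_mem` (main tool): for `P ∈ U Φ β` and every formula `φ : LF` and assignment `v : ℕ → ZFSet` in `U Φ β` the set `{z ∈ P | lsat (U Φ β) φ (cns z v)}` is an element of `U Φ (β + 1)`: it is defined by the key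
  `⟨φ ∧ (0 ∈ parameter), …⟩` with the parameters `v 0, …, v (bd φ), P` (`bd`, `lsat_bd` in `Trn.lean`; write `P` as an additional parameter at a position which does not occur in `φ`).
  So it is an element of `M` if `β < δ`.
* `ip_row`: the set `P := (pr (om) (pr om om)).1` (codes of triples) is in `U Φ β` for some `β < δ`; formula: `∃ a q b c, z = (a, q), q = (b, c), tp r a b c`, with `z = (a, q)` the formula `tr` of the `Fml` formula for
  ordered pairs (`fOP` in `STP/FLang.lean`; `sat_tr` relates `lsat` of `tr φ` to `sat`; or write pairs directly in `LF`). All components of elements of `P` are in `U Φ β` (transitive). `isNum_iff`, `zn_eq`, `nt_val`, `op_val`.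
* `ip_Lt`: the same with `P = (pr u v).1` and the formula `∃ x y, z = (x, y), lt x y`. -/

universe v w

namespace LGr

open STP WCal

theorem zn_eq (n : ℕ) : zn n = (n : Ordinal.{0}).toZFSet := by
  induction n with
  | zero => rw [Nat.cast_zero, Ordinal.toZFSet_zero]; rfl
  | succ n ih => rw [Nat.cast_succ, Ordinal.toZFSet_add_one, ← ih]; rfl

theorem zn_inj {m n : ℕ} (h : zn m = zn n) : m = n := by
  rw [zn_eq, zn_eq] at h
  exact Nat.cast_injective (Ordinal.toZFSet_injective h)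

theorem mem_rz {y : ℕ → Bool} {z : ZFSet.{0}} : z ∈ rz y ↔ ∃ n, y n = true ∧ z = zn n := by
  rw [rz, ZFSet.mem_range]
  constructor
  · rintro ⟨⟨n, hn⟩, rfl⟩
    exact ⟨n, hn, rfl⟩
  · rintro ⟨n, hn, rfl⟩
    exact ⟨⟨n, hn⟩, rfl⟩

private theorem zn_mem_rz {y : ℕ → Bool} {n : ℕ} : zn n ∈ rz y ↔ y n = true := by
  rw [mem_rz]
  constructor
  · rintro ⟨m, hm, h⟩
    rw [zn_inj h]
    exact hm
  · intro h
    exact ⟨n, h, rfl⟩

theorem rz_inj : Function.Injective rz := by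
  intro y y' h
  funext n
  have h1 : y n = true ↔ y' n = true := by
    rw [← zn_mem_rz, ← zn_mem_rz, h]
  exact Bool.eq_iff_iff.2 h1

theorem rz_mem {W : Set ZFSet.{0}} [Fact (CPY.Mod W)] {y : ℕ → Bool} : rz y ∈ W ↔ IF W y := by
  have hW : CPY.Mod W := Fact.out
  constructor
  · intro h
    have h1 : IP W (fun n : ℕ => y n = true) := by
      refine IP.iff_mem.2 ⟨rz y, h, fun n => ?_⟩
      have h2 : (cd W n).1 = zn n := nt_val n
      rw [h2, zn_mem_rz]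
    have h3 : IP W (fun p : ℕ × Bool => p.2 = true) := IP.eq IF.snd (IF.const true)
    have h4 : IP W (fun p : ℕ × Bool => y p.1 = true) := IP.comp h1 IF.fst
    refine IP.congr (fun p => ?_) (IP.iff h4 h3)
    exact Bool.eq_iff_iff.symm
  · intro h
    have h1 : IP W (fun n : ℕ => y n = true) := IP.eq h (IF.const true)
    obtain ⟨x, hx⟩ := exists_sub W _ h1
    have h2 : x.1 = rz y := by
      ext z
      rw [mem_rz]
      constructor
      · intro hz
        obtain ⟨n, hn, h3⟩ := (hx ⟨z, hW.trans x.1 x.2 z hz⟩).1 hz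
        refine ⟨n, hn, ?_⟩
        have h4 : (cd W n).1 = z := congrArg Subtype.val h3
        exact h4.symm.trans (nt_val n)
      · rintro ⟨n, hn, rfl⟩
        have h3 := (hx (cd W n)).2 ⟨n, hn, rfl⟩
        have h4 : (cd W n).1 = zn n := nt_val n
        rw [← h4]
        exact h3
    rw [← h2]
    exact x.2

variable {Φ : ℕ → ℕ → ℕ → ℕ → Prop} {δ : Ordinal.{0}}

theorem ord_mem (hδ : Order.IsSuccLimit δ) {α : Ordinal.{0}} : α.toZFSet ∈ U Φ δ ↔ α < δ := by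
  constructor
  · intro h
    obtain ⟨β, hβ, h1⟩ := (U_lim Φ hδ).1 h
    have h2 := rank_le Φ h1
    rw [Ordinal.rank_toZFSet] at h2
    exact h2.trans_lt hβ
  · intro h
    exact U_mono Φ (Order.add_one_le_of_lt h) (toZFSet_mem_U Φ α)

theorem uz_mem' (hδ : Order.IsSuccLimit δ) {α : Ordinal.{0}} (h : α < δ) : uz Φ α ∈ U Φ δ := by
  exact U_mono Φ (Order.add_one_le_of_lt h) (uz_mem Φ α)

/-! ### Connectives -/

private def lno (φ : LF) : LF := .imp φ .bot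
private def lan (φ ψ : LF) : LF := lno (.imp φ (lno ψ))
private def lor (φ ψ : LF) : LF := .imp (lno φ) ψ
private def lex (φ : LF) : LF := lno (.all (lno φ))

section

variable {S : Type v} {E lt : S → S → Prop} {D : S → Prop} {w : ℕ → S}

private theorem lsat_lno {φ : LF} : lsat Φ E lt D (lno φ) w ↔ ¬ lsat Φ E lt D φ w := Iff.rfl

private theorem lsat_lan {φ ψ : LF} :
    lsat Φ E lt D (lan φ ψ) w ↔ lsat Φ E lt D φ w ∧ lsat Φ E lt D ψ w := by
  change ¬ (lsat Φ E lt D φ w → ¬ lsat Φ E lt D ψ w) ↔ _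
  tauto

private theorem lsat_lor {φ ψ : LF} :
    lsat Φ E lt D (lor φ ψ) w ↔ lsat Φ E lt D φ w ∨ lsat Φ E lt D ψ w := by
  change (¬ lsat Φ E lt D φ w → lsat Φ E lt D ψ w) ↔ _
  tauto

private theorem lsat_lex {φ : LF} :
    lsat Φ E lt D (lex φ) w ↔ ∃ x, D x ∧ lsat Φ E lt D φ (cns x w) := by
  change ¬ (∀ x, D x → ¬ lsat Φ E lt D φ (cns x w)) ↔ _
  push Not
  rfl

private theorem lsat_all' {φ : LF} :
    lsat Φ E lt D (.all φ) w ↔ ∀ x, D x → lsat Φ E lt D φ (cns x w) := Iff.rfl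

private theorem lsat_imp' {φ ψ : LF} :
    lsat Φ E lt D (.imp φ ψ) w ↔ (lsat Φ E lt D φ w → lsat Φ E lt D ψ w) := Iff.rfl

end

/-- `x_p = {x_i, x_j}` -/
private def lUP (p i j : ℕ) : LF :=
  .all (lan (.imp (.mem 0 (p + 1)) (lor (.eq 0 (i + 1)) (.eq 0 (j + 1))))
    (.imp (lor (.eq 0 (i + 1)) (.eq 0 (j + 1))) (.mem 0 (p + 1))))

private theorem lsat_lUP {lt : ZFSet.{0} → ZFSet.{0} → Prop} {β : Ordinal.{0}} {w : ℕ → ZFSet.{0}}
    {p i j : ℕ} (hp : w p ∈ U Φ β) (hi : w i ∈ U Φ β) (hj : w j ∈ U Φ β) :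
    lsat Φ (· ∈ ·) lt (· ∈ U Φ β) (lUP p i j) w ↔ w p = {w i, w j} := by
  have h1 : lsat Φ (· ∈ ·) lt (· ∈ U Φ β) (lUP p i j) w ↔
      ∀ x, x ∈ U Φ β → (x ∈ w p ↔ (x = w i ∨ x = w j)) := by
    rw [lUP, lsat_all']
    refine forall_congr' fun x => imp_congr_right fun _ => ?_
    rw [lsat_lan, lsat_imp', lsat_imp', lsat_lor]
    exact iff_iff_implies_and_implies.symm
  rw [h1]
  constructor
  · intro h
    ext x
    rw [ZFSet.mem_pair]
    constructor
    · intro hx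
      exact (h x (U_trans Φ hp hx)).1 hx
    · rintro (rfl | rfl)
      · exact (h _ hi).2 (Or.inl rfl)
      · exact (h _ hj).2 (Or.inr rfl)
  · intro h x _
    rw [h, ZFSet.mem_pair]

/-- `x_p = (x_i, x_j)` -/
private def lOP (p i j : ℕ) : LF :=
  lan (lex (lan (.mem 0 (p + 1)) (lUP 0 (i + 1) (i + 1))))
    (lan (lex (lan (.mem 0 (p + 1)) (lUP 0 (i + 1) (j + 1))))
      (.all (.imp (.mem 0 (p + 1)) (lor (lUP 0 (i + 1) (i + 1)) (lUP 0 (i + 1) (j + 1))))))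

private theorem pair_eq (x y : ZFSet.{0}) : ZFSet.pair x y = {{x}, {x, y}} := rfl

private theorem lsat_lOP {lt : ZFSet.{0} → ZFSet.{0} → Prop} {β : Ordinal.{0}} {w : ℕ → ZFSet.{0}}
    {p i j : ℕ} (hp : w p ∈ U Φ β) (hi : w i ∈ U Φ β) (hj : w j ∈ U Φ β) :
    lsat Φ (· ∈ ·) lt (· ∈ U Φ β) (lOP p i j) w ↔ w p = ZFSet.pair (w i) (w j) := by
  have hs : ({w i, w i} : ZFSet.{0}) = {w i} := by
    ext z
    rw [ZFSet.mem_pair, or_self, ZFSet.mem_singleton]
  have h1 : lsat Φ (· ∈ ·) lt (· ∈ U Φ β) (lOP p i j) w ↔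
      ((∃ x, x ∈ U Φ β ∧ x ∈ w p ∧ x = {w i}) ∧ (∃ x, x ∈ U Φ β ∧ x ∈ w p ∧ x = {w i, w j}) ∧
        ∀ x, x ∈ U Φ β → x ∈ w p → (x = {w i} ∨ x = {w i, w j})) := by
    rw [lOP, lsat_lan, lsat_lan, lsat_lex, lsat_lex, lsat_all']
    refine and_congr ?_ (and_congr ?_ ?_)
    · refine exists_congr fun x => and_congr_right fun hx => ?_
      rw [lsat_lan, lsat_lUP (by exact hx) (by exact hi) (by exact hi)]
      refine and_congr Iff.rfl ?_
      rw [← hs]
      exact Iff.rfl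
    · refine exists_congr fun x => and_congr_right fun hx => ?_
      rw [lsat_lan, lsat_lUP (by exact hx) (by exact hi) (by exact hj)]
      exact Iff.rfl
    · refine forall_congr' fun x => imp_congr_right fun hx => ?_
      rw [lsat_imp', lsat_lor, lsat_lUP (by exact hx) (by exact hi) (by exact hi),
        lsat_lUP (by exact hx) (by exact hi) (by exact hj)]
      rw [← hs]
      exact Iff.rfl
  rw [h1, pair_eq]
  constructor
  · rintro ⟨⟨x, -, hx, rfl⟩, ⟨x', -, hx', rfl⟩, h⟩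
    ext z
    rw [ZFSet.mem_pair]
    constructor
    · intro hz
      exact h z (U_trans Φ hp hz) hz
    · rintro (rfl | rfl)
      · exact hx
      · exact hx'
  · intro h
    have e1 : ({w i} : ZFSet.{0}) ∈ w p := by rw [h, ZFSet.mem_pair]; exact Or.inl rfl
    have e2 : ({w i, w j} : ZFSet.{0}) ∈ w p := by rw [h, ZFSet.mem_pair]; exact Or.inr rfl
    refine ⟨⟨_, U_trans Φ hp e1, e1, rfl⟩, ⟨_, U_trans Φ hp e2, e2, rfl⟩, fun x _ hx => ?_⟩
    rw [h, ZFSet.mem_pair] at hx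
    exact hx

private theorem pair_sub {β : Ordinal.{0}} {x y : ZFSet.{0}} (h : ZFSet.pair x y ∈ U Φ β) :
    x ∈ U Φ β ∧ y ∈ U Φ β := by
  have h1 : ({x, y} : ZFSet.{0}) ∈ U Φ β :=
    U_trans Φ h (by rw [pair_eq, ZFSet.mem_pair]; exact Or.inr rfl)
  exact ⟨U_trans Φ h1 (ZFSet.mem_pair.2 (Or.inl rfl)), U_trans Φ h1 (ZFSet.mem_pair.2 (Or.inr rfl))⟩

private theorem env_range (φ : LF) (w : ℕ → ZFSet.{0}) (n i : ℕ) (hi : i < n + 1) :
    (⟨φ, w 0, (List.range n).map fun i => w (i + 1)⟩ : Key ZFSet.{0}).env i = w i := by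
  have h1 : (w 0 :: (List.range n).map fun i => w (i + 1)) = (List.range (n + 1)).map w := by
    rw [List.range_succ_eq_map, List.map_cons, List.map_map]
    rfl
  change (w 0 :: (List.range n).map fun i => w (i + 1)).getD i (w 0) = w i
  rw [h1, List.getD_eq_getElem _ _ (by rw [List.length_map, List.length_range]; exact hi),
    List.getElem_map, List.getElem_range]

theorem dfn_mem (hδ : Order.IsSuccLimit δ) {β : Ordinal.{0}} (hβ : β < δ) {P : ZFSet.{0}} (hP : P ∈ U Φ β) (φ : LF)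
    (v : ℕ → ZFSet.{0}) (hv : ∀ i, v i ∈ U Φ β) :
    ∃ x ∈ U Φ δ, ∀ z, z ∈ x ↔ z ∈ P ∧ lsat Φ (· ∈ ·) (Lt Φ) (· ∈ U Φ β) φ (cns z v) := by
  set n := bd φ with hn
  let w : ℕ → ZFSet.{0} := fun i => if i < n then v i else P
  have hw : ∀ i, w i ∈ U Φ β := by
    intro i
    by_cases hi : i < n
    · simp only [w, if_pos hi]
      exact hv i
    · simp only [w, if_neg hi]
      exact hP
  let k : Key ZFSet.{0} := ⟨lan (.mem 0 (n + 1)) φ, w 0, (List.range n).map fun i => w (i + 1)⟩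
  have hk : k.ok (· ∈ U Φ β) := by
    refine ⟨hw 0, fun y hy => ?_⟩
    obtain ⟨i, -, rfl⟩ := List.mem_map.1 hy
    exact hw _
  obtain ⟨x, hx⟩ := exists_Df Φ β k
  refine ⟨x, U_mono Φ (Order.add_one_le_of_lt hβ) ((U_succ Φ).2 ⟨k, hk, hx⟩), fun z => ?_⟩
  have henv : ∀ i, i < n + 1 → k.env i = w i := fun i hi => env_range _ w n i hi
  have h1 : z ∈ x ↔ z ∈ U Φ β ∧
      lsat Φ (· ∈ ·) (Rl Φ β) (· ∈ U Φ β) (lan (.mem 0 (n + 1)) φ) (cns z k.env) := hx z
  have h2 : lsat Φ (· ∈ ·) (Rl Φ β) (· ∈ U Φ β) (.mem 0 (n + 1)) (cns z k.env) ↔ z ∈ P := by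
    have h3 : k.env n = P := by
      rw [henv n (Nat.lt_succ_self n)]
      simp only [w, lt_irrefl, if_false]
    change z ∈ k.env n ↔ z ∈ P
    rw [h3]
  have h4 : ∀ i < bd φ, cns z k.env i = cns z v i := by
    intro i hi
    cases i with
    | zero => rfl
    | succ i =>
      change k.env i = v i
      have hi' : i < n := by omega
      rw [henv i (by omega)]
      simp only [w, if_pos hi']
  rw [h1, lsat_lan, h2, lsat_bd φ h4]
  constructor
  · rintro ⟨h5, h6, h7⟩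
    refine ⟨h6, (lsat_congr (fun _ _ _ hy => (Lt_iff Φ hy).symm) φ _ ?_).1 h7⟩
    intro i
    cases i with
    | zero => exact h5
    | succ i => exact hv i
  · rintro ⟨h6, h7⟩
    have h5 : z ∈ U Φ β := U_trans Φ hP h6
    refine ⟨h5, h6, (lsat_congr (fun _ _ _ hy => (Lt_iff Φ hy).symm) φ _ ?_).2 h7⟩
    intro i
    cases i with
    | zero => exact h5
    | succ i => exact hv i

/-- the relations `Φ r` are internal -/
theorem ip_row (hδ : Order.IsSuccLimit δ) [Fact (CPY.Mod (U Φ δ))] (r : ℕ) :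
    IP (U Φ δ) (fun p : ℕ × ℕ × ℕ => Φ r p.1 p.2.1 p.2.2) := by
  obtain ⟨β, hβ, hP⟩ := (U_lim Φ hδ).1 (rg (U Φ δ) (ℕ × ℕ × ℕ)).2
  obtain ⟨x, hx, h1⟩ := dfn_mem hδ hβ hP (lex (lex (lex (lex (lan (lOP 4 3 2)
    (lan (lOP 2 1 0) (.tp r 3 1 0))))))) (fun _ => ∅) fun _ => empty_mem_U Φ β
  refine IP.iff_mem.2 ⟨x, hx, ?_⟩
  rintro ⟨a, b, c⟩
  have hcd : (cd (U Φ δ) ((a, b, c) : ℕ × ℕ × ℕ)).1 =
      ZFSet.pair (zn a) (ZFSet.pair (zn b) (zn c)) := by
    change (op (nt (U Φ δ) a) (op (nt (U Φ δ) b) (nt (U Φ δ) c))).1 = _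
    rw [op_val, op_val, nt_val, nt_val, nt_val]
  have hmem' : WM.E (cd (U Φ δ) ((a, b, c) : ℕ × ℕ × ℕ)) (rg (U Φ δ) (ℕ × ℕ × ℕ)) := cd_mem _
  have hmem : ZFSet.pair (zn a) (ZFSet.pair (zn b) (zn c)) ∈ (rg (U Φ δ) (ℕ × ℕ × ℕ)).1 := by
    rw [← hcd]
    exact hmem'
  rw [h1, hcd]
  have m0 : ZFSet.pair (zn a) (ZFSet.pair (zn b) (zn c)) ∈ U Φ β := U_trans Φ hP hmem
  obtain ⟨m1, m2⟩ := pair_sub m0
  obtain ⟨m3, m4⟩ := pair_sub m2
  have h2 : ∀ z ∈ U Φ β, lsat Φ (· ∈ ·) (Lt Φ) (· ∈ U Φ β)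
      (lex (lex (lex (lex (lan (lOP 4 3 2) (lan (lOP 2 1 0) (.tp r 3 1 0)))))))
      (cns z fun _ => ∅) ↔ ∃ a', a' ∈ U Φ β ∧ ∃ q', q' ∈ U Φ β ∧ ∃ b', b' ∈ U Φ β ∧ ∃ c',
        c' ∈ U Φ β ∧ z = ZFSet.pair a' q' ∧ q' = ZFSet.pair b' c' ∧
          ∃ a₁ b₁ c₁, a' = zn a₁ ∧ b' = zn b₁ ∧ c' = zn c₁ ∧ Φ r a₁ b₁ c₁ := by
    intro z hz
    rw [lsat_lex]
    refine exists_congr fun a' => and_congr_right fun ha' => ?_
    rw [lsat_lex]
    refine exists_congr fun q' => and_congr_right fun hq' => ?_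
    rw [lsat_lex]
    refine exists_congr fun b' => and_congr_right fun hb' => ?_
    rw [lsat_lex]
    refine exists_congr fun c' => and_congr_right fun hc' => ?_
    rw [lsat_lan, lsat_lan, lsat_lOP (by exact hz) (by exact ha') (by exact hq'),
      lsat_lOP (by exact hq') (by exact hb') (by exact hc')]
    refine and_congr Iff.rfl (and_congr Iff.rfl ?_)
    refine exists_congr fun a₁ => exists_congr fun b₁ => exists_congr fun c₁ => ?_
    rw [isNum_iff, isNum_iff, isNum_iff, ← zn_eq, ← zn_eq, ← zn_eq]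
    exact Iff.rfl
  rw [h2 _ m0]
  constructor
  · intro h
    exact ⟨hmem, _, m1, _, m2, _, m3, _, m4, rfl, rfl, a, b, c, rfl, rfl, rfl, h⟩
  · rintro ⟨-, a', -, q', -, b', -, c', -, e1, e2, a₁, b₁, c₁, rfl, rfl, rfl, h⟩
    subst e2
    obtain ⟨e3, e4⟩ := ZFSet.pair_injective e1
    obtain ⟨e5, e6⟩ := ZFSet.pair_injective e4
    rw [zn_inj e3, zn_inj e5, zn_inj e6]
    exact h

/-- the canonical order is internal -/
theorem ip_Lt (hδ : Order.IsSuccLimit δ) [Fact (CPY.Mod (U Φ δ))] (u v : U Φ δ) :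
    IP (U Φ δ) (fun p : El u × El v => Lt Φ p.1.v.1 p.2.v.1) := by
  obtain ⟨β, hβ, hP⟩ := (U_lim Φ hδ).1 (rg (U Φ δ) (El u × El v)).2
  obtain ⟨x, hx, h1⟩ := dfn_mem hδ hβ hP (lex (lex (lan (lOP 2 1 0) (.lt 1 0))))
    (fun _ => ∅) fun _ => empty_mem_U Φ β
  refine IP.iff_mem.2 ⟨x, hx, ?_⟩
  rintro ⟨a, b⟩
  have hcd : (cd (U Φ δ) ((a, b) : El u × El v)).1 = ZFSet.pair a.v.1 b.v.1 := by
    change (op a.v b.v).1 = _
    rw [op_val]
  have hmem' : WM.E (cd (U Φ δ) ((a, b) : El u × El v)) (rg (U Φ δ) (El u × El v)) := cd_mem _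
  have hmem : ZFSet.pair a.v.1 b.v.1 ∈ (rg (U Φ δ) (El u × El v)).1 := by
    rw [← hcd]
    exact hmem'
  rw [h1, hcd]
  have m0 : ZFSet.pair a.v.1 b.v.1 ∈ U Φ β := U_trans Φ hP hmem
  obtain ⟨m1, m2⟩ := pair_sub m0
  have h2 : ∀ z ∈ U Φ β, lsat Φ (· ∈ ·) (Lt Φ) (· ∈ U Φ β)
      (lex (lex (lan (lOP 2 1 0) (.lt 1 0)))) (cns z fun _ => ∅) ↔
      ∃ a', a' ∈ U Φ β ∧ ∃ b', b' ∈ U Φ β ∧ z = ZFSet.pair a' b' ∧ Lt Φ a' b' := by
    intro z hz
    rw [lsat_lex]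
    refine exists_congr fun a' => and_congr_right fun ha' => ?_
    rw [lsat_lex]
    refine exists_congr fun b' => and_congr_right fun hb' => ?_
    rw [lsat_lan, lsat_lOP (by exact hz) (by exact ha') (by exact hb')]
    exact Iff.rfl
  rw [h2 _ m0]
  constructor
  · intro h
    exact ⟨hmem, _, m1, _, m2, rfl, h⟩
  · rintro ⟨-, a', -, b', -, e1, h⟩
    obtain ⟨e3, e4⟩ := ZFSet.pair_injective e1
    rw [← e3, ← e4] at h
    exact h

end LGr
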