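import Pool.Agent.LGr.Par

/-! # Analytic sets are projections of trees

(problem MP_ba5606_gt, ARH Part II, block A; helper79; no sorry in this file)

`exists_tree`: an analytic set `B` of pairs `(w, x)` has a tree `T` on triples of lists with
`(w, x) ∈ B ↔ ∃ z, ∀ n, T (z|n) (w|n) (x|n)`. -/

set_option autoImplicit false

namespace LGr

open WCal MeasureTheory

private theorem ini_get' {α : Type*} (x : ℕ → α) {n i : ℕ} (h : i < n) :
    (ini x n)[i]? = some (x i) := by
  simp [ini, List.getElem?_range h]

/-- two functions with the same initial segment agree below -/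
theorem ini_eq {α : Type*} {x y : ℕ → α} {n i : ℕ} (h : ini x n = ini y n) (hi : i < n) :
    x i = y i := by
  have h1 := ini_get' x hi
  rw [h, ini_get' y hi] at h1
  exact (Option.some.inj h1).symm

/-- functions which agree below have the same initial segment -/
theorem ini_congr {α : Type*} {x y : ℕ → α} {n : ℕ} (h : ∀ i < n, x i = y i) :
    ini x n = ini y n := by
  unfold ini
  exact List.map_congr_left fun i hi => h i (List.mem_range.1 hi)

/-- a neighbourhood of `z` in the Baire space contains the functions with the same long initial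
segment -/
theorem exists_ini {P : (ℕ → ℕ) → Prop} {z : ℕ → ℕ} (h : ∀ᶠ z' in nhds z, P z') :
    ∃ m, ∀ z', ini z' m = ini z m → P z' := by
  rw [nhds_pi, Filter.eventually_iff, Filter.mem_pi] at h
  obtain ⟨I, hI, t, ht, hsub⟩ := h
  obtain ⟨m, hm⟩ := hI.bddAbove
  refine ⟨m + 1, fun z' hz => hsub fun i hi => ?_⟩
  rw [ini_eq hz (Nat.lt_succ_of_le (hm hi))]
  exact mem_of_mem_nhds (ht i)

private theorem continuous_discrete_eventually {g : (ℕ → ℕ) → ℕ} (hg : Continuous g)
    (z : ℕ → ℕ) : ∀ᶠ z' in nhds z, g z' = g z :=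
  hg.continuousAt.eventually (IsOpen.mem_nhds (isOpen_discrete {g z}) rfl)

/-- analytic sets are projections of trees -/
theorem exists_tree {B : Set ((ℕ → ℕ) × (ℕ → ℕ))} (hB : AnalyticSet B) :
    ∃ T : List ℕ → List ℕ → List ℕ → Prop, IsTr T B := by
  rw [AnalyticSet] at hB
  rcases hB with rfl | ⟨f, hf, rfl⟩
  · exact ⟨fun _ _ _ => False, fun w x => ⟨fun h => h.elim, fun ⟨z, h⟩ => (h 0).elim⟩⟩
  refine ⟨fun u v s => ∃ z', ini z' u.length = u ∧ ini (f z').1 u.length = v ∧
    ini (f z').2 u.length = s, fun w x => ⟨?_, ?_⟩⟩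
  · rintro ⟨z, hz⟩
    refine ⟨z, fun n => ⟨z, ?_⟩⟩
    rw [ini_length, hz]
    exact ⟨rfl, rfl, rfl⟩
  · rintro ⟨z, hz⟩
    refine ⟨z, Prod.ext ?_ ?_⟩
    · funext k
      have h1 : ∀ᶠ z' in nhds z, (f z').1 k = (f z).1 k := by
        have hc : Continuous fun z' => (f z').1 k :=
          (continuous_apply k).comp (continuous_fst.comp hf)
        exact (continuous_discrete_eventually hc z)
      obtain ⟨m, hm⟩ := exists_ini h1
      obtain ⟨z', h2, h3, -⟩ := hz (max m (k + 1))
      rw [ini_length] at h2 h3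
      have h4 : (f z').1 k = (f z).1 k :=
        hm z' (ini_congr fun i hi => ini_eq h2 (lt_of_lt_of_le hi (le_max_left _ _)))
      rw [← h4]
      exact ini_eq h3 (lt_of_lt_of_le (Nat.lt_succ_self k) (le_max_right _ _))
    · funext k
      have h1 : ∀ᶠ z' in nhds z, (f z').2 k = (f z).2 k := by
        have hc : Continuous fun z' => (f z').2 k :=
          (continuous_apply k).comp (continuous_snd.comp hf)
        exact (continuous_discrete_eventually hc z)
      obtain ⟨m, hm⟩ := exists_ini h1
      obtain ⟨z', h2, -, h3⟩ := hz (max m (k + 1))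
      rw [ini_length] at h2 h3
      have h4 : (f z').2 k = (f z).2 k :=
        hm z' (ini_congr fun i hi => ini_eq h2 (lt_of_lt_of_le hi (le_max_left _ _)))
      rw [← h4]
      exact ini_eq h3 (lt_of_lt_of_le (Nat.lt_succ_self k) (le_max_right _ _))

end LGr
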